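import Pool.Agent.Lib.MP_4d1bc1_mp.Kv.Hier.Abs0
import Pool.Agent.Lib.MP_4d1bc1_mp.Kv.RedDef

set_option autoImplicit false
set_option linter.unusedSimpArgs false
set_option linter.unusedSectionVars false

/-! The structure for the family (A): `u` is the curvature vector of `γ` in a parallel frame;
the pair `(Y, s)` stands for the vector `Y + s T`, `Y` orthogonal to `T`. -/

namespace Pool.Agent.Lib.MP_4d1bc1_mp.Kv.Hier

open Finset Polynomial

universe u

variable {F : Type u} [Field F] [Algebra ℝ F] (J : Jet F) (c : F)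

/-- `f = (3/2) c u_[0,0]` -/
noncomputable def fA : F := 3 / 2 * c * J.u 0 0

/-- `η = u_xx + (c/2) u_[0,0] u` -/
noncomputable def eta : F[X] := X ^ 2 + C (c / 2 * J.u 0 0)

/-- the total derivative -/
noncomputable def DA : F[X] × F →+ F[X] × F where
  toFun v := (J.DM v.1 + C v.2, J.D v.2 - c * J.ip 1 v.1)
  map_zero' := by simp
  map_add' v w := by
    ext1
    · simp only [Prod.fst_add, Prod.snd_add, map_add]; ring
    · simp only [Prod.fst_add, Prod.snd_add, map_add, J.ip_add_right]; ring

/-- the time derivative -/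
noncomputable def tA : F[X] × F →+ F[X] × F where
  toFun v := (J.evoV (Jet.K3 (fA J c)) v.1 + C (c * J.ip X v.1) - C (c * J.ip 1 v.1) * X
      + C v.2 * eta J c,
    J.evo (Jet.K3 (fA J c)) v.2 - c * J.ip (eta J c) v.1)
  map_zero' := by simp
  map_add' v w := by
    ext1
    · simp only [Prod.fst_add, Prod.snd_add, map_add, J.ip_add_right, mul_add, add_mul]; ring
    · simp only [Prod.fst_add, Prod.snd_add, map_add, J.ip_add_right]; ring

/-- the scalar product -/
noncomputable def MA : F[X] × F →ₗ[F] F[X] × F →ₗ[F] F :=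
  LinearMap.mk₂ F (fun v w => c * J.ip v.1 w.1 + v.2 * w.2)
    (by intro v w z; simp only [Prod.fst_add, Prod.snd_add, J.ip_add_left]; ring)
    (by
      intro k v w
      simp only [Prod.smul_fst, Prod.smul_snd, smul_eq_C_mul, J.ip_C_mul_left, smul_eq_mul]; ring)
    (by intro v w z; simp only [Prod.fst_add, Prod.snd_add, J.ip_add_right]; ring)
    (by
      intro k v w
      simp only [Prod.smul_fst, Prod.smul_snd, smul_eq_C_mul, J.ip_C_mul_right, smul_eq_mul]; ring)

theorem MA_apply (v w : F[X] × F) : MA J c v w = c * J.ip v.1 w.1 + v.2 * w.2 := rfl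

end Pool.Agent.Lib.MP_4d1bc1_mp.Kv.Hier
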