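import Pool.Agent.Lib.MP_4d1bc1_mp.Kv.Hier.PS0

set_option autoImplicit false
set_option linter.unusedSimpArgs false
set_option linter.unusedSectionVars false

/-! Row hi-P2: the extended bilinear form. -/

namespace Pool.Agent.Lib.MP_4d1bc1_mp.Kv.Hier

open Finset PowerSeries

universe u

variable {F : Type u} [Field F] [Algebra ℝ F] {A : Type u} [CommRing A] [Algebra F A]
  (M : A →ₗ[F] A →ₗ[F] F)

theorem bi_add_left (f g h : A⟦X⟧) : bi M (f + g) h = bi M f h + bi M g h := by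
  ext n
  simp only [coeff_bi, map_add, LinearMap.add_apply, Finset.sum_add_distrib]

theorem bi_add_right (f g h : A⟦X⟧) : bi M f (g + h) = bi M f g + bi M f h := by
  ext n
  simp only [coeff_bi, map_add, LinearMap.add_apply, Finset.sum_add_distrib]

theorem bi_sub_left (f g h : A⟦X⟧) : bi M (f - g) h = bi M f h - bi M g h := by
  ext n
  simp only [coeff_bi, map_sub, LinearMap.sub_apply, Finset.sum_sub_distrib]

theorem bi_sub_right (f g h : A⟦X⟧) : bi M f (g - h) = bi M f g - bi M f h := by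
  ext n
  simp only [coeff_bi, map_sub, LinearMap.sub_apply, Finset.sum_sub_distrib]

theorem bi_neg_left (f h : A⟦X⟧) : bi M (-f) h = -bi M f h := by
  ext n
  simp only [coeff_bi, map_neg, LinearMap.neg_apply, Finset.sum_neg_distrib]

theorem bi_neg_right (f g : A⟦X⟧) : bi M f (-g) = -bi M f g := by
  ext n
  simp only [coeff_bi, map_neg, LinearMap.neg_apply, Finset.sum_neg_distrib]

theorem bi_io_left (s : F⟦X⟧) (f g : A⟦X⟧) : bi M (io A s * f) g = s * bi M f g := by
  classical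
  ext n
  simp only [coeff_bi, coeff_mul, coeff_io, map_sum, LinearMap.sum_apply, Finset.mul_sum,
    ← Algebra.smul_def, map_smul, LinearMap.smul_apply, smul_eq_mul, Finset.sum_sigma']
  apply Finset.sum_nbij' (fun ⟨⟨_i, j⟩, ⟨k, l⟩⟩ ↦ ⟨(k, l + j), (l, j)⟩)
    (fun ⟨⟨i, _j⟩, ⟨k, l⟩⟩ ↦ ⟨(i + k, l), (i, k)⟩) <;> aesop (add simp [add_assoc, mul_assoc])

theorem bi_io_right (s : F⟦X⟧) (f g : A⟦X⟧) : bi M f (io A s * g) = s * bi M f g := by
  classical
  ext n
  simp only [coeff_bi, coeff_mul, coeff_io, map_sum, LinearMap.sum_apply, Finset.mul_sum,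
    ← Algebra.smul_def, map_smul, LinearMap.smul_apply, smul_eq_mul, Finset.sum_sigma']
  apply Finset.sum_nbij' (fun ⟨⟨i, _j⟩, ⟨k, l⟩⟩ ↦ ⟨(k, i + l), (i, l)⟩)
    (fun ⟨⟨i, _j⟩, ⟨k, l⟩⟩ ↦ ⟨(k, i + l), (i, l)⟩) <;>
    aesop (add simp [add_assoc, mul_assoc, add_left_comm])

theorem bi_X_left (f g : A⟦X⟧) : bi M (X * f) g = X * bi M f g := by
  rw [← io_X (F := F), bi_io_left]

theorem bi_X_right (f g : A⟦X⟧) : bi M f (X * g) = X * bi M f g := by
  rw [← io_X (F := F), bi_io_right]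

theorem bi_symm (hM : ∀ v w, M v w = M w v) (f g : A⟦X⟧) : bi M f g = bi M g f := by
  ext n
  rw [coeff_bi, coeff_bi]
  refine Finset.sum_nbij' Prod.swap Prod.swap ?_ ?_ ?_ ?_ ?_
  · intro p hp
    rw [HasAntidiagonal.mem_antidiagonal] at hp ⊢
    simpa [add_comm] using hp
  · intro p hp
    rw [HasAntidiagonal.mem_antidiagonal] at hp ⊢
    simpa [add_comm] using hp
  · intro p _
    simp
  · intro p _
    simp
  · intro p _
    exact hM _ _

/-- pairing with a constant vector -/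
theorem bi_C_left (v : A) (f : A⟦X⟧) : bi M (C v) f = cw ((M v : A →ₗ[F] F) : A →+ F) f := by
  ext n
  rw [coeff_bi, coeff_cw, Finset.sum_eq_single ((0, n) : ℕ × ℕ)]
  · simp
  · rintro ⟨i, j⟩ hij hne
    have hi : i ≠ 0 := by
      rintro rfl
      apply hne
      have := HasAntidiagonal.mem_antidiagonal.1 hij
      simp only [zero_add] at this
      rw [this]
    simp [coeff_C, hi]
  · intro h
    exact absurd (HasAntidiagonal.mem_antidiagonal.2 (by simp)) h

theorem bi_C_C (v w : A) : bi M (C v) (C w) = C (M v w) := by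
  rw [bi_C_left, cw_C]; rfl

theorem cw_bi (δ : Derivation ℝ F F) (φ : A →+ A)
    (h : ∀ v w, δ (M v w) = M (φ v) w + M v (φ w)) (f g : A⟦X⟧) :
    cw (ad δ) (bi M f g) = bi M (cw φ f) g + bi M f (cw φ g) := by
  ext n
  simp only [coeff_cw, coeff_bi, map_add, map_sum, ad_apply, h, Finset.sum_add_distrib]

end Pool.Agent.Lib.MP_4d1bc1_mp.Kv.Hier
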