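import Pool.Agent.Lib.MP_4d1bc1_mp.Kv.Hier.PS0

set_option autoImplicit false
set_option linter.unusedSimpArgs false
set_option linter.unusedSectionVars false

/-! Row hi-P3: uniqueness lemmas. -/

namespace Pool.Agent.Lib.MP_4d1bc1_mp.Kv.Hier

open Finset PowerSeries

universe u

/-- the left side of the equations starts one order later -/
theorem RowP3_X {R : Type u} [CommRing R] (φ : R →+ R) {E : R⟦X⟧} {n : ℕ}
    (ih : ∀ m, m < n → coeff m E = 0) : coeff n (X * cw φ E) = 0 := by
  cases n with
  | zero => exact coeff_zero_X_mul _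
  | succ n => rw [coeff_succ_X_mul, coeff_cw, ih n (Nat.lt_succ_self n), map_zero]

/-- leading coefficient of a product -/
theorem RowP3_mul {R : Type u} [CommRing R] (s : R⟦X⟧) {E : R⟦X⟧} {n : ℕ}
    (ih : ∀ m, m < n → coeff m E = 0) : coeff n (s * E) = coeff 0 s * coeff n E := by
  rw [coeff_mul]
  refine Finset.sum_eq_single (0, n) (fun p hp hne => ?_) (fun hn => ?_)
  · have h1 : p.1 + p.2 = n := mem_antidiagonal.mp hp
    have h2 : p.2 < n := by
      rcases Nat.lt_or_ge p.2 n with h | h
      · exact h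
      · exact absurd (Prod.ext (by simp; omega) (by simp; omega)) hne
    rw [ih _ h2, mul_zero]
  · exact absurd (mem_antidiagonal.mpr (Nat.zero_add n)) hn

variable {F : Type u} [Field F] [Algebra ℝ F] {A : Type u} [CommRing A] [Algebra F A]
  (M : A →ₗ[F] A →ₗ[F] F)

/-- the scalar product with a constant vector -/
theorem RowP3_bi (T : A) (B : A⟦X⟧) (n : ℕ) : coeff n (bi M (C T) B) = M T (coeff n B) := by
  rw [coeff_bi]
  rw [Finset.sum_eq_single (0, n) (fun p hp hne => ?_) (fun hn => ?_)]
  · simp
  · have h1 : p.1 + p.2 = n := mem_antidiagonal.mp hp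
    have h2 : p.1 ≠ 0 := by
      intro h
      exact hne (Prod.ext h (by simp; omega))
    rw [coeff_C, if_neg h2, map_zero, LinearMap.zero_apply]
  · exact absurd (mem_antidiagonal.mpr (Nat.zero_add n)) hn

/-- a scalar solution of `μ E' = -s E`, `s₀ ≠ 0`, vanishes -/
theorem uniq_scalar (δ : Derivation ℝ F F) {s E : F⟦X⟧} (hs : coeff 0 s ≠ 0)
    (h : X * cw (ad δ) E = -(s * E)) : E = 0 := by
  have key : ∀ n, coeff n E = 0 := by
    intro n
    induction n using Nat.strong_induction_on with
    | _ n ih =>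
      have h1 := congrArg (coeff n) h
      rw [RowP3_X _ ih, map_neg, RowP3_mul _ ih] at h1
      have h2 : coeff 0 s * coeff n E = 0 := neg_eq_zero.mp h1.symm
      exact (mul_eq_zero.mp h2).resolve_left hs
  ext n
  rw [key n, map_zero]

/-- a vector solution of `μ B' = -(⟨T,B⟩ b + s B)` with `b₀ = T`, `s₀ = 1`, `|T| = 1` vanishes -/
theorem uniq_vector (φ : A →+ A) {T : A} (hT : M T T = 1) {s : F⟦X⟧} {b B : A⟦X⟧}
    (hs : coeff 0 s = 1) (hb : coeff 0 b = T) (h2 : (2 : F) ≠ 0)
    (h : X * cw φ B = -(io A (bi M (C T) B) * b + io A s * B)) : B = 0 := by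
  have key : ∀ n, coeff n B = 0 := by
    intro n
    induction n using Nat.strong_induction_on with
    | _ n ih =>
      have h1 := congrArg (coeff n) h
      have ih2 : ∀ m, m < n → coeff m (io A (bi M (C T) B)) = 0 := by
        intro m hm
        rw [coeff_io, RowP3_bi, ih m hm, map_zero, map_zero]
      rw [RowP3_X _ ih, map_neg, map_add, RowP3_mul _ ih, mul_comm (io A (bi M (C T) B)) b,
        RowP3_mul _ ih2, coeff_io, coeff_io, hs, hb, RowP3_bi, map_one, one_mul] at h1
      have h3 : T * algebraMap F A (M T (coeff n B)) + coeff n B = 0 := neg_eq_zero.mp h1.symm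
      have h4 : T * algebraMap F A (M T (coeff n B)) = (M T (coeff n B)) • T := by
        rw [Algebra.smul_def, mul_comm]
      rw [h4] at h3
      have h5 := congrArg (M T) h3
      rw [map_add, map_smul, hT, smul_eq_mul, mul_one, map_zero] at h5
      have h6 : (2 : F) * M T (coeff n B) = 0 := by rw [two_mul]; exact h5
      have h7 : M T (coeff n B) = 0 := (mul_eq_zero.mp h6).resolve_left h2
      rw [h7, zero_smul, zero_add] at h3
      exact h3
  ext n
  rw [key n, map_zero]

end Pool.Agent.Lib.MP_4d1bc1_mp.Kv.Hier
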