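import Pool.Agent.Lib.MP_4d1bc1_mp.Kv.Hier.RowP1
import Pool.Agent.Lib.MP_4d1bc1_mp.Kv.Hier.RowP2
import Pool.Agent.Lib.MP_4d1bc1_mp.Kv.Hier.RowP3

set_option autoImplicit false
set_option linter.unusedSimpArgs false
set_option linter.unusedSectionVars false

/-! Squared eigenfunctions: the abstract form of the hierarchy of
`T_t = D(T_xx + (3/2) ⟨T_x,T_x⟩ T)`, `⟨T,T⟩ = 1`: definitions. -/

namespace Pool.Agent.Lib.MP_4d1bc1_mp.Kv.Hier

open Finset PowerSeries

universe u

/-- a module with two commuting connections, a compatible scalar product and a unit vector `T`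
with `T_t = D(T_xx + (3/2) ⟨T_x,T_x⟩ T)` -/
structure Geo (F : Type u) [Field F] [Algebra ℝ F] (A : Type u) [CommRing A] [Algebra F A] where
  D : Derivation ℝ F F
  t : Derivation ℝ F F
  D_t : ∀ f, D (t f) = t (D f)
  DA : A →+ A
  tA : A →+ A
  DA_smul : ∀ (c : F) (v : A), DA (c • v) = D c • v + c • DA v
  tA_smul : ∀ (c : F) (v : A), tA (c • v) = t c • v + c • tA v
  DA_tA : ∀ v, DA (tA v) = tA (DA v)
  M : A →ₗ[F] A →ₗ[F] F
  M_symm : ∀ v w, M v w = M w v
  D_M : ∀ v w, D (M v w) = M (DA v) w + M v (DA w)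
  t_M : ∀ v w, t (M v w) = M (tA v) w + M v (tA w)
  T : A
  M_T : M T T = 1
  t_T : tA T = DA (DA (DA T) + (3 / 2 * M (DA T) (DA T)) • T)

variable {F : Type u} [Field F] [Algebra ℝ F] {A : Type u} [CommRing A] [Algebra F A]

section series

variable (DA : A →+ A) (M : A →ₗ[F] A →ₗ[F] F) (T : A)

/-- the coefficients of the solution `b` of `μ b' = T - ⟨T,b⟩ b`, `b₀ = T` -/
noncomputable def bs : ℕ → A
  | 0 => T
  | k + 1 => -DA (bs k)
      + (1 / 2 * (M T (DA (bs k)) + ∑ i : Fin k, M T (bs (i.1 + 1)) * M T (bs (k - i.1)))) • T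
      - ∑ i : Fin k, M T (bs (i.1 + 1)) • bs (k - i.1)
  decreasing_by all_goals omega

/-- the series `b` -/
noncomputable def bS : A⟦X⟧ := PowerSeries.mk (bs DA M T)

theorem bS_zero : coeff 0 (bS DA M T) = T := by
  simp [bS, bs]

/-- the series `a = (b + b̄)/(1 + ⟨b, b̄⟩)` -/
noncomputable def aS : A⟦X⟧ :=
  io A (1 + bi M (bS DA M T) (bS (-DA) M T))⁻¹ * (bS DA M T + bS (-DA) M T)

end series

namespace Geo

variable (G : Geo F A)

/-- the structure with `D`, `t` replaced by `-D`, `-t` -/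
def neg : Geo F A where
  D := -G.D
  t := -G.t
  D_t f := by
    simp only [Derivation.neg_apply, map_neg, neg_neg]; exact G.D_t f
  DA := -G.DA
  tA := -G.tA
  DA_smul c v := by
    simp only [AddMonoidHom.neg_apply, Derivation.neg_apply, G.DA_smul, neg_smul, smul_neg,
      neg_add]
  tA_smul c v := by
    simp only [AddMonoidHom.neg_apply, Derivation.neg_apply, G.tA_smul, neg_smul, smul_neg,
      neg_add]
  DA_tA v := by
    simp only [AddMonoidHom.neg_apply, map_neg, neg_neg]; exact G.DA_tA v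
  M := G.M
  M_symm := G.M_symm
  D_M v w := by
    simp only [AddMonoidHom.neg_apply, Derivation.neg_apply, map_neg, LinearMap.neg_apply,
      G.D_M]; ring
  t_M v w := by
    simp only [AddMonoidHom.neg_apply, Derivation.neg_apply, map_neg, LinearMap.neg_apply,
      G.t_M]; ring
  T := G.T
  M_T := G.M_T
  t_T := by
    simp only [AddMonoidHom.neg_apply, map_neg, LinearMap.neg_apply, neg_neg, G.t_T, map_add]
    rw [neg_add]

/-- the series `b` of the structure -/
noncomputable def b : A⟦X⟧ := bS G.DA G.M G.T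
/-- pairing with the constant vector `z` -/
noncomputable def pr (z : A) (f : A⟦X⟧) : F⟦X⟧ := bi G.M (C z) f
/-- `T_xx + (3/2) ⟨T_x,T_x⟩ T` -/
noncomputable def a2 : A := G.DA (G.DA G.T) + (3 / 2 * G.M (G.DA G.T) (G.DA G.T)) • G.T

theorem char2 (_G : Geo F A) : (2 : F) ≠ 0 := by
  have : CharZero F := charZero_of_injective_algebraMap (algebraMap ℝ F).injective
  exact two_ne_zero

/-- the series `a` of the structure -/
noncomputable def a : A⟦X⟧ := aS G.DA G.M G.T

end Geo

end Pool.Agent.Lib.MP_4d1bc1_mp.Kv.Hier
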