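import Pool.Agent.Lib.MP_4d1bc1_mp.Kv.Hier.RowB2

set_option autoImplicit false
set_option linter.unusedSimpArgs false
set_option linter.unusedSectionVars false

/-! Row hi-B3: the leading terms of `a`. -/

namespace Pool.Agent.Lib.MP_4d1bc1_mp.Kv.Hier

open Finset PowerSeries

universe u

variable {F : Type u} [Field F] [Algebra ℝ F] {A : Type u} [CommRing A] [Algebra F A]
  (DA : A →+ A) (M : A →ₗ[F] A →ₗ[F] F) (T : A)

theorem RowB3_coeff_P (hT : M T T = 1) :
    constantCoeff (1 + bi M (bS DA M T) (bS (-DA) M T)) = (2 : F) := by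
  rw [← coeff_zero_eq_constantCoeff_apply, map_add, coeff_bi]
  have h1 : coeff 0 (1 : F⟦X⟧) = 1 := by simp
  rw [h1, Finset.HasAntidiagonal.antidiagonal_zero, sum_singleton, bS_zero, bS_zero, hT]
  norm_num

theorem RowB3_coeff_inv (hT : M T T = 1) :
    coeff 0 ((1 + bi M (bS DA M T) (bS (-DA) M T))⁻¹) = (1 / 2 : F) := by
  rw [coeff_zero_eq_constantCoeff_apply, constantCoeff_inv, RowB3_coeff_P DA M T hT, one_div]

theorem RowB3_iter (v : A) (n : ℕ) (hn : Even n) : (-DA)^[n] v = DA^[n] v := by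
  obtain ⟨m, rfl⟩ := hn
  rw [← two_mul, Function.iterate_mul, Function.iterate_mul]
  have h : (-DA)^[2] = DA^[2] := by
    funext w
    simp [Function.iterate_succ, AddMonoidHom.neg_apply]
  rw [h]

theorem RowB3_coeff (n : ℕ) : coeff n (aS DA M T) =
    ∑ p ∈ antidiagonal n, coeff p.1 ((1 + bi M (bS DA M T) (bS (-DA) M T))⁻¹) •
      (bs DA M T p.2 + bs (-DA) M T p.2) := by
  rw [aS, coeff_mul]
  refine sum_congr rfl fun p _ => ?_
  rw [coeff_io, map_add, Algebra.smul_def]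
  simp [bS]

/-- the leading terms of `a` -/
theorem aS_lead (hT : M T T = 1) (h2 : (2 : F) ≠ 0) (V : ℕ → Submodule F A) (hV : Monotone V)
    (h0 : T ∈ V 0) (h1 : ∀ n v, v ∈ V n → DA v ∈ V (n + 1)) (k : ℕ) (hk : Even (k + 1)) :
    coeff (k + 1) (aS DA M T) - DA^[k + 1] T ∈ V k := by
  have h1' : ∀ n v, v ∈ V n → (-DA) v ∈ V (n + 1) := fun n v hv => by
    rw [AddMonoidHom.neg_apply]; exact (V (n + 1)).neg_mem (h1 n v hv)
  have hb := fun n => bs_lead DA M T hT h2 V hV h0 h1 n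
  have hbb := fun n => bs_lead (-DA) M T hT h2 V hV h0 h1' n
  rw [RowB3_coeff, Nat.antidiagonal_succ, sum_cons]
  have hc : (coeff (0, k + 1).1 ((1 + bi M (bS DA M T) (bS (-DA) M T))⁻¹) : F) = 1 / 2 :=
    RowB3_coeff_inv DA M T hT
  rw [hc, add_sub_right_comm]
  refine (V k).add_mem ?_ ?_
  · have e1 := (hb (k + 1)).2 k rfl
    have e2 := (hbb (k + 1)).2 k rfl
    rw [hk.neg_one_pow, one_smul] at e1
    rw [hk.neg_one_pow, one_smul, RowB3_iter DA T (k + 1) hk] at e2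
    have e3 := (V k).smul_mem (1 / 2 : F) ((V k).add_mem e1 e2)
    have e4 : (1 / 2 : F) • ((bs DA M T (k + 1) - DA^[k + 1] T)
        + (bs (-DA) M T (k + 1) - DA^[k + 1] T))
        = (1 / 2 : F) • (bs DA M T (0, k + 1).2 + bs (-DA) M T (0, k + 1).2) - DA^[k + 1] T := by
      have e5 : (1 / 2 : F) • (DA^[k + 1] T + DA^[k + 1] T) = DA^[k + 1] T := by
        rw [← two_smul F (DA^[k + 1] T), smul_smul]
        rw [one_div, inv_mul_cancel₀ h2, one_smul]
      have e6 : (bs DA M T (k + 1) - DA^[k + 1] T) + (bs (-DA) M T (k + 1) - DA^[k + 1] T)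
          = (bs DA M T (k + 1) + bs (-DA) M T (k + 1)) - (DA^[k + 1] T + DA^[k + 1] T) := by
        abel
      rw [e6, smul_sub, e5]
    rw [e4] at e3
    exact e3
  · refine (V k).sum_mem fun p hp => ?_
    rw [mem_map] at hp
    obtain ⟨q, hq, rfl⟩ := hp
    refine (V k).smul_mem _ ?_
    have hq2 : q.2 ≤ k := by
      have := mem_antidiagonal.mp hq
      omega
    exact (V k).add_mem (hV hq2 (hb q.2).1) (hV hq2 (hbb q.2).1)

theorem aS_zero (hT : M T T = 1) (h2 : (2 : F) ≠ 0) : coeff 0 (aS DA M T) = T := by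
  rw [RowB3_coeff, Finset.HasAntidiagonal.antidiagonal_zero, sum_singleton]
  have hc := RowB3_coeff_inv DA M T hT
  have e1 : bs DA M T 0 = T := by simp [bs]
  have e2 : bs (-DA) M T 0 = T := by simp [bs]
  show (coeff 0 ((1 + bi M (bS DA M T) (bS (-DA) M T))⁻¹) : F) •
      (bs DA M T 0 + bs (-DA) M T 0) = T
  rw [hc, e1, e2, ← two_smul F T, smul_smul, one_div, inv_mul_cancel₀ h2, one_smul]

end Pool.Agent.Lib.MP_4d1bc1_mp.Kv.Hier
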