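import Pool.Agent.Lib.MP_4d1bc1_mp.Kv.Hier.RowT2

set_option autoImplicit false
set_option linter.unusedSimpArgs false
set_option linter.unusedSectionVars false

/-! Row hi-T3: the linearised equation. -/

namespace Pool.Agent.Lib.MP_4d1bc1_mp.Kv.Hier

open Finset PowerSeries

universe u

variable {F : Type u} [Field F] [Algebra ℝ F] {A : Type u} [CommRing A] [Algebra F A]

theorem RowT3_cw_neg {A' B' : Type u} [CommRing A'] [CommRing B'] (φ : A' →+ B') (f : A'⟦X⟧) :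
    cw (-φ) f = -cw φ f := by
  ext n; simp

theorem RowT3_cw_one (δ : Derivation ℝ F F) : cw (ad δ) (1 : F⟦X⟧) = 0 := by
  rw [← map_one (C : F →+* F⟦X⟧), cw_C]
  simp

theorem RowT3_C_smul (c : F) (v : A) : (C (c • v) : A⟦X⟧) = io A (C c) * C v := by
  rw [io_C, ← map_mul, Algebra.smul_def]

namespace Geo

variable (G : Geo F A)

theorem RowT3_pr_C (z w : A) : G.pr z (C w) = C (G.M z w) := bi_C_C _ _ _

theorem RowT3_nb : X * cw G.DA G.neg.b = -C G.T + io A (G.pr G.T G.neg.b) * G.neg.b := by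
  have h := G.neg.b_eq
  have e1 : cw G.neg.DA G.neg.b = -cw G.DA G.neg.b := RowT3_cw_neg _ _
  have e2 : G.neg.pr G.neg.T G.neg.b = G.pr G.T G.neg.b := rfl
  have e3 : G.neg.T = G.T := rfl
  rw [e1, e2, e3] at h
  linear_combination -h

theorem RowT3_nbt : X ^ 3 * cw G.tA G.neg.b
    = -(C G.T - io A (G.pr G.T G.neg.b) * G.neg.b)
      + X * (io A (G.pr (G.DA G.T) G.neg.b) * C G.T - io A (G.pr G.T G.neg.b) * C (G.DA G.T))
      - X ^ 2 * (C G.a2 - io A (G.pr G.a2 G.neg.b) * G.neg.b) := by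
  have h := G.neg.b_t
  have e1 : cw G.neg.tA G.neg.b = -cw G.tA G.neg.b := RowT3_cw_neg _ _
  have e2 : G.neg.pr G.neg.T G.neg.b = G.pr G.T G.neg.b := rfl
  have e3 : G.neg.T = G.T := rfl
  have e4 : G.neg.a2 = G.a2 := by
    have : G.neg.DA = -G.DA := rfl
    have hM : G.neg.M = G.M := rfl
    simp only [Geo.a2, this, hM, e3, AddMonoidHom.neg_apply, map_neg, LinearMap.neg_apply, neg_neg]
  have e5 : G.neg.pr G.a2 G.neg.b = G.pr G.a2 G.neg.b := rfl
  have e6 : G.neg.DA G.T = -G.DA G.T := rfl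
  have e7 : G.neg.pr (-G.DA G.T) G.neg.b = -G.pr (G.DA G.T) G.neg.b := by
    have : (C (-G.DA G.T) : A⟦X⟧) = -C (G.DA G.T) := map_neg _ _
    show bi G.M (C (-G.DA G.T)) G.neg.b = -bi G.M (C (G.DA G.T)) G.neg.b
    rw [this, bi_neg_left]
  rw [e1, e2, e3, e4, e5, e6, e7] at h
  rw [map_neg, map_neg] at h
  linear_combination -h

theorem RowT3_dpr (z : A) (f : A⟦X⟧) :
    cw (ad G.D) (G.pr z f) = G.pr (G.DA z) f + G.pr z (cw G.DA f) := by
  unfold Geo.pr
  rw [cw_bi G.M G.D G.DA G.D_M, cw_C]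

theorem RowT3_pr_X (z : A) (f : A⟦X⟧) : G.pr z (X * f) = X * G.pr z f := bi_X_right _ _ _

theorem RowT3_Xb (z : A) : X * G.pr z (cw G.DA G.b)
    = C (G.M z G.T) - G.pr G.T G.b * G.pr z G.b := by
  rw [← RowT3_pr_X, G.b_eq]
  unfold Geo.pr
  rw [bi_sub_right, bi_C_C, bi_io_right]

theorem RowT3_Xnb (z : A) : X * G.pr z (cw G.DA G.neg.b)
    = -C (G.M z G.T) + G.pr G.T G.neg.b * G.pr z G.neg.b := by
  rw [← RowT3_pr_X, RowT3_nb]
  unfold Geo.pr
  rw [bi_add_right, bi_neg_right, bi_C_C, bi_io_right]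

theorem RowT3_MTT1 : G.M G.T (G.DA G.T) = 0 := by
  have h := G.D_M G.T G.T
  rw [G.M_T, Derivation.map_one_eq_zero, G.M_symm (G.DA G.T) G.T] at h
  have h2 := G.char2
  have : (2 : F) * G.M G.T (G.DA G.T) = 0 := by rw [two_mul]; exact h.symm
  exact (mul_eq_zero.1 this).resolve_left h2

theorem RowT3_s : X * cw (ad G.D) (G.pr G.T G.b)
    = X * G.pr (G.DA G.T) G.b + 1 - G.pr G.T G.b ^ 2 := by
  have h := RowT3_Xb G G.T
  rw [G.M_T, map_one] at h
  rw [RowT3_dpr]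
  linear_combination h

theorem RowT3_sb : X * cw (ad G.D) (G.pr G.T G.neg.b)
    = X * G.pr (G.DA G.T) G.neg.b - 1 + G.pr G.T G.neg.b ^ 2 := by
  have h := RowT3_Xnb G G.T
  rw [G.M_T, map_one] at h
  rw [RowT3_dpr]
  linear_combination h

theorem RowT3_s1 : X * cw (ad G.D) (G.pr (G.DA G.T) G.b)
    = X * G.pr (G.DA (G.DA G.T)) G.b - G.pr G.T G.b * G.pr (G.DA G.T) G.b := by
  have h := RowT3_Xb G (G.DA G.T)
  rw [G.M_symm, RowT3_MTT1, map_zero] at h
  rw [RowT3_dpr]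
  linear_combination h

theorem RowT3_sb1 : X * cw (ad G.D) (G.pr (G.DA G.T) G.neg.b)
    = X * G.pr (G.DA (G.DA G.T)) G.neg.b + G.pr G.T G.neg.b * G.pr (G.DA G.T) G.neg.b := by
  have h := RowT3_Xnb G (G.DA G.T)
  rw [G.M_symm, RowT3_MTT1, map_zero] at h
  rw [RowT3_dpr]
  linear_combination h

theorem RowT3_biT (f : A⟦X⟧) (z : A) : bi G.M f (C z) = G.pr z f := bi_symm _ G.M_symm _ _

theorem RowT3_P : X * cw (ad G.D) (1 + bi G.M G.b G.neg.b)
    = (G.pr G.T G.neg.b - G.pr G.T G.b) * (1 + bi G.M G.b G.neg.b) := by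
  have h1 : X * bi G.M (cw G.DA G.b) G.neg.b
      = G.pr G.T G.neg.b - G.pr G.T G.b * bi G.M G.b G.neg.b := by
    rw [← bi_X_left, G.b_eq, bi_sub_left, bi_io_left]
    rfl
  have h2 : X * bi G.M G.b (cw G.DA G.neg.b)
      = -G.pr G.T G.b + G.pr G.T G.neg.b * bi G.M G.b G.neg.b := by
    rw [← bi_X_right, RowT3_nb, bi_add_right, bi_neg_right, bi_io_right, RowT3_biT]
  rw [map_add, RowT3_cw_one, cw_bi G.M G.D G.DA G.D_M]
  linear_combination h1 + h2

theorem RowT3_X3_left (f g : A⟦X⟧) : bi G.M (X ^ 3 * f) g = X ^ 3 * bi G.M f g := by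
  have e : X ^ 3 * f = X * (X * (X * f)) := by ring
  rw [e, bi_X_left, bi_X_left, bi_X_left]
  ring

theorem RowT3_X3_right (f g : A⟦X⟧) : bi G.M f (X ^ 3 * g) = X ^ 3 * bi G.M f g := by
  have e : X ^ 3 * g = X * (X * (X * g)) := by ring
  rw [e, bi_X_right, bi_X_right, bi_X_right]
  ring

theorem RowT3_X2_left (f g : A⟦X⟧) : bi G.M (X ^ 2 * f) g = X ^ 2 * bi G.M f g := by
  have e : X ^ 2 * f = X * (X * f) := by ring
  rw [e, bi_X_left, bi_X_left]
  ring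

theorem RowT3_X2_right (f g : A⟦X⟧) : bi G.M f (X ^ 2 * g) = X ^ 2 * bi G.M f g := by
  have e : X ^ 2 * g = X * (X * g) := by ring
  rw [e, bi_X_right, bi_X_right]
  ring

theorem RowT3_Pt : X ^ 3 * cw (ad G.t) (1 + bi G.M G.b G.neg.b)
    = (G.pr G.T G.neg.b - G.pr G.T G.b) * (1 + bi G.M G.b G.neg.b)
      + X ^ 2 * ((G.pr G.a2 G.neg.b - G.pr G.a2 G.b) * (1 + bi G.M G.b G.neg.b)) := by
  have h1 : X ^ 3 * bi G.M (cw G.tA G.b) G.neg.b
      = (G.pr G.T G.neg.b - G.pr G.T G.b * bi G.M G.b G.neg.b)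
        + X * (G.pr (G.DA G.T) G.b * G.pr G.T G.neg.b - G.pr G.T G.b * G.pr (G.DA G.T) G.neg.b)
        + X ^ 2 * (G.pr G.a2 G.neg.b - G.pr G.a2 G.b * bi G.M G.b G.neg.b) := by
    rw [← RowT3_X3_left, G.b_t]
    simp only [bi_add_left, bi_sub_left, bi_X_left, RowT3_X2_left, bi_io_left]
    rfl
  have h2 : X ^ 3 * bi G.M G.b (cw G.tA G.neg.b)
      = -(G.pr G.T G.b - G.pr G.T G.neg.b * bi G.M G.b G.neg.b)
        + X * (G.pr (G.DA G.T) G.neg.b * G.pr G.T G.b - G.pr G.T G.neg.b * G.pr (G.DA G.T) G.b)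
        - X ^ 2 * (G.pr G.a2 G.b - G.pr G.a2 G.neg.b * bi G.M G.b G.neg.b) := by
    rw [← RowT3_X3_right, RowT3_nbt]
    simp only [bi_add_right, bi_sub_right, bi_neg_right, bi_X_right, RowT3_X2_right, bi_io_right,
      RowT3_biT]
  rw [map_add, RowT3_cw_one, cw_bi G.M G.t G.tA G.t_M]
  linear_combination h1 + h2

/-- the second derivative -/
theorem RowT3_axx : X ^ 2 * (io A (1 + bi G.M G.b G.neg.b) * cw G.DA (cw G.DA G.a))
    = X * (io A (G.pr (G.DA G.T) G.b) * G.neg.b - io A (G.pr (G.DA G.T) G.neg.b) * G.b)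
      + (G.b + G.neg.b) - (io A (G.pr G.T G.b) * C G.T + io A (G.pr G.T G.neg.b) * C G.T) := by
  have h1 := congrArg (io A) (RowT3_P G)
  have h2 := congrArg (io A) (RowT3_s G)
  have h3 := congrArg (io A) (RowT3_sb G)
  simp only [map_mul, map_sub, map_add, map_one, map_pow, io_X] at h1 h2 h3
  have hb := G.b_eq
  have hB := RowT3_nb G
  have hx := G.a_x
  have hxx := congrArg (cw G.DA) hx
  rw [cw_X_mul, cw_mul G.D G.DA G.DA_smul, map_sub, cw_mul G.D G.DA G.DA_smul,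
    cw_mul G.D G.DA G.DA_smul] at hxx
  simp only [map_add, map_one] at hx hxx ⊢
  linear_combination X * hxx - X * cw G.DA G.a * h1
    - (io A (G.pr G.T G.neg.b) - io A (G.pr G.T G.b)) * hx + G.neg.b * h2
    + io A (G.pr G.T G.b) * hB - G.b * h3 - io A (G.pr G.T G.neg.b) * hb

/-- the third derivative -/
theorem RowT3_axxx : X ^ 3 * (io A (1 + bi G.M G.b G.neg.b) * cw G.DA (cw G.DA (cw G.DA G.a)))
    = X ^ 2 * (io A (G.pr (G.DA (G.DA G.T)) G.b) * G.neg.b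
        - io A (G.pr (G.DA (G.DA G.T)) G.neg.b) * G.b)
      - 2 * X * ((io A (G.pr (G.DA G.T) G.b) + io A (G.pr (G.DA G.T) G.neg.b)) * C G.T)
      - X * ((io A (G.pr G.T G.b) + io A (G.pr G.T G.neg.b)) * C (G.DA G.T))
      + (io A (G.pr G.T G.b) * G.neg.b - io A (G.pr G.T G.neg.b) * G.b) := by
  have h1 := congrArg (io A) (RowT3_P G)
  have h2 := congrArg (io A) (RowT3_s G)
  have h3 := congrArg (io A) (RowT3_sb G)
  have h4 := congrArg (io A) (RowT3_s1 G)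
  have h5 := congrArg (io A) (RowT3_sb1 G)
  simp only [map_mul, map_sub, map_add, map_one, map_pow, io_X] at h1 h2 h3 h4 h5
  have hb := G.b_eq
  have hB := RowT3_nb G
  have ha := RowT3_axx G
  have hxx := congrArg (cw G.DA) ha
  rw [cw_X_pow_mul, cw_mul G.D G.DA G.DA_smul] at hxx
  simp only [cw_X_mul, cw_mul G.D G.DA G.DA_smul, map_sub, map_add, map_one,
    cw_C] at hxx
  simp only [map_add, map_one] at ha ⊢
  linear_combination X * hxx - X ^ 2 * cw G.DA (cw G.DA G.a) * h1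
    - (io A (G.pr G.T G.neg.b) - io A (G.pr G.T G.b)) * ha + X * G.neg.b * h4
    + X * io A (G.pr (G.DA G.T) G.b) * hB - X * G.b * h5
    - X * io A (G.pr (G.DA G.T) G.neg.b) * hb + hb + hB - C G.T * h2 - C G.T * h3

/-- the time derivative -/
theorem RowT3_at : X ^ 3 * (io A (1 + bi G.M G.b G.neg.b) * cw G.tA G.a)
    = (io A (G.pr G.T G.b) * G.neg.b - io A (G.pr G.T G.neg.b) * G.b)
      + X * ((io A (G.pr (G.DA G.T) G.b) + io A (G.pr (G.DA G.T) G.neg.b)) * C G.T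
        - (io A (G.pr G.T G.b) + io A (G.pr G.T G.neg.b)) * C (G.DA G.T))
      + X ^ 2 * (io A (G.pr G.a2 G.b) * G.neg.b - io A (G.pr G.a2 G.neg.b) * G.b) := by
  have ha := G.a_eq
  have hat := congrArg (cw G.tA) ha
  rw [cw_mul G.t G.tA G.tA_smul, map_add] at hat
  have h4 := congrArg (io A) (RowT3_Pt G)
  simp only [map_mul, map_sub, map_add, map_one, map_pow, io_X] at h4
  have h5 := G.b_t
  have h6 := RowT3_nbt G
  simp only [map_add, map_one] at ha hat ⊢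
  linear_combination X ^ 3 * hat - G.a * h4
    - ((io A (G.pr G.T G.neg.b) - io A (G.pr G.T G.b))
      + X ^ 2 * (io A (G.pr G.a2 G.neg.b) - io A (G.pr G.a2 G.b))) * ha + h5 + h6

theorem RowT3_a2 (f : A⟦X⟧) : G.pr G.a2 f = G.pr (G.DA (G.DA G.T)) f
    + C (3 / 2 * G.M (G.DA G.T) (G.DA G.T)) * G.pr G.T f := by
  unfold Geo.pr Geo.a2
  rw [map_add, RowT3_C_smul, bi_add_left, bi_io_left]

theorem RowT3_T1axx : X ^ 2 * ((1 + bi G.M G.b G.neg.b) * G.pr (G.DA G.T)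
    (cw G.DA (cw G.DA G.a))) = G.pr (G.DA G.T) G.b + G.pr (G.DA G.T) G.neg.b := by
  have h := congrArg (G.pr (G.DA G.T)) (RowT3_axx G)
  have h0 : G.M (G.DA G.T) G.T = 0 := by rw [G.M_symm, RowT3_MTT1]
  unfold Geo.pr at h ⊢
  rw [RowT3_X2_right, bi_io_right] at h
  rw [h]
  simp only [bi_add_right, bi_sub_right, bi_X_right, bi_io_right, bi_C_C, h0, map_zero]
  ring

theorem RowT3_unit : IsUnit (io A (1 + bi G.M G.b G.neg.b)) := by
  apply IsUnit.map
  rw [PowerSeries.isUnit_iff_constantCoeff]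
  have h : constantCoeff (1 + bi G.M G.b G.neg.b) = (2 : F) := by
    rw [← coeff_zero_eq_constantCoeff_apply, map_add, coeff_bi]
    have hb : coeff 0 G.b = G.T := bS_zero _ _ _
    have hB : coeff 0 G.neg.b = G.T := bS_zero _ _ _
    simp only [Finset.Nat.antidiagonal_zero, sum_singleton, hb, hB, G.M_T]
    simp
    norm_num
  rw [h]
  exact isUnit_iff_ne_zero.2 G.char2

/-- the linearised equation -/
theorem a_lin : cw G.tA G.a = cw G.DA (cw G.DA (cw G.DA G.a))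
    + io A (C (3 / 2 * G.M (G.DA G.T) (G.DA G.T))) * cw G.DA G.a
    + io A (C 3 * G.pr (G.DA G.T) (cw G.DA (cw G.DA G.a))) * C G.T := by
  apply (RowT3_unit G).mul_left_cancel
  apply X_pow_mul_cancel (k := 3)
  have h1 := RowT3_at G
  have h2 := RowT3_axxx G
  have h3 := congrArg (io A) (RowT3_T1axx G)
  have h4 := congrArg (io A) (RowT3_a2 G G.b)
  have h5 := congrArg (io A) (RowT3_a2 G G.neg.b)
  have h6 := G.a_x
  simp only [map_mul, map_add, map_one, map_pow, io_X, map_ofNat] at h1 h2 h3 h4 h5 h6 ⊢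
  rw [h4, h5] at h1
  linear_combination h1 - h2
    - X ^ 2 * (io A (C (3 / 2 : F)) * io A (C (G.M (G.DA G.T) (G.DA G.T)))) * h6
    - 3 * X * C G.T * h3

theorem a_lin' (n : ℕ) : G.tA (coeff n G.a) = G.DA (G.DA (G.DA (coeff n G.a)))
    + (3 / 2 * G.M (G.DA G.T) (G.DA G.T)) • G.DA (coeff n G.a)
    + (3 * G.M (G.DA G.T) (G.DA (G.DA (coeff n G.a)))) • G.T := by
  have h := congrArg (coeff n) (G.a_lin)
  rw [map_add, map_add, io_C, coeff_C_mul, coeff_mul_C, coeff_io, coeff_C_mul] at h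
  simp only [coeff_cw] at h
  rw [h, Algebra.smul_def, Algebra.smul_def]
  unfold Geo.pr
  rw [bi_C_left, coeff_cw, coeff_cw, coeff_cw]
  rfl

end Geo

end Pool.Agent.Lib.MP_4d1bc1_mp.Kv.Hier
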