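import Pool.Agent.Lib.MP_4d1bc1_mp.Kv.Hier.RowA1
import Pool.Agent.Lib.MP_4d1bc1_mp.Kv.Hier.RowT3
import Pool.Agent.Lib.MP_4d1bc1_mp.Kv.Hier.RowB3

set_option autoImplicit false
set_option linter.unusedSimpArgs false
set_option linter.unusedSectionVars false

/-! Row hi-A2: symmetries of the family (A). -/

namespace Pool.Agent.Lib.MP_4d1bc1_mp.Kv.Hier

open Finset Polynomial

universe u

variable {F : Type u} [Field F] [Algebra ℝ F] {J : Jet F} {c : F}

theorem RowA2_DM_one : J.DM 1 = X := by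
  have := J.DM_X_pow 0
  rwa [pow_zero, zero_add, pow_one] at this

theorem RowA2_DM_X : J.DM X = X ^ 2 := by
  have := J.DM_X_pow 1
  rwa [pow_one] at this

theorem RowA2_DM_C (s : F) : J.DM (C s) = C (J.D s) + C s * X := by
  have := J.DM_C_mul s 1
  rwa [mul_one, mul_one, RowA2_DM_one] at this

theorem RowA2_DM_CX (s : F) : J.DM (C s * X) = C (J.D s) * X + C s * X ^ 2 := by
  rw [J.DM_C_mul, RowA2_DM_X]

theorem RowA2_ip (i j : ℕ) : J.ip (X ^ i) (X ^ j) = J.u i j := J.ip_X_pow i j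

theorem RowA2_ip_one_one : J.ip 1 1 = J.u 0 0 := by
  have := J.ip_X_pow 0 0
  rwa [pow_zero] at this

theorem RowA2_ip_one_X : J.ip 1 X = J.u 0 1 := by
  have := J.ip_X_pow 0 1
  rwa [pow_zero, pow_one] at this

theorem RowA2_ip_one_C (s : F) : J.ip 1 (C s) = s * J.u 0 0 := by
  have := J.ip_C_mul_right s 1 1
  rwa [mul_one, RowA2_ip_one_one] at this

theorem RowA2_DA_T : DA J c (0, 1) = (1, 0) := by
  ext1
  · change J.DM 0 + C 1 = 1
    rw [map_zero, zero_add, C_1]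
  · change J.D 1 - c * J.ip 1 0 = 0
    rw [Derivation.map_one_eq_zero, J.ip_zero_right]; ring

theorem RowA2_DA_DA_T : DA J c (1, 0) = (X, -(c * J.u 0 0)) := by
  ext1
  · change J.DM 1 + C 0 = X
    rw [RowA2_DM_one, C_0, add_zero]
  · change J.D 0 - c * J.ip 1 1 = -(c * J.u 0 0)
    rw [map_zero, RowA2_ip_one_one]; ring

theorem RowA2_M_DA_T : MA J c (DA J c (0, 1)) (DA J c (0, 1)) = c * J.u 0 0 := by
  rw [RowA2_DA_T, MA_apply]
  change c * J.ip 1 1 + 0 * 0 = c * J.u 0 0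
  rw [RowA2_ip_one_one]; ring

/-- the structure of the family (A) -/
noncomputable def geoA (hc : J.IsC c) : Geo F (F[X] × F) where
  D := J.D
  t := J.evo (Jet.K3 (fA J c))
  D_t f := (J.evo_D _ f).symm
  DA := DA J c
  tA := tA J c
  DA_smul k v := by
    ext1
    · change J.DM (k • v.1) + C (k * v.2) = J.D k • v.1 + k • (J.DM v.1 + C v.2)
      simp only [smul_eq_C_mul, J.DM_C_mul, C_mul]; ring
    · change J.D (k * v.2) - c * J.ip 1 (k • v.1)
        = J.D k * v.2 + k * (J.D v.2 - c * J.ip 1 v.1)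
      rw [smul_eq_C_mul, J.ip_C_mul_right, der_mul]; ring
  tA_smul k v := by
    ext1
    · change J.evoV (Jet.K3 (fA J c)) (k • v.1) + C (c * J.ip X (k • v.1))
          - C (c * J.ip 1 (k • v.1)) * X + C (k * v.2) * eta J c
        = J.evo (Jet.K3 (fA J c)) k • v.1 + k • (J.evoV (Jet.K3 (fA J c)) v.1
          + C (c * J.ip X v.1) - C (c * J.ip 1 v.1) * X + C v.2 * eta J c)
      simp only [smul_eq_C_mul, J.evoV_C_mul, J.ip_C_mul_right, C_mul]; ring
    · change J.evo (Jet.K3 (fA J c)) (k * v.2) - c * J.ip (eta J c) (k • v.1)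
        = J.evo (Jet.K3 (fA J c)) k * v.2
          + k * (J.evo (Jet.K3 (fA J c)) v.2 - c * J.ip (eta J c) v.1)
      rw [smul_eq_C_mul, J.ip_C_mul_right, der_mul]; ring
  DA_tA := DA_tA hc
  M := MA J c
  M_symm v w := by rw [MA_apply, MA_apply, J.ip_symm]; ring
  D_M := D_MA hc
  t_M := t_MA hc
  T := (0, 1)
  M_T := by rw [MA_apply]; simp
  t_T := by
    rw [RowA2_M_DA_T, RowA2_DA_T, RowA2_DA_DA_T]
    ext1
    · change J.evoV (Jet.K3 (fA J c)) 0 + C (c * J.ip X 0) - C (c * J.ip 1 0) * X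
          + C 1 * eta J c
        = J.DM (X + (3 / 2 * (c * J.u 0 0)) • (0 : F[X]))
          + C (-(c * J.u 0 0) + 3 / 2 * (c * J.u 0 0) * 1)
      rw [map_zero, J.ip_zero_right, J.ip_zero_right, smul_zero, add_zero, RowA2_DM_X, eta,
        mul_zero, C_0, C_1]
      have h : -(c * J.u 0 0) + 3 / 2 * (c * J.u 0 0) * 1 = c / 2 * J.u 0 0 := by
        have := J.charZero
        ring
      rw [h]; ring
    · change J.evo (Jet.K3 (fA J c)) 1 - c * J.ip (eta J c) 0
        = J.D (-(c * J.u 0 0) + 3 / 2 * (c * J.u 0 0) * 1)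
          - c * J.ip 1 (X + (3 / 2 * (c * J.u 0 0)) • (0 : F[X]))
      rw [Derivation.map_one_eq_zero, J.ip_zero_right, smul_zero, add_zero, RowA2_ip_one_X]
      have h : -(c * J.u 0 0) + 3 / 2 * (c * J.u 0 0) * 1 = c * J.u 0 0 * (1 / 2) := by
        have := J.charZero
        ring
      have h3 : J.D (1 / 2 : F) = 0 := der_div_zero _ (Derivation.map_one_eq_zero _) (der_ofNat _ _)
      rw [h, der_mul, der_mul, h3, hc.D, J.D_u, J.u_symm 1 0]
      have := J.charZero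
      ring

/-- first components of degree less than `n` -/
noncomputable def RowA2_V (F : Type u) [Field F] (n : ℕ) : Submodule F (F[X] × F) :=
  (degreeLT F n).comap (LinearMap.fst F F[X] F)

theorem RowA2_mem_V {n : ℕ} {v : F[X] × F} : v ∈ RowA2_V F n ↔ v.1 ∈ degreeLT F n := Iff.rfl

theorem RowA2_DM_mem {n : ℕ} {W : F[X]} (h : W ∈ degreeLT F n) : J.DM W ∈ degreeLT F (n + 1) := by
  rw [mem_degreeLT, degree_lt_iff_coeff_zero] at h ⊢
  intro m hm
  cases m with
  | zero => omega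
  | succ m =>
    rw [J.coeff_DM_succ, h m (by omega), h (m + 1) (by omega), map_zero, add_zero]

theorem RowA2_C_mem (n : ℕ) (s : F) : C s ∈ degreeLT F (n + 1) := by
  rw [mem_degreeLT]
  refine lt_of_le_of_lt degree_C_le ?_
  exact_mod_cast Nat.succ_pos n

theorem RowA2_DA_mem (n : ℕ) (v : F[X] × F) (h : v ∈ RowA2_V F n) : DA J c v ∈ RowA2_V F (n + 1) := by
  rw [RowA2_mem_V] at h ⊢
  exact Submodule.add_mem _ (RowA2_DM_mem h) (RowA2_C_mem n v.2)

theorem RowA2_lead (j : ℕ) : ((DA J c)^[j + 1] (0, 1)).1 - X ^ j ∈ degreeLT F j := by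
  induction j with
  | zero =>
    have h : ((DA J c)^[0 + 1] (0, 1)).1 - X ^ 0 = 0 := by
      rw [zero_add, Function.iterate_one, RowA2_DA_T, pow_zero, sub_self]
    rw [h]
    exact Submodule.zero_mem _
  | succ j ih =>
    rw [Function.iterate_succ_apply']
    set v := (DA J c)^[j + 1] (0, 1) with hv
    have h : (DA J c v).1 - X ^ (j + 1) = J.DM (v.1 - X ^ j) + C v.2 := by
      change J.DM v.1 + C v.2 - X ^ (j + 1) = _
      rw [map_sub, J.DM_X_pow]; ring
    rw [h]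
    exact Submodule.add_mem _ (RowA2_DM_mem ih) (RowA2_C_mem j v.2)

/-- the symmetry condition for the first component -/
theorem RowA2_sym (hc : J.IsC c) (Y : F[X]) (s : F) (h1 : J.D s = c * J.ip 1 Y)
    (h2 : tA J c (Y, s) = DA J c (DA J c (DA J c (Y, s)))
      + (3 / 2 * MA J c (DA J c (0, 1)) (DA J c (0, 1))) • DA J c (Y, s)
      + (3 * MA J c (DA J c (0, 1)) (DA J c (DA J c (Y, s)))) • ((0, 1) : F[X] × F)) :
    J.evoV (Jet.K3 (fA J c)) Y = J.evoV Y (Jet.K3 (fA J c)) := by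
  have hch := J.charZero
  rw [RowA2_M_DA_T] at h2
  have h3 : DA J c (Y, s) = (J.DM Y + C s, 0) := by
    ext1
    · rfl
    · change J.D s - c * J.ip 1 Y = 0
      rw [h1, sub_self]
  rw [h3] at h2
  have h4 := congrArg Prod.fst h2
  have h5 : J.evoV (Jet.K3 (fA J c)) Y + C (c * J.ip X Y) - C (c * J.ip 1 Y) * X
      + C s * eta J c = (J.DM (J.DM (J.DM Y + C s) + C 0)
        + C (J.D 0 - c * J.ip 1 (J.DM Y + C s)))
        + (3 / 2 * (c * J.u 0 0)) • (J.DM Y + C s) + (3 * MA J c (DA J c (0, 1))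
          (DA J c (J.DM Y + C s, 0))) • (0 : F[X]) := h4
  have h6 : J.D (J.D s) = c * (J.ip X Y + J.ip 1 (J.DM Y)) := by
    rw [h1, der_mul, hc.D, J.D_ip, RowA2_DM_one]; ring
  rw [smul_zero, add_zero, C_0, add_zero, map_zero, zero_sub, map_add, map_add, RowA2_DM_C,
    map_add, RowA2_DM_C, RowA2_DM_CX, J.ip_add_right, RowA2_ip_one_C, smul_eq_C_mul, h6,
    eta] at h5
  have h7 : J.evoV Y (Jet.K3 (fA J c)) = J.DM (J.DM (J.DM Y))
      + (C (3 * (c * J.ip 1 Y)) * X + C (fA J c) * J.DM Y) := by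
    have e1 : J.evoV Y (X ^ 3) = J.DM (J.DM (J.DM Y)) := by
      rw [J.evoV_X_pow]; rfl
    have e2 : J.evoV Y X = J.DM Y := by
      have := J.evoV_X_pow Y 1
      rwa [pow_one] at this
    have e3 : J.evo Y (fA J c) = 3 * (c * J.ip 1 Y) := by
      have e4 : J.evo Y (J.u 0 0) = 2 * J.ip 1 Y := by
        have := J.evo_u Y 0 0
        simp only [Function.iterate_zero, id, pow_zero] at this
        rw [this, J.ip_symm Y 1]; ring
      have e5 : J.evo Y (3 / 2 : F) = 0 := der_div_zero _ (der_ofNat _ _) (der_ofNat _ _)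
      rw [fA, der_mul, der_mul, hc.evo, e4, e5]; ring
    rw [Jet.K3, map_add, e1, J.evoV_C_mul, e2, e3]
  rw [h7]
  have h8 : J.evoV (Jet.K3 (fA J c)) Y
      = (J.DM (J.DM (J.DM Y)) + (C (c * (J.ip X Y + J.ip 1 (J.DM Y))) + C (J.D s) * X
        + (C (J.D s) * X + C s * X ^ 2))
        + C (-(c * (J.ip 1 (J.DM Y) + s * J.u 0 0)))
        + C (3 / 2 * (c * J.u 0 0)) * (J.DM Y + C s))
        - C (c * J.ip X Y) + C (c * J.ip 1 Y) * X
        - C s * (X ^ 2 + C (c / 2 * J.u 0 0)) := by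
    rw [← h5]; ring
  rw [h8, h1, fA]
  have h9 : C (3 / 2 * (c * J.u 0 0)) = C (3 / 2 * c * J.u 0 0) := by rw [mul_assoc]
  rw [h9]
  have h10 : C (c * (J.ip X Y + J.ip 1 (J.DM Y))) + C (-(c * (J.ip 1 (J.DM Y) + s * J.u 0 0)))
      + C (3 / 2 * c * J.u 0 0) * C s - C (c * J.ip X Y) - C s * C (c / 2 * J.u 0 0) = 0 := by
    rw [← C_mul, ← C_mul, ← C_add, ← C_add, ← C_sub, ← C_sub, ← C_0]
    congr 1
    ring
  have h11 : C (3 * (c * J.ip 1 Y)) = 3 * C (c * J.ip 1 Y) := by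
    rw [C_mul]; rfl
  rw [h11]
  linear_combination h10

/-- symmetries of the family (A) -/
theorem sym_A (hc : J.IsC c) {m : ℕ} (hm : Odd m) : ∃ Q : F[X], Q.natDegree = m
    ∧ J.evoV (Jet.K3 (fA J c)) Q = J.evoV Q (Jet.K3 (fA J c)) := by
  obtain ⟨v, hv⟩ : ∃ v : F[X] × F, v = PowerSeries.coeff (m + 1) (geoA hc).a := ⟨_, rfl⟩
  have hev : Even (m + 1) := hm.add_one
  have h1 := aS_lead (DA J c) (MA J c) (0, 1) (geoA hc).M_T (geoA hc).char2 (RowA2_V F)
    (fun i j hij v hv => degreeLT_mono hij hv)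
    (by rw [RowA2_mem_V]; exact Submodule.zero_mem _) (fun n v h => RowA2_DA_mem n v h) m hev
  have h2 : (v - (DA J c)^[m + 1] (0, 1)) ∈ RowA2_V F m := by
    rw [hv]; exact h1
  have h3 : v.1 - X ^ m ∈ degreeLT F m := by
    have h4 := Submodule.add_mem _ (RowA2_mem_V.1 h2) (RowA2_lead (J := J) (c := c) m)
    have h5 : (v - (DA J c)^[m + 1] (0, 1)).1 + (((DA J c)^[m + 1] (0, 1)).1 - X ^ m)
        = v.1 - X ^ m := by
      rw [Prod.fst_sub]; ring
    rwa [h5] at h4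
  refine ⟨v.1, ?_, ?_⟩
  · rw [mem_degreeLT] at h3
    have h4 : v.1 = X ^ m + (v.1 - X ^ m) := by ring
    rw [h4]
    have h5 : (X ^ m : F[X]).degree = m := degree_X_pow m
    have h6 : (X ^ m + (v.1 - X ^ m)).degree = (m : WithBot ℕ) := by
      rw [degree_add_eq_left_of_degree_lt (by rw [h5]; exact h3), h5]
    exact natDegree_eq_of_degree_eq_some h6
  · refine RowA2_sym hc v.1 v.2 ?_ ?_
    · have h4 := (geoA hc).a_orth (m + 1)
      rw [← hv] at h4
      have h5 : c * J.ip 0 (J.DM v.1 + C v.2) + 1 * (J.D v.2 - c * J.ip 1 v.1) = 0 := h4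
      rw [J.ip_zero_left] at h5
      linear_combination h5
    · have h4 := (geoA hc).a_lin' (m + 1)
      rw [← hv] at h4
      exact h4

end Pool.Agent.Lib.MP_4d1bc1_mp.Kv.Hier
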