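import Pool.Agent.Lib.MP_4d1bc1_mp.Kv.Hier.RowC3

set_option autoImplicit false
set_option linter.unusedSimpArgs false
set_option linter.unusedSectionVars false

/-! Row hi-C7: the equation is a tangent flow. -/

namespace Pool.Agent.Lib.MP_4d1bc1_mp.Kv.Hier

open Finset Polynomial

universe u

variable {F : Type u} [Field F] [Algebra ℝ F] {J : Jet F} {a w κ : F} {G : F[X]}

/-- the equation itself -/
theorem tan_K3 (R : Red J a κ w) : Tan J a w (X ^ 2 + C (rf J a w)) := by
  have := J.charZero
  have dm0 : J.DM (1 : F[X]) = X := by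
    have h := J.DM_X_pow 0
    rw [pow_zero, zero_add, pow_one] at h
    exact h
  have dm1 : J.DM (X : F[X]) = X ^ 2 := by
    have h := J.DM_X_pow 1
    rw [pow_one] at h
    exact h
  have dm2 : J.DM (X ^ 2 : F[X]) = X ^ 3 := J.DM_X_pow 2
  have h00 := MB_one_one R
  have hf : rf J a w = 3 / 2 * MB J a w X X := by
    rw [MB_X_X R, rf]
    ring
  have h01 : MB J a w 1 X = 0 := by
    have h := D_MB R 1 1
    rw [h00, Derivation.map_one_eq_zero, dm0, MB_symm J a w X 1] at h
    have h2 : 2 * MB J a w 1 X = 0 := by linear_combination -h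
    exact (mul_eq_zero.1 h2).resolve_left two_ne_zero
  have h02 : MB J a w 1 (X ^ 2) = -MB J a w X X := by
    have h := D_MB R 1 X
    rw [h01, map_zero, dm0, dm1] at h
    linear_combination -h
  have h12 : 2 * MB J a w X (X ^ 2) = J.D (MB J a w X X) := by
    have h := D_MB R X X
    rw [dm1, MB_symm J a w (X ^ 2) X] at h
    linear_combination -h
  have h03 : MB J a w 1 (X ^ 3) = -(3 / 2) * J.D (MB J a w X X) := by
    have h := D_MB R 1 (X ^ 2)
    rw [h02, map_neg, dm0, dm2] at h
    linear_combination -h - 1 / 2 * h12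
  have hDf : J.D (rf J a w) = 3 / 2 * J.D (MB J a w X X) := by
    rw [hf]
    exact der_const_mul _ (der_div_zero _ (dnum _ 3) (dnum _ 2)) _
  have y0 := yB_one R
  have y1 : yB J a w X = -1 := by
    have h := D_yB R 1
    rw [y0, map_zero, h00, dm0] at h
    linear_combination -h
  have y2 : yB J a w (X ^ 2) = 0 := by
    have h := D_yB R X
    rw [y1, map_neg, Derivation.map_one_eq_zero, h01, dm1] at h
    linear_combination -h
  have hC : ∀ c : F, (C c : F[X]) = c • (1 : F[X]) := fun c => by
    rw [smul_eq_C_mul, mul_one]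
  constructor
  · have e : J.DM (X ^ 2 + C (rf J a w)) = X ^ 3 + (J.D (rf J a w) • (1 : F[X])
        + rf J a w • (X : F[X])) := by
      rw [map_add, dm2]
      congr 1
      have h := J.DM_C_mul (rf J a w) 1
      rw [mul_one, mul_one, dm0] at h
      rw [h, smul_eq_C_mul, smul_eq_C_mul, mul_one]
    rw [e, map_add, map_add, map_smul, map_smul, h03, h00, h01, hDf]
    simp only [smul_eq_mul]
    ring
  · rw [hC, map_add, map_smul, y2, y0]
    simp

end Pool.Agent.Lib.MP_4d1bc1_mp.Kv.Hier
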