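import Pool.Agent.Lib.MP_4d1bc1_mp.Kv.Hier.RowC6
import Pool.Agent.Lib.MP_4d1bc1_mp.Kv.Hier.RowC7
import Pool.Agent.Lib.MP_4d1bc1_mp.Kv.Hier.RowT3
import Pool.Agent.Lib.MP_4d1bc1_mp.Kv.Hier.RowB3

set_option autoImplicit false
set_option linter.unusedSimpArgs false
set_option linter.unusedSectionVars false

/-! Row hi-C8: symmetries of the families (B), (C). -/

namespace Pool.Agent.Lib.MP_4d1bc1_mp.Kv.Hier

open Finset Polynomial

universe u

variable {F : Type u} [Field F] [Algebra ℝ F] {J : Jet F} {a w κ : F} {G : F[X]}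

private theorem C8_one (J : Jet F) : J.DM 1 = X := by
  have := J.DM_X_pow 0
  rw [pow_zero, zero_add, pow_one] at this
  exact this

private theorem C8_X (J : Jet F) : J.DM X = X ^ 2 := by
  have := J.DM_X_pow 1
  rw [pow_one] at this
  exact this

private theorem C8_iter (J : Jet F) (n : ℕ) : J.DM^[n] 1 = X ^ n := by
  induction n with
  | zero => simp
  | succ n ih => rw [Function.iterate_succ_apply', ih, J.DM_X_pow]

private theorem C8_f (R : Red J a κ w) : 3 / 2 * MB J a w X X = rf J a w := by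
  rw [MB_X_X R, rf]; ring

private theorem C8_t (R : Red J a κ w) : tB J (X ^ 2 + C (rf J a w)) 1
    = J.DM (J.DM (J.DM 1) + (3 / 2 * MB J a w (J.DM 1) (J.DM 1)) • (1 : F[X])) := by
  have h := tB_X_pow J (X ^ 2 + C (rf J a w)) 0
  rw [pow_zero, Function.iterate_zero, id_eq] at h
  rw [h, C8_one, C8_X, C8_f R, smul_eq_C_mul, mul_one]

/-- the structure of the families (B), (C) -/
noncomputable def geoB (R : Red J a κ w) : Geo F F[X] where
  D := J.D
  t := J.evo (X * (X ^ 2 + C (rf J a w)))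
  D_t f := (J.evo_D _ f).symm
  DA := J.DM
  tA := tB J (X ^ 2 + C (rf J a w))
  DA_smul c v := by rw [smul_eq_C_mul, smul_eq_C_mul, smul_eq_C_mul, J.DM_C_mul]
  tA_smul c v := by rw [smul_eq_C_mul, smul_eq_C_mul, smul_eq_C_mul, tB_C_mul]
  DA_tA v := (tB_DM J _ v).symm
  M := MB J a w
  M_symm := MB_symm J a w
  D_M := D_MB R
  t_M := (tan_K3 R).evo_MB R
  T := 1
  M_T := MB_one_one R
  t_T := by
    exact C8_t R

private theorem C8_tan (R : Red J a κ w) (n : ℕ) :
    Tan J a w (PowerSeries.coeff n (geoB R).a) :=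
  ⟨(geoB R).a_orth n, (geoB R).a_sphere (yB J a w) (fun v => D_yB R v) (yB_one R) n⟩

private theorem C8_deg (R : Red J a κ w) (n : ℕ) (hn : Even n) :
    ((PowerSeries.coeff n (geoB R).a : F[X])).natDegree = n := by
  cases n with
  | zero =>
    have h : PowerSeries.coeff 0 (geoB R).a = (1 : F[X]) :=
      aS_zero J.DM (MB J a w) 1 (MB_one_one R) (geoB R).char2
    rw [h]; simp
  | succ k =>
    have h := aS_lead J.DM (MB J a w) 1 (MB_one_one R) (geoB R).char2
      (fun n => degreeLE F n)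
      (fun m n hmn => by
        intro p hp
        rw [mem_degreeLE] at hp ⊢
        exact hp.trans (by exact_mod_cast hmn))
      (by rw [mem_degreeLE]; exact degree_one_le)
      (fun n v hv => by
        rw [mem_degreeLE] at hv ⊢
        rw [← natDegree_le_iff_degree_le] at hv ⊢
        rw [natDegree_le_iff_coeff_eq_zero] at hv ⊢
        intro N hN
        obtain ⟨M, rfl⟩ : ∃ M, N = M + 1 := ⟨N - 1, by omega⟩
        rw [J.coeff_DM_succ, hv (M + 1) (by omega), hv M (by omega), map_zero, zero_add])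
      k hn
    rw [C8_iter, mem_degreeLE] at h
    have e : (PowerSeries.coeff (k + 1) (geoB R).a : F[X])
        = (PowerSeries.coeff (k + 1) (aS J.DM (MB J a w) 1) - X ^ (k + 1)) + X ^ (k + 1) := by
      rw [sub_add_cancel]; rfl
    rw [e, natDegree_add_eq_right_of_degree_lt, natDegree_X_pow]
    rw [degree_X_pow]
    exact lt_of_le_of_lt h (by exact_mod_cast Nat.lt_succ_self k)

private theorem C8_sym (R : Red J a κ w) (n : ℕ) :
    J.evoV (Jet.K3 (rf J a w)) (X * (PowerSeries.coeff n (geoB R).a : F[X]))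
      = J.evoV (X * (PowerSeries.coeff n (geoB R).a : F[X])) (Jet.K3 (rf J a w)) := by
  have hlin := (geoB R).a_lin' n
  have htan := C8_tan R n
  generalize (PowerSeries.coeff n (geoB R).a : F[X]) = g at hlin htan ⊢
  change tB J (X ^ 2 + C (rf J a w)) g = J.DM (J.DM (J.DM g))
      + (3 / 2 * MB J a w (J.DM 1) (J.DM 1)) • J.DM g
      + (3 * MB J a w (J.DM 1) (J.DM (J.DM g))) • (1 : F[X]) at hlin
  rw [C8_one, C8_f R] at hlin
  have hK : (Jet.K3 (rf J a w) : F[X]) = X * (X ^ 2 + C (rf J a w)) := by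
    rw [Jet.K3]; ring
  have h1 : J.evoV (Jet.K3 (rf J a w)) (X * g) = X * tB J (X ^ 2 + C (rf J a w)) g := by
    rw [hK, X_mul_tB]
  have h2 : J.evoV (X * g) (Jet.K3 (rf J a w))
      = J.DM (J.DM (J.DM (X * g))) + (C (J.evo (X * g) (rf J a w)) * X
        + C (rf J a w) * J.DM (X * g)) := by
    rw [Jet.K3, map_add, J.evoV_C_mul]
    have e3 := J.evoV_X_pow (X * g) 3
    have e1 := J.evoV_X_pow (X * g) 1
    rw [pow_one] at e1
    rw [e3, e1]
    rfl
  rw [h1, h2, hlin, htan.evo_rf R, DM_X_mul, DM_X_mul, DM_X_mul, smul_eq_C_mul, smul_eq_C_mul]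
  ring

/-- symmetries of the families (B), (C) -/
theorem sym_BC (R : Red J a κ w) {m : ℕ} (hm : Odd m) : ∃ Q : F[X], Q.natDegree = m
    ∧ J.evoV (Jet.K3 (rf J a w)) Q = J.evoV Q (Jet.K3 (rf J a w)) := by
  obtain ⟨j, rfl⟩ := hm
  refine ⟨X * (PowerSeries.coeff (2 * j) (geoB R).a : F[X]), ?_, C8_sym R (2 * j)⟩
  have hd := C8_deg R (2 * j) (even_two_mul j)
  by_cases h0 : (PowerSeries.coeff (2 * j) (geoB R).a : F[X]) = 0
  · exfalso
    rw [h0, natDegree_zero] at hd
    have hj : j = 0 := by omega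
    subst hj
    have h : PowerSeries.coeff 0 (geoB R).a = (1 : F[X]) :=
      aS_zero J.DM (MB J a w) 1 (MB_one_one R) (geoB R).char2
    rw [mul_zero] at h0
    rw [h] at h0
    exact one_ne_zero h0
  · rw [natDegree_X_mul h0, hd]

end Pool.Agent.Lib.MP_4d1bc1_mp.Kv.Hier
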