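import Pool.Agent.Lib.MP_4d1bc1_mp.Kv.Main
import Pool.Agent.Lib.MP_4d1bc1_mp.Kv.Hier.RowC8
import Pool.Agent.Lib.MP_4d1bc1_mp.Kv.Hier.RowA2

set_option autoImplicit false

/-! Symmetries of every odd order for the equations of the list. -/

namespace Pool.Agent.Lib.MP_4d1bc1_mp.Kv.Hier

open Polynomial

universe u

variable {F : Type u} [Field F] [Algebra ℝ F] {J : Jet F}

theorem sym_list {f : F} (h : InList J f) {m : ℕ} (hm : Odd m) : ∃ Q : F[X], Q.natDegree = m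
    ∧ J.evoV (Jet.K3 f) Q = J.evoV Q (Jet.K3 f) := by
  have := J.charZero
  rcases h with ⟨c1, c0, h1, h0, rfl⟩ | ⟨a, κ, w, c0, R, hc, rfl⟩
  · have hc : J.IsC (2 / 3 * c1) := ((Jet.isC_ofNat 2).div (Jet.isC_ofNat 3)).mul h1
    obtain ⟨Q, hQ, hS⟩ := sym_A hc hm
    have e : fA J (2 / 3 * c1) = c1 * J.u 0 0 := by rw [fA]; ring
    rw [e] at hS
    exact ⟨Q, hQ, sym_shift J h0 hS⟩
  · obtain ⟨Q, hQ, hS⟩ := sym_BC R hm
    exact ⟨Q, hQ, sym_shift J hc hS⟩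

end Pool.Agent.Lib.MP_4d1bc1_mp.Kv.Hier
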