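import Pool.Agent.Lib.MP_4d1bc1_mp.Kv.Hier.RowT2

set_option autoImplicit false
set_option linter.unusedSimpArgs false
set_option linter.unusedSectionVars false

/-! Row hw-3: the conserved densities `⟨T, b_n⟩`. -/

namespace Pool.Agent.Lib.MP_4d1bc1_mp.Kv.Hier

open Finset PowerSeries

universe u

variable {F : Type u} [Field F] [Algebra ℝ F] {A : Type u} [CommRing A] [Algebra F A]

namespace Geo

variable (G : Geo F A)

theorem W3_coeff_pr (z : A) (f : A⟦X⟧) (n : ℕ) : coeff n (G.pr z f) = G.M z (coeff n f) := by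
  rw [pr, bi_C_left, coeff_cw]
  rfl

theorem W3_coeff_b (n : ℕ) : coeff n G.b = bs G.DA G.M G.T n := RowB1_coeff _ _ _ _

/-- `μ² s_t = (s + μ² ⟨a₂,b⟩)'`, `s = ⟨T,b⟩` -/
theorem s_t : X ^ 2 * cw (ad G.t) (G.pr G.T G.b)
    = cw (ad G.D) (G.pr G.T G.b + X ^ 2 * G.pr G.a2 G.b) := by
  have hT : G.tA G.T = G.DA G.a2 := G.t_T
  have h1 : cw (ad G.t) (G.pr G.T G.b)
      = G.pr (G.DA G.a2) G.b + bi G.M (C G.T) (cw G.tA G.b) := by
    rw [pr, cw_bi G.M G.t G.tA G.t_M, cw_C, hT]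
    rfl
  have h3 : bi G.M (C G.T) (X ^ 3 * cw G.tA G.b)
      = X ^ 3 * bi G.M (C G.T) (cw G.tA G.b) := by
    have : (X ^ 3 * cw G.tA G.b : A⟦X⟧) = io A ((X : F⟦X⟧) ^ 3) * cw G.tA G.b := by
      rw [map_pow, io_X]
    rw [this, bi_io_right]
  have h4 : bi G.M (C G.T) (X ^ 3 * cw G.tA G.b) = 1 - G.pr G.T G.b * G.pr G.T G.b
      + X * G.pr (G.DA G.T) G.b
      + X ^ 2 * (C (G.M G.a2 G.T) - G.pr G.a2 G.b * G.pr G.T G.b) := by
    have hx : ∀ f : A⟦X⟧, bi G.M (C G.T) (X ^ 2 * f) = X ^ 2 * bi G.M (C G.T) f := by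
      intro f
      rw [pow_two, mul_assoc, bi_X_right, bi_X_right]
      ring
    rw [b_t, bi_add_right, bi_add_right, hx, bi_X_right, bi_sub_right, bi_sub_right,
      bi_sub_right, bi_io_right, bi_io_right, bi_io_right, bi_io_right, bi_C_C, bi_C_C, bi_C_C,
      G.M_T, G.M_symm G.T (G.DA G.T), G.T1_M1, G.M_symm G.T G.a2, map_zero, map_one]
    simp only [pr]
    ring
  have h5 := G.T1_pr G.T
  rw [G.M_T, map_one] at h5
  have h6 := G.T1_pr G.a2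
  have h7 : (X : F⟦X⟧) * (X ^ 2 * cw (ad G.t) (G.pr G.T G.b))
      = X * cw (ad G.D) (G.pr G.T G.b + X ^ 2 * G.pr G.a2 G.b) := by
    rw [map_add, cw_X_pow_mul, h1]
    rw [h3] at h4
    linear_combination h4 - h5 - X ^ 2 * h6
  exact mul_left_cancel₀ X_ne_zero h7

/-- the conserved density `⟨T, b_n⟩` -/
theorem rho_cons (n : ℕ) : G.t (G.M G.T (coeff n G.b))
    = G.D (G.M G.T (coeff (n + 2) G.b) + G.M G.a2 (coeff n G.b)) := by
  have h := congrArg (coeff (n + 2)) G.s_t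
  rw [coeff_X_pow_mul, coeff_cw, coeff_cw, map_add, coeff_X_pow_mul, W3_coeff_pr, W3_coeff_pr,
    W3_coeff_pr] at h
  exact h

/-- the recursion for `b` -/
theorem b_succ (k : ℕ) : coeff (k + 1) G.b = -G.DA (coeff k G.b)
    - (G.M G.T (coeff (k + 1) G.b)) • G.T
    - ∑ i ∈ range k, (G.M G.T (coeff (i + 1) G.b)) • coeff (k - i) G.b := by
  have h : bs G.DA G.M G.T (k + 1) = -G.DA (bs G.DA G.M G.T k)
      + (1 / 2 * (G.M G.T (G.DA (bs G.DA G.M G.T k))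
        + ∑ i : Fin k, G.M G.T (bs G.DA G.M G.T (i.1 + 1)) * G.M G.T (bs G.DA G.M G.T (k - i.1)))) • G.T
      - ∑ i : Fin k, G.M G.T (bs G.DA G.M G.T (i.1 + 1)) • bs G.DA G.M G.T (k - i.1) := by
    rw [bs]
  have h1 := RowB1_M G.DA G.M G.T G.M_T G.char2 k
  simp only [W3_coeff_b]
  rw [Finset.sum_range, h1, neg_smul, sub_neg_eq_add]
  exact h

/-- the recursion for `s` -/
theorem s_succ (k : ℕ) : 2 * G.M G.T (coeff (k + 1) G.b)
    = G.M (G.DA G.T) (coeff k G.b) - G.D (G.M G.T (coeff k G.b))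
    - ∑ i ∈ range k, G.M G.T (coeff (i + 1) G.b) * G.M G.T (coeff (k - i) G.b) := by
  have h1 := RowB1_M G.DA G.M G.T G.M_T G.char2 k
  have h2 := G.D_M G.T (bs G.DA G.M G.T k)
  have h3 := G.char2
  simp only [W3_coeff_b]
  rw [Finset.sum_range, h1, h2]
  field_simp
  ring

theorem b_zero : coeff 0 G.b = G.T := bS_zero _ _ _

end Geo

end Pool.Agent.Lib.MP_4d1bc1_mp.Kv.Hier
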