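import Pool.Agent.Lib.MP_4d1bc1_mp.Kv.Hier.W0
import Pool.Agent.Lib.MP_4d1bc1_mp.Kv.Calc2

set_option autoImplicit false
set_option linter.unusedSimpArgs false
set_option linter.unusedSectionVars false

/-! Row hw-2: rules for the weight and the alternating sum. -/

namespace Pool.Agent.Lib.MP_4d1bc1_mp.Kv.Hier

open Finset Polynomial

universe u

variable {F : Type u} [Field F] [Algebra ℝ F] {J : Jet F}

theorem Wt.mono {g : F} {M M' : ℕ} (h : Wt J g M) (hM : M ≤ M') : Wt J g M' :=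
  fun p q hpq => h p q (lt_of_le_of_lt hM hpq)

theorem Wt.of_isC {c : F} (hc : J.IsC c) (M : ℕ) : Wt J c M := fun p q _ => by
  rw [J.Gu_apply, hc, mul_zero]

theorem Wt.zero (M : ℕ) : Wt J (0 : F) M := fun _ _ _ => map_zero _

theorem Wt.add {g h : F} {M : ℕ} (hg : Wt J g M) (hh : Wt J h M) : Wt J (g + h) M :=
  fun p q hpq => by rw [map_add, hg p q hpq, hh p q hpq, add_zero]

theorem Wt.sub {g h : F} {M : ℕ} (hg : Wt J g M) (hh : Wt J h M) : Wt J (g - h) M :=
  fun p q hpq => by rw [map_sub, hg p q hpq, hh p q hpq, sub_zero]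

theorem Wt.neg {g : F} {M : ℕ} (hg : Wt J g M) : Wt J (-g) M :=
  fun p q hpq => by rw [map_neg, hg p q hpq, neg_zero]

theorem Wt.mul {g h : F} {M : ℕ} (hg : Wt J g M) (hh : Wt J h M) : Wt J (g * h) M :=
  fun p q hpq => der_mul_zero _ (hg p q hpq) (hh p q hpq)

theorem Wt.inv {g : F} {M : ℕ} (hg : Wt J g M) : Wt J g⁻¹ M :=
  fun p q hpq => der_inv_zero _ (hg p q hpq)

theorem Wt.div {g h : F} {M : ℕ} (hg : Wt J g M) (hh : Wt J h M) : Wt J (g / h) M :=
  fun p q hpq => der_div_zero _ (hg p q hpq) (hh p q hpq)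

theorem Wt.pow {g : F} {M : ℕ} (hg : Wt J g M) (n : ℕ) : Wt J (g ^ n) M := by
  induction n with
  | zero =>
    rw [pow_zero]
    exact fun p q _ => Derivation.map_one_eq_zero _
  | succ n ih =>
    rw [pow_succ]
    exact ih.mul hg

theorem Wt.sum {ι : Type} (s : Finset ι) {g : ι → F} {M : ℕ} (h : ∀ i ∈ s, Wt J (g i) M) :
    Wt J (∑ i ∈ s, g i) M := fun p q hpq => by
  rw [map_sum]
  exact Finset.sum_eq_zero fun i hi => h i hi p q hpq

theorem W2_Gum {g : F} {M : ℕ} (hg : Wt J g M) (p q : ℕ) (hpq : M + 1 < p + q) :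
    J.Gum p q g = 0 := by
  cases p with
  | zero => rfl
  | succ p => exact hg p q (by omega)

theorem Wt.D {g : F} {M : ℕ} (hg : Wt J g M) : Wt J (J.D g) (M + 1) := fun p q hpq => by
  rw [J.Gu_D, hg p q (by omega), W2_Gum hg p q hpq, W2_Gum hg q p (by omega), map_zero]
  ring

theorem Wt.u (i j : ℕ) : Wt J (J.u i j) (i + j) := fun p q hpq => by
  rw [J.Gu_u, if_neg (by omega), if_neg (by omega), add_zero]

theorem alt_add (M : ℕ) (g h : F) : alt J M (g + h) = alt J M g + alt J M h := by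
  unfold alt
  rw [← sum_add_distrib]
  exact sum_congr rfl fun k _ => by rw [map_add]; ring

theorem alt_sub (M : ℕ) (g h : F) : alt J M (g - h) = alt J M g - alt J M h := by
  unfold alt
  rw [← sum_sub_distrib]
  exact sum_congr rfl fun k _ => by rw [map_sub]; ring

theorem alt_neg (M : ℕ) (g : F) : alt J M (-g) = -alt J M g := by
  unfold alt
  rw [← sum_neg_distrib]
  exact sum_congr rfl fun k _ => by rw [map_neg]; ring

theorem alt_mul (M : ℕ) (g h : F) : alt J M (g * h) = alt J M g * h + g * alt J M h := by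
  unfold alt
  rw [sum_mul, mul_sum, ← sum_add_distrib]
  exact sum_congr rfl fun k _ => by rw [der_mul]; ring

theorem alt_sum {ι : Type} (s : Finset ι) (M : ℕ) (g : ι → F) :
    alt J M (∑ i ∈ s, g i) = ∑ i ∈ s, alt J M (g i) := by
  unfold alt
  rw [sum_comm]
  exact sum_congr rfl fun k _ => by rw [map_sum, mul_sum]

theorem alt_isC {c : F} (hc : J.IsC c) (M : ℕ) : alt J M c = 0 := by
  unfold alt
  exact sum_eq_zero fun k _ => by rw [J.Gu_apply, hc, mul_zero, mul_zero]

/-- lower weight -/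
theorem alt_lt {g : F} {M M' : ℕ} (hg : Wt J g M') (h : M' < M) : alt J M g = 0 := by
  unfold alt
  refine sum_eq_zero fun k hk => ?_
  rw [mem_range] at hk
  rw [hg (M - k) k (by omega), mul_zero]

/-- total derivatives -/
theorem alt_D {g : F} {M : ℕ} (hg : Wt J g M) : alt J (M + 1) (J.D g) = 0 := by
  have h1 : alt J (M + 1) (J.D g) =
      ∑ k ∈ range (M + 1 + 1), (-1) ^ k * J.Gum (M + 1 - k) k g +
      ∑ k ∈ range (M + 1 + 1), (-1) ^ k * J.Gum k (M + 1 - k) g := by
    unfold alt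
    rw [← sum_add_distrib]
    refine sum_congr rfl fun k hk => ?_
    rw [mem_range] at hk
    rw [J.Gu_D, hg (M + 1 - k) k (by omega), map_zero]
    ring
  have h2 : ∑ k ∈ range (M + 1 + 1), (-1) ^ k * J.Gum (M + 1 - k) k g = alt J M g := by
    unfold alt
    rw [sum_range_succ]
    have h3 : J.Gum (M + 1 - (M + 1)) (M + 1) g = 0 := by
      rw [Nat.sub_self]; rfl
    rw [h3, mul_zero, add_zero]
    refine sum_congr rfl fun k hk => ?_
    rw [mem_range] at hk
    have h4 : M + 1 - k = (M - k) + 1 := by omega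
    rw [h4]
    rfl
  have h5 : ∑ k ∈ range (M + 1 + 1), (-1) ^ k * J.Gum k (M + 1 - k) g = -alt J M g := by
    unfold alt
    rw [sum_range_succ', ← sum_neg_distrib]
    have h3 : J.Gum 0 (M + 1 - 0) g = 0 := rfl
    rw [h3, mul_zero, add_zero]
    refine sum_congr rfl fun k hk => ?_
    rw [mem_range] at hk
    have h4 : M + 1 - (k + 1) = M - k := by omega
    rw [h4]
    have h6 : J.Gum (k + 1) (M - k) g = J.Gu (M - k) k g := J.Gu_symm k (M - k) g
    rw [h6, pow_succ]
    ring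
  rw [h1, h2, h5]
  ring

theorem alt_u (i j : ℕ) : alt J (i + j) (J.u i j) = (-1) ^ i + (-1) ^ j := by
  unfold alt
  have h1 : ∀ k ∈ range (i + j + 1), (-1 : F) ^ k * J.Gu (i + j - k) k (J.u i j) =
      (if k = j then (-1) ^ j else 0) + (if k = i then (-1) ^ i else 0) := by
    intro k hk
    rw [mem_range] at hk
    rw [J.Gu_u]
    have h2 : (i + j - k = i ∧ k = j) ↔ k = j := by omega
    have h3 : (i + j - k = j ∧ k = i) ↔ k = i := by omega
    simp only [h2, h3]
    split_ifs with h4 h5 h5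
    · rw [← h4, ← h5]; ring
    · rw [h4]; ring
    · rw [h5]; ring
    · ring
  rw [sum_congr rfl h1, sum_add_distrib, sum_ite_eq', sum_ite_eq', if_pos, if_pos]
  · ring
  · rw [mem_range]; omega
  · rw [mem_range]; omega

end Pool.Agent.Lib.MP_4d1bc1_mp.Kv.Hier
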