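import Pool.Agent.Lib.MP_4d1bc1_mp.Kv.Hier.RowC8
import Pool.Agent.Lib.MP_4d1bc1_mp.Kv.Hier.RowW2

set_option autoImplicit false
set_option linter.unusedSimpArgs false
set_option linter.unusedSectionVars false

/-! Row hw-4: weights of the scalar products, families (B), (C). -/

namespace Pool.Agent.Lib.MP_4d1bc1_mp.Kv.Hier

open Finset Polynomial

universe u

variable {F : Type u} [Field F] [Algebra ℝ F] {J : Jet F} {a w κ : F}

private theorem W4_one (J : Jet F) (M : ℕ) : Wt J (1 : F) M := Wt.of_isC Jet.isC_one M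

theorem wt_Z (R : Red J a κ w) : Wt J (rZ J a) 2 :=
  (W4_one J 2).add ((Wt.of_isC R.ca 2).mul (Wt.u 1 1))

theorem wt_w (R : Red J a κ w) : Wt J w 2 := by
  rcases R.hw with hw | hw
  · rw [hw]
    exact Wt.zero 2
  · rw [eq_inv_of_mul_eq_one_left hw]
    refine Wt.inv (((Wt.mono (Wt.u 0 0) (by omega)).add (Wt.of_isC R.cκ 2)).sub ?_)
    exact ((Wt.of_isC R.ca 2).mul ((Wt.mono (Wt.u 0 1) (by omega)).pow 2)).mul (wt_Z R).inv

theorem wt_b (R : Red J a κ w) : Wt J (rb J a 2) 3 := by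
  have hb : rb J a 2 = J.u 0 2 - a⁻¹ - a * J.u 0 1 * J.u 1 2 * (rZ J a)⁻¹ := by
    rw [rb, if_pos rfl]
  rw [hb]
  have ha := Wt.of_isC R.ca 3
  exact ((Wt.mono (Wt.u 0 2) (by omega)).sub ha.inv).sub
    (((ha.mul (Wt.mono (Wt.u 0 1) (by omega))).mul (Wt.u 1 2)).mul
      (Wt.mono (wt_Z R).inv (by omega)))

theorem wt_eps (R : Red J a κ w) (n : ℕ) :
    Wt J (eps J a w n).1 (n + 2) ∧ Wt J (eps J a w n).2 (n + 2) := by
  induction n with
  | zero => exact ⟨wt_Z R, Wt.zero _⟩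
  | succ n ih =>
    have ha := Wt.of_isC R.ca (n + 1 + 2)
    have hZ : Wt J (rZ J a)⁻¹ (n + 1 + 2) := (wt_Z R).inv.mono (by omega)
    have hw : Wt J w (n + 1 + 2) := (wt_w R).mono (by omega)
    have hb : Wt J (rb J a 2) (n + 1 + 2) := (wt_b R).mono (by omega)
    have h12 : Wt J (J.u 1 2) (n + 1 + 2) := (Wt.u 1 2).mono (by omega)
    have h01 : Wt J (J.u 0 1) (n + 1 + 2) := (Wt.u 0 1).mono (by omega)
    have h1 : Wt J (eps J a w n).1 (n + 1 + 2) := ih.1.mono (by omega)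
    have h2 : Wt J (eps J a w n).2 (n + 1 + 2) := ih.2.mono (by omega)
    have d1 : Wt J (J.D (eps J a w n).1) (n + 1 + 2) := ih.1.D.mono (by omega)
    have d2 : Wt J (J.D (eps J a w n).2) (n + 1 + 2) := ih.2.D.mono (by omega)
    have ht : Wt J (tau J a) (n + 1 + 2) := (ha.mul h01).mul hZ
    exact ⟨(d1.sub (((ha.mul h12).mul hZ).mul h1)).sub ((hw.mul hb).mul h2),
      (d2.add (((ha.mul hb).mul hZ).mul h1)).add (((ht.mul hw).mul hb).mul h2)⟩

private theorem W4_MB (J : Jet F) (a w : F) (i j : ℕ) : MB J a w (X ^ i) (X ^ j)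
    = (rZ J a)⁻¹ * (eps J a w i).1 * (eps J a w j).1 + w / a * (eps J a w i).2 * (eps J a w j).2
      - a * J.u (i + 1) (j + 1) := by
  have h1 : ∀ n : ℕ, e1 J a w (X ^ n) = (eps J a w n).1 := by
    intro n
    have h := RowC2_e1_mon J a w 1 n
    rwa [C_1, one_mul, one_mul] at h
  have h2 : ∀ n : ℕ, e0 J a w (X ^ n) = (eps J a w n).2 := by
    intro n
    have h := RowC2_e0_mon J a w 1 n
    rwa [C_1, one_mul, one_mul] at h
  rw [MB_apply, h1, h1, h2, h2, ← pow_succ', ← pow_succ', J.ip_X_pow]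

theorem wt_MB (R : Red J a κ w) (i j : ℕ) : Wt J (MB J a w (X ^ i) (X ^ j)) (i + j + 2) := by
  rw [W4_MB]
  have ha := Wt.of_isC R.ca (i + j + 2)
  have hZ : Wt J (rZ J a)⁻¹ (i + j + 2) := (wt_Z R).inv.mono (by omega)
  have hw : Wt J w (i + j + 2) := (wt_w R).mono (by omega)
  have h1 := (wt_eps R i).1.mono (show i + 2 ≤ i + j + 2 by omega)
  have h2 := (wt_eps R i).2.mono (show i + 2 ≤ i + j + 2 by omega)
  have h3 := (wt_eps R j).1.mono (show j + 2 ≤ i + j + 2 by omega)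
  have h4 := (wt_eps R j).2.mono (show j + 2 ≤ i + j + 2 by omega)
  have hu : Wt J (J.u (i + 1) (j + 1)) (i + j + 2) := (Wt.u (i + 1) (j + 1)).mono (by omega)
  exact (((hZ.mul h1).mul h3).add (((hw.div ha).mul h2).mul h4)).sub (ha.mul hu)

theorem alt_MB (R : Red J a κ w) {i j : ℕ} (hi : 1 ≤ i) (hj : 1 ≤ j) :
    alt J (i + j + 2) (MB J a w (X ^ i) (X ^ j)) = a * ((-1) ^ i + (-1) ^ j) := by
  rw [W4_MB]
  have ha := Wt.of_isC R.ca (i + j + 1)
  have hZ : Wt J (rZ J a)⁻¹ (i + j + 1) := (wt_Z R).inv.mono (by omega)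
  have hw : Wt J w (i + j + 1) := (wt_w R).mono (by omega)
  have h1 := (wt_eps R i).1.mono (show i + 2 ≤ i + j + 1 by omega)
  have h2 := (wt_eps R i).2.mono (show i + 2 ≤ i + j + 1 by omega)
  have h3 := (wt_eps R j).1.mono (show j + 2 ≤ i + j + 1 by omega)
  have h4 := (wt_eps R j).2.mono (show j + 2 ≤ i + j + 1 by omega)
  have hl : Wt J ((rZ J a)⁻¹ * (eps J a w i).1 * (eps J a w j).1
      + w / a * (eps J a w i).2 * (eps J a w j).2) (i + j + 1) :=
    ((hZ.mul h1).mul h3).add (((hw.div ha).mul h2).mul h4)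
  have hu := alt_u (J := J) (i + 1) (j + 1)
  have e : i + 1 + (j + 1) = i + j + 2 := by omega
  rw [e] at hu
  rw [alt_sub, alt_lt hl (by omega), alt_mul, alt_isC R.ca, hu]
  ring

end Pool.Agent.Lib.MP_4d1bc1_mp.Kv.Hier
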