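import Pool.Agent.Lib.MP_4d1bc1_mp.Kv.Hier.RowW1
import Pool.Agent.Lib.MP_4d1bc1_mp.Kv.Hier.RowW3
import Pool.Agent.Lib.MP_4d1bc1_mp.Kv.Hier.RowW4

set_option autoImplicit false
set_option linter.unusedSimpArgs false
set_option linter.unusedSectionVars false

/-! Row hw-5: the leading coefficient of the conserved densities, families (B), (C). -/

namespace Pool.Agent.Lib.MP_4d1bc1_mp.Kv.Hier

open Finset Polynomial

universe u

variable {F : Type u} [Field F] [Algebra ℝ F] {J : Jet F} {a w κ : F}

private theorem W5_bsucc (R : Red J a κ w) (k : ℕ) :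
    PowerSeries.coeff (k + 1) (geoB R).b = -J.DM (PowerSeries.coeff k (geoB R).b)
    - (MB J a w 1 (PowerSeries.coeff (k + 1) (geoB R).b)) • (1 : F[X])
    - ∑ i ∈ range k, (MB J a w 1 (PowerSeries.coeff (i + 1) (geoB R).b)) •
      PowerSeries.coeff (k - i) (geoB R).b :=
  (geoB R).b_succ k

private theorem W5_ssucc (R : Red J a κ w) (k : ℕ) :
    2 * MB J a w 1 (PowerSeries.coeff (k + 1) (geoB R).b)
    = MB J a w (J.DM 1) (PowerSeries.coeff k (geoB R).b)
      - J.D (MB J a w 1 (PowerSeries.coeff k (geoB R).b))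
    - ∑ i ∈ range k, MB J a w 1 (PowerSeries.coeff (i + 1) (geoB R).b) *
      MB J a w 1 (PowerSeries.coeff (k - i) (geoB R).b) :=
  (geoB R).s_succ k

private theorem W5_DM_one : J.DM 1 = X := by
  have h := J.DM_X_pow 0
  rwa [pow_zero, zero_add, pow_one] at h

/-- expansion of the scalar product -/
private theorem W5_exp (v p : F[X]) {k : ℕ} (hp : ∀ j, k < j → p.coeff j = 0) :
    MB J a w v p = ∑ j ∈ range (k + 1), p.coeff j * MB J a w v (X ^ j) := by
  have hd : p.natDegree < k + 1 := by
    rw [Nat.lt_succ_iff, natDegree_le_iff_coeff_eq_zero]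
    exact fun N hN => hp N hN
  conv_lhs => rw [p.as_sum_range_C_mul_X_pow' hd]
  rw [map_sum]
  refine Finset.sum_congr rfl fun j _ => ?_
  rw [← smul_eq_C_mul, map_smul, smul_eq_mul]

private theorem W5_sum (S : Finset ℕ) {g : ℕ → F} {M : ℕ} (h : ∀ i ∈ S, Wt J (g i) M) :
    Wt J (∑ i ∈ S, g i) M := Wt.sum S h

private theorem W5_coeff (R : Red J a κ w) (k j : ℕ) :
    (PowerSeries.coeff (k + 1) (geoB R).b).coeff j
      = -(J.DM (PowerSeries.coeff k (geoB R).b)).coeff j
      - (if j = 0 then MB J a w 1 (PowerSeries.coeff (k + 1) (geoB R).b) else 0)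
      - ∑ i ∈ range k, MB J a w 1 (PowerSeries.coeff (i + 1) (geoB R).b) *
        (PowerSeries.coeff (k - i) (geoB R).b).coeff j := by
  conv_lhs => rw [W5_bsucc R k]
  rw [coeff_sub, coeff_sub, coeff_neg, coeff_smul, finsetSum_coeff]
  simp only [coeff_smul, smul_eq_mul, coeff_one]
  congr 2
  by_cases h : j = 0
  · simp [h]
  · simp [h]

/-- the coefficients of `b_n` and of the density `⟨T, b_n⟩` -/
theorem wt_bs_B (R : Red J a κ w) (n : ℕ) :
    (∀ j, n < j → (PowerSeries.coeff n (geoB R).b).coeff j = 0)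
    ∧ (PowerSeries.coeff n (geoB R).b).coeff n = (-1) ^ n
    ∧ (∀ j, j ≤ n → Wt J ((PowerSeries.coeff n (geoB R).b).coeff j) (n - j + 2))
    ∧ Wt J (MB J a w 1 (PowerSeries.coeff n (geoB R).b)) (n + 2) := by
  have h1C : J.IsC (1 : F) := by
    intro i
    exact Derivation.map_one_eq_zero _
  have h2C : J.IsC (2 : F) := by
    intro i
    exact der_ofNat _ 2
  induction n using Nat.strong_induction_on with
  | _ n ih =>
    rcases n with _ | k
    · have hb : PowerSeries.coeff 0 (geoB R).b = (1 : F[X]) := (geoB R).b_zero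
      rw [hb]
      refine ⟨fun j hj => ?_, by simp, fun j hj => ?_, ?_⟩
      · rw [coeff_one, if_neg (by omega)]
      · have h0 : j = 0 := by omega
        subst h0
        rw [coeff_one, if_pos rfl]
        exact Wt.of_isC h1C _
      · rw [MB_one_one R]
        exact Wt.of_isC h1C _
    · obtain ⟨a1, a2, a3, a4⟩ := ih k (Nat.lt_succ_self k)
      have hs : Wt J (MB J a w 1 (PowerSeries.coeff (k + 1) (geoB R).b)) (k + 3) := by
        have h2 := W5_ssucc R k
        have ht : (2 : F) ≠ 0 := (geoB R).char2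
        have h3 : MB J a w 1 (PowerSeries.coeff (k + 1) (geoB R).b) = 2⁻¹ *
            (MB J a w (J.DM 1) (PowerSeries.coeff k (geoB R).b)
              - J.D (MB J a w 1 (PowerSeries.coeff k (geoB R).b))
            - ∑ i ∈ range k, MB J a w 1 (PowerSeries.coeff (i + 1) (geoB R).b) *
              MB J a w 1 (PowerSeries.coeff (k - i) (geoB R).b)) := by
          rw [← h2, ← mul_assoc, inv_mul_cancel₀ ht, one_mul]
        rw [h3]
        refine Wt.mul (Wt.inv (Wt.of_isC h2C _)) (Wt.sub (Wt.sub ?_ ?_) ?_)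
        · rw [W5_DM_one, W5_exp (a := a) (w := w) X _ a1]
          refine W5_sum _ fun j hj => ?_
          rw [mem_range] at hj
          refine Wt.mul ((a3 j (by omega)).mono (by omega)) ?_
          have h4 := wt_MB R 1 j
          rw [pow_one] at h4
          exact h4.mono (by omega)
        · exact a4.D
        · refine W5_sum _ fun i hi => ?_
          rw [mem_range] at hi
          exact Wt.mul ((ih (i + 1) (by omega)).2.2.2.mono (by omega))
            ((ih (k - i) (by omega)).2.2.2.mono (by omega))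
      refine ⟨fun j hj => ?_, ?_, fun j hj => ?_, hs⟩
      · obtain ⟨j, rfl⟩ : ∃ j', j = j' + 1 := ⟨j - 1, by omega⟩
        rw [W5_coeff, J.coeff_DM_succ, a1 (j + 1) (by omega), a1 j (by omega), map_zero,
          if_neg (by omega), Finset.sum_eq_zero]
        · ring
        · intro i hi
          rw [(ih (k - i) (by omega)).1 (j + 1) (by omega), mul_zero]
      · rw [W5_coeff, J.coeff_DM_succ, a1 (k + 1) (by omega), a2, map_zero,
          if_neg (by omega), Finset.sum_eq_zero]
        · ring
        · intro i hi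
          rw [(ih (k - i) (by omega)).1 (k + 1) (by omega), mul_zero]
      · rw [W5_coeff]
        refine Wt.sub (Wt.sub (Wt.neg ?_) ?_) ?_
        · rcases j with _ | j
          · rw [J.coeff_DM_zero]
            exact ((a3 0 (by omega)).D).mono (by omega)
          · rw [J.coeff_DM_succ]
            refine Wt.add ?_ ((a3 j (by omega)).mono (by omega))
            by_cases hjk : j + 1 ≤ k
            · exact ((a3 (j + 1) hjk).D).mono (by omega)
            · rw [a1 (j + 1) (by omega), map_zero]
              exact Wt.zero _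
        · split_ifs with h0
          · exact hs.mono (by omega)
          · exact Wt.zero _
        · refine W5_sum _ fun i hi => ?_
          rw [mem_range] at hi
          by_cases hij : j ≤ k - i
          · exact Wt.mul ((ih (i + 1) (by omega)).2.2.2.mono (by omega))
              (((ih (k - i) (by omega)).2.2.1 j hij).mono (by omega))
          · rw [(ih (k - i) (by omega)).1 j (by omega), mul_zero]
            exact Wt.zero _

theorem alt_s_B (R : Red J a κ w) {n : ℕ} (hn : Even n) (h2 : 2 ≤ n) :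
    alt J (n + 2) (MB J a w 1 (PowerSeries.coeff n (geoB R).b)) = a := by
  obtain ⟨k, rfl⟩ : ∃ k, n = k + 1 := ⟨n - 1, by omega⟩
  have hk : Odd k := by
    rcases Nat.even_or_odd k with h | h
    · exact absurd hn (by rw [Nat.not_even_iff_odd]; exact h.add_one)
    · exact h
  have ht : (2 : F) ≠ 0 := (geoB R).char2
  obtain ⟨a1, a2, a3, a4⟩ := wt_bs_B R k
  have hs := W5_ssucc R k
  have hsum : alt J (k + 1 + 2) (∑ i ∈ range k,
      MB J a w 1 (PowerSeries.coeff (i + 1) (geoB R).b) *
      MB J a w 1 (PowerSeries.coeff (k - i) (geoB R).b)) = 0 := by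
    refine alt_lt (M' := k + 2) ?_ (by omega)
    refine W5_sum _ fun i hi => ?_
    rw [mem_range] at hi
    exact Wt.mul ((wt_bs_B R (i + 1)).2.2.2.mono (by omega))
      ((wt_bs_B R (k - i)).2.2.2.mono (by omega))
  have hD : alt J (k + 1 + 2) (J.D (MB J a w 1 (PowerSeries.coeff k (geoB R).b))) = 0 := by
    have h := alt_D a4
    rw [show k + 1 + 2 = k + 2 + 1 by ring]
    exact h
  have hM : alt J (k + 1 + 2) (MB J a w (J.DM 1) (PowerSeries.coeff k (geoB R).b)) = 2 * a := by
    rw [W5_DM_one, W5_exp (a := a) (w := w) X _ a1, alt_sum, Finset.sum_eq_single k]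
    · rw [alt_mul, alt_lt (M' := k - k + 2) (a3 k le_rfl) (by omega), a2]
      have h4 := alt_MB (J := J) (a := a) (w := w) R (i := 1) (j := k) le_rfl (by
        rcases hk with ⟨m, rfl⟩
        omega)
      rw [pow_one, pow_one, hk.neg_one_pow, show 1 + k + 2 = k + 1 + 2 by ring] at h4
      rw [h4, hk.neg_one_pow]
      ring
    · intro j hj hjk
      rw [mem_range] at hj
      have h5 := wt_MB R 1 j
      rw [pow_one] at h5
      rw [alt_mul, alt_lt (M' := k - j + 2) (a3 j (by omega)) (by omega),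
        alt_lt (M' := 1 + j + 2) h5 (by omega)]
      ring
    · intro h
      exact absurd (mem_range.2 (Nat.lt_succ_self k)) h
  have h6 : alt J (k + 1 + 2) (2 * MB J a w 1 (PowerSeries.coeff (k + 1) (geoB R).b)) = 2 * a := by
    rw [hs, alt_sub, alt_sub, hsum, hD, hM]
    ring
  rw [two_mul, alt_add, ← two_mul] at h6
  exact mul_left_cancel₀ ht h6

/-- conservation laws of the families (B), (C) -/
theorem cons_BC (R : Red J a κ w) {m : ℕ} (hm : Even m) (h4 : 4 ≤ m) : ∃ ρ σ : F,
    J.evo (Jet.K3 (rf J a w)) ρ = J.D σ ∧ ∀ N, J.Bd ρ N → (J.del 1 ρ N).natDegree = m := by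
  obtain ⟨n, rfl⟩ : ∃ n, m = n + 2 := ⟨m - 2, by omega⟩
  have hn : Even n := by
    rcases hm with ⟨r, hr⟩
    exact ⟨r - 1, by omega⟩
  have hK : (Jet.K3 (rf J a w) : F[X]) = X * (X ^ 2 + C (rf J a w)) := by
    rw [Jet.K3]; ring
  refine ⟨MB J a w 1 (PowerSeries.coeff n (geoB R).b),
    (geoB R).M (geoB R).T (PowerSeries.coeff (n + 2) (geoB R).b)
      + (geoB R).M (geoB R).a2 (PowerSeries.coeff n (geoB R).b), ?_, fun N hN => ?_⟩
  · rw [hK]
    exact (geoB R).rho_cons n
  · refine natDegree_del hN (wt_bs_B R n).2.2.2 ?_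
    rw [alt_s_B R hn (by omega)]
    exact R.a0

end Pool.Agent.Lib.MP_4d1bc1_mp.Kv.Hier
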