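import Pool.Agent.Lib.MP_4d1bc1_mp.Kv.Hier.RowW1
import Pool.Agent.Lib.MP_4d1bc1_mp.Kv.Hier.RowW2
import Pool.Agent.Lib.MP_4d1bc1_mp.Kv.Hier.RowW3
import Pool.Agent.Lib.MP_4d1bc1_mp.Kv.Hier.RowA2

set_option autoImplicit false
set_option linter.unusedSimpArgs false
set_option linter.unusedSectionVars false

/-! Row hw-6: the conserved densities of the family (A). -/

namespace Pool.Agent.Lib.MP_4d1bc1_mp.Kv.Hier

open Finset Polynomial

universe u

variable {F : Type u} [Field F] [Algebra ℝ F] {J : Jet F} {c : F}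

theorem W6_MT (hc : J.IsC c) (v : F[X] × F) : (geoA hc).M (geoA hc).T v = v.2 := by
  change c * J.ip 0 v.1 + 1 * v.2 = v.2
  rw [J.ip_zero_left]; ring

theorem W6_MDT (hc : J.IsC c) (v : F[X] × F) :
    (geoA hc).M ((geoA hc).DA (geoA hc).T) v = c * J.ip 1 v.1 := by
  have h : (geoA hc).DA (geoA hc).T = ((1, 0) : F[X] × F) := RowA2_DA_T
  rw [h]
  change c * J.ip 1 v.1 + 0 * v.2 = c * J.ip 1 v.1
  ring

/-- the first component of `b_n` -/
noncomputable def W6_Y (hc : J.IsC c) (n : ℕ) : F[X] := (PowerSeries.coeff n (geoA hc).b).1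

/-- the second component of `b_n` -/
noncomputable def W6_s (hc : J.IsC c) (n : ℕ) : F := (PowerSeries.coeff n (geoA hc).b).2

theorem W6_Y_zero (hc : J.IsC c) : W6_Y hc 0 = 0 := by
  rw [W6_Y, (geoA hc).b_zero]; rfl

theorem W6_s_zero (hc : J.IsC c) : W6_s hc 0 = 1 := by
  rw [W6_s, (geoA hc).b_zero]; rfl

theorem W6_Y_succ (hc : J.IsC c) (k : ℕ) : W6_Y hc (k + 1)
    = -(J.DM (W6_Y hc k) + C (W6_s hc k))
      - ∑ i ∈ range k, C (W6_s hc (i + 1)) * W6_Y hc (k - i) := by
  have h := (geoA hc).b_succ k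
  have h2 := congrArg Prod.fst h
  rw [Prod.fst_sub, Prod.fst_sub, Prod.fst_sum, Prod.fst_neg] at h2
  have e1 : ((geoA hc).DA (PowerSeries.coeff k (geoA hc).b)).1
      = J.DM (W6_Y hc k) + C (W6_s hc k) := rfl
  have e2 : (((geoA hc).M (geoA hc).T (PowerSeries.coeff (k + 1) (geoA hc).b)) • (geoA hc).T).1
      = (0 : F[X]) := by
    rw [Prod.smul_fst]
    exact smul_zero _
  rw [e1, e2, sub_zero] at h2
  refine h2.trans ?_
  congr 1
  refine sum_congr rfl fun i _ => ?_
  rw [Prod.smul_fst, smul_eq_C_mul, W6_MT]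
  rfl

theorem W6_s_succ (hc : J.IsC c) (k : ℕ) : 2 * W6_s hc (k + 1)
    = c * J.ip 1 (W6_Y hc k) - J.D (W6_s hc k)
      - ∑ i ∈ range k, W6_s hc (i + 1) * W6_s hc (k - i) := by
  have h := (geoA hc).s_succ k
  simp only [W6_MT, W6_MDT] at h
  exact h

theorem W6_coeff_zero (hc : J.IsC c) (k : ℕ) : (W6_Y hc (k + 1)).coeff 0
    = -J.D ((W6_Y hc k).coeff 0) - W6_s hc k
      - ∑ i ∈ range k, W6_s hc (i + 1) * (W6_Y hc (k - i)).coeff 0 := by
  rw [W6_Y_succ, coeff_sub, coeff_neg, coeff_add, J.coeff_DM_zero, coeff_C_zero,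
    finsetSum_coeff]
  simp only [coeff_C_mul]
  ring

theorem W6_coeff_succ (hc : J.IsC c) (k j : ℕ) : (W6_Y hc (k + 1)).coeff (j + 1)
    = -J.D ((W6_Y hc k).coeff (j + 1)) - (W6_Y hc k).coeff j
      - ∑ i ∈ range k, W6_s hc (i + 1) * (W6_Y hc (k - i)).coeff (j + 1) := by
  rw [W6_Y_succ, coeff_sub, coeff_neg, coeff_add, J.coeff_DM_succ, coeff_C_succ,
    finsetSum_coeff]
  simp only [coeff_C_mul]
  ring

theorem W6_ip (Y : F[X]) (n : ℕ) (h : ∀ j, n ≤ j → Y.coeff j = 0) :
    J.ip 1 Y = ∑ j ∈ range n, Y.coeff j * J.u 0 j := by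
  have e1 : Y = ∑ j ∈ range n, monomial j (Y.coeff j) := by
    ext m
    rw [finsetSum_coeff]
    simp only [coeff_monomial]
    rw [Finset.sum_ite_eq' (range n) m (fun j => Y.coeff j)]
    split_ifs with hm
    · rfl
    · exact h m (by simpa using hm)
  conv_lhs => rw [e1]
  rw [J.ip_symm, J.ip_sum_left]
  refine sum_congr rfl fun j _ => ?_
  have h1 : (1 : F[X]) = monomial 0 1 := rfl
  rw [h1, J.ip_monomial, J.u_symm]
  ring

theorem W6_s_one (hc : J.IsC c) : W6_s hc 1 = 0 := by
  have := J.charZero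
  have h := W6_s_succ hc 0
  rw [W6_Y_zero, W6_s_zero, J.ip_zero_right, Derivation.map_one_eq_zero] at h
  simpa using h

/-- halves -/
theorem W6_half {g : F} {M : ℕ} (h : Wt J (2 * g) M) : Wt J g M := by
  have := J.charZero
  have e : g = 1 / 2 * (2 * g) := by ring
  rw [e]
  exact (Wt.of_isC (Jet.isC_one.div (Jet.isC_ofNat 2)) M).mul h

theorem W6_main (hc : J.IsC c) (n : ℕ) :
    (∀ j, n ≤ j → (W6_Y hc n).coeff j = 0)
    ∧ (1 ≤ n → (W6_Y hc n).coeff (n - 1) = (-1) ^ n)
    ∧ (2 ≤ n → (W6_Y hc n).coeff 0 = 0)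
    ∧ (∀ j, j < n → Wt J ((W6_Y hc n).coeff j) (n - 1 - j))
    ∧ Wt J (W6_s hc n) (n - 2) := by
  induction n using Nat.strong_induction_on with
  | _ n ih =>
    rcases n with _ | k
    · refine ⟨fun j _ => ?_, fun h => absurd h (by omega), fun h => absurd h (by omega),
        fun j h => absurd h (by omega), ?_⟩
      · rw [W6_Y_zero, Polynomial.coeff_zero]
      · rw [W6_s_zero]
        exact Wt.of_isC Jet.isC_one _
    · -- vanishing
      have hv : ∀ m, m ≤ k → ∀ j, m ≤ j → (W6_Y hc m).coeff j = 0 :=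
        fun m hm => (ih m (by omega)).1
      have hs : ∀ m, m ≤ k → Wt J (W6_s hc m) (m - 2) := fun m hm => (ih m (by omega)).2.2.2.2
      have hy : ∀ m, m ≤ k → ∀ j, j < m → Wt J ((W6_Y hc m).coeff j) (m - 1 - j) :=
        fun m hm => (ih m (by omega)).2.2.2.1
      refine ⟨fun j hj => ?_, fun _ => ?_, fun h2 => ?_, fun j hj => ?_, ?_⟩
      · obtain ⟨i, rfl⟩ : ∃ i, j = i + 1 := ⟨j - 1, by omega⟩
        rw [W6_coeff_succ, hv k le_rfl (i + 1) (by omega), hv k le_rfl i (by omega), map_zero,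
          sum_eq_zero fun l hl => by rw [hv (k - l) (by omega) (i + 1) (by omega), mul_zero]]
        ring
      · rw [Nat.add_sub_cancel]
        rcases k with _ | k
        · rw [W6_coeff_zero, W6_Y_zero, W6_s_zero]
          simp
        · rw [W6_coeff_succ, hv (k + 1) le_rfl (k + 1) le_rfl, map_zero,
            sum_eq_zero fun l hl => by rw [hv (k + 1 - l) (by omega) (k + 1) (by omega), mul_zero]]
          have h3 := (ih (k + 1) (by omega)).2.1 (by omega)
          rw [Nat.add_sub_cancel] at h3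
          rw [h3]
          ring
      · obtain ⟨l, rfl⟩ : ∃ l, k = l + 1 := ⟨k - 1, by omega⟩
        have h1 : (W6_Y hc 1).coeff 0 = -1 := by
          have := (ih 1 (by omega)).2.1 le_rfl
          simpa using this
        rw [W6_coeff_zero, sum_range_succ]
        have e1 : ∑ i ∈ range l, W6_s hc (i + 1) * (W6_Y hc (l + 1 - i)).coeff 0 = 0 := by
          refine sum_eq_zero fun i hi => ?_
          have hi' := mem_range.1 hi
          rw [(ih (l + 1 - i) (by omega)).2.2.1 (by omega), mul_zero]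
        have e2 : l + 1 - l = 1 := by omega
        rw [e1, e2, h1]
        have e3 : J.D ((W6_Y hc (l + 1)).coeff 0) = 0 := by
          rcases l with _ | l
          · rw [zero_add, h1, map_neg, Derivation.map_one_eq_zero, neg_zero]
          · rw [(ih (l + 1 + 1) (by omega)).2.2.1 (by omega), map_zero]
        rw [e3]
        ring
      · have hsum : Wt J (∑ i ∈ range k, W6_s hc (i + 1) * (W6_Y hc (k - i)).coeff j)
            (k + 1 - 1 - j) := by
          refine Wt.sum _ fun i hi => ?_
          have hi' := mem_range.1 hi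
          by_cases hji : j < k - i
          · exact ((hs (i + 1) (by omega)).mono (by omega)).mul
              ((hy (k - i) (by omega) j hji).mono (by omega))
          · rw [hv (k - i) (by omega) j (by omega), mul_zero]
            exact Wt.zero _
        have hD : Wt J (J.D ((W6_Y hc k).coeff j)) (k + 1 - 1 - j) := by
          by_cases hjk : j < k
          · exact (hy k le_rfl j hjk).D.mono (by omega)
          · rw [hv k le_rfl j (by omega), map_zero]
            exact Wt.zero _
        rcases j with _ | j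
        · rw [W6_coeff_zero]
          exact (hD.neg.sub ((hs k le_rfl).mono (by omega))).sub hsum
        · rw [W6_coeff_succ]
          exact (hD.neg.sub ((hy k le_rfl j (by omega)).mono (by omega))).sub hsum
      · apply W6_half
        rw [W6_s_succ]
        rcases k with _ | k
        · rw [W6_Y_zero, W6_s_zero, J.ip_zero_right, Derivation.map_one_eq_zero]
          simp only [range_zero, sum_empty, mul_zero, sub_zero]
          exact Wt.zero _
        · have h1 : Wt J (c * J.ip 1 (W6_Y hc (k + 1))) (k + 1 + 1 - 2) := by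
            refine (Wt.of_isC hc _).mul ?_
            rw [W6_ip _ (k + 1) (hv (k + 1) le_rfl)]
            refine Wt.sum _ fun j hj => ?_
            have hj' := mem_range.1 hj
            exact ((hy (k + 1) le_rfl j hj').mono (by omega)).mul ((Wt.u 0 j).mono (by omega))
          have h2 : Wt J (J.D (W6_s hc (k + 1))) (k + 1 + 1 - 2) := by
            rcases k with _ | k
            · rw [zero_add, W6_s_one, map_zero]
              exact Wt.zero _
            · exact (hs (k + 1 + 1) le_rfl).D.mono (by omega)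
          have h3 : Wt J (∑ i ∈ range (k + 1), W6_s hc (i + 1) * W6_s hc (k + 1 - i))
              (k + 1 + 1 - 2) := by
            refine Wt.sum _ fun i hi => ?_
            have hi' := mem_range.1 hi
            exact ((hs (i + 1) (by omega)).mono (by omega)).mul
              ((hs (k + 1 - i) (by omega)).mono (by omega))
          exact (h1.sub h2).sub h3

/-- the coefficients of `b_n = (Y_n, s_n)` -/
theorem wt_bs_A (hc : J.IsC c) (n : ℕ) :
    (∀ j, n ≤ j → (PowerSeries.coeff n (geoA hc).b).1.coeff j = 0)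
    ∧ (1 ≤ n → (PowerSeries.coeff n (geoA hc).b).1.coeff (n - 1) = (-1) ^ n)
    ∧ (2 ≤ n → (PowerSeries.coeff n (geoA hc).b).1.coeff 0 = 0)
    ∧ (∀ j, j < n → Wt J ((PowerSeries.coeff n (geoA hc).b).1.coeff j) (n - 1 - j))
    ∧ Wt J (PowerSeries.coeff n (geoA hc).b).2 (n - 2) := W6_main hc n

theorem W6_alt (hc : J.IsC c) {k : ℕ} (hk : Odd k) : alt J (k - 1) (W6_s hc (k + 1)) = -c := by
  have hch := J.charZero
  have h2 : alt J (k - 1) (2 * W6_s hc (k + 1)) = 2 * alt J (k - 1) (W6_s hc (k + 1)) := by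
    rw [alt_mul, alt_isC (Jet.isC_ofNat 2), zero_mul, zero_add]
  have key : alt J (k - 1) (2 * W6_s hc (k + 1)) = 2 * (-c) := by
    obtain ⟨l, rfl⟩ := hk
    rw [W6_s_succ, alt_sub, alt_sub, Nat.add_sub_cancel]
    have hv := (W6_main hc (2 * l + 1)).1
    have hy := (W6_main hc (2 * l + 1)).2.2.2.1
    have e1 : alt J (2 * l) (J.D (W6_s hc (2 * l + 1))) = 0 := by
      rcases l with _ | l
      · rw [mul_zero, zero_add, W6_s_one, map_zero]
        exact alt_isC Jet.isC_zero _
      · have h := (W6_main hc (2 * (l + 1) + 1)).2.2.2.2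
        have e : 2 * (l + 1) = (2 * (l + 1) + 1 - 2) + 1 := by omega
        have h3 := alt_D h
        rw [← e] at h3
        exact h3
    have e2 : alt J (2 * l) (∑ i ∈ range (2 * l + 1), W6_s hc (i + 1) * W6_s hc (2 * l + 1 - i))
        = 0 := by
      rw [alt_sum]
      refine sum_eq_zero fun i hi => ?_
      have hi' := mem_range.1 hi
      rcases l with _ | l
      · have hi0 : i = 0 := by omega
        subst hi0
        rw [zero_add, W6_s_one, zero_mul]
        exact alt_isC Jet.isC_zero _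
      · rw [alt_mul, alt_lt (W6_main hc (i + 1)).2.2.2.2 (by omega),
          alt_lt (W6_main hc (2 * (l + 1) + 1 - i)).2.2.2.2 (by omega)]
        ring
    have e3 : alt J (2 * l) (c * J.ip 1 (W6_Y hc (2 * l + 1))) = 2 * (-c) := by
      rw [alt_mul, alt_isC hc, zero_mul, zero_add, W6_ip _ (2 * l + 1) hv, alt_sum,
        sum_range_succ]
      have e4 : ∑ j ∈ range (2 * l), alt J (2 * l) ((W6_Y hc (2 * l + 1)).coeff j * J.u 0 j)
          = 0 := by
        refine sum_eq_zero fun j hj => ?_
        have hj' := mem_range.1 hj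
        rcases j with _ | j
        · rw [(W6_main hc (2 * l + 1)).2.2.1 (by omega), zero_mul]
          exact alt_isC Jet.isC_zero _
        · rw [alt_mul, alt_lt (hy (j + 1) (by omega)) (by omega),
            alt_lt (Wt.u (J := J) 0 (j + 1)) (by omega)]
          ring
      have e5 : (W6_Y hc (2 * l + 1)).coeff (2 * l) = -1 := by
        have h := (W6_main hc (2 * l + 1)).2.1 (by omega)
        rw [Nat.add_sub_cancel] at h
        rw [h, pow_succ, pow_mul]
        norm_num
      have e6 : alt J (2 * l) (J.u 0 (2 * l)) = 2 := by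
        have h := alt_u (J := J) 0 (2 * l)
        rw [zero_add] at h
        rw [h, pow_zero, pow_mul]
        norm_num
      rw [e4, e5, alt_mul, e6]
      have e7 : alt J (2 * l) (-1 : F) = 0 := alt_isC Jet.isC_one.neg _
      rw [e7]
      ring
    rw [e1, e2, e3]
    ring
  rw [h2] at key
  exact mul_left_cancel₀ two_ne_zero key

theorem alt_s_A (hc : J.IsC c) {n : ℕ} (hn : Even n) (h2 : 2 ≤ n) :
    alt J (n - 2) (PowerSeries.coeff n (geoA hc).b).2 = -c := by
  obtain ⟨k, rfl⟩ : ∃ k, n = k + 1 := ⟨n - 1, by omega⟩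
  have hk : Odd k := by
    rw [Nat.even_add_one, Nat.not_even_iff_odd] at hn
    exact hn
  have e : k + 1 - 2 = k - 1 := by omega
  rw [e]
  exact W6_alt hc hk

/-- conservation laws of the family (A) -/
theorem cons_A (hc : J.IsC c) {m : ℕ} (hm : Even m) : ∃ ρ σ : F,
    J.evo (Jet.K3 (fA J c)) ρ = J.D σ ∧ ∀ N, J.Bd ρ N → (J.del 1 ρ N).natDegree = m := by
  have hch := J.charZero
  by_cases h0 : c = 0
  · subst h0
    obtain ⟨k, rfl⟩ := hm
    have hf : Jet.K3 (fA J (0 : F)) = (X ^ 3 : F[X]) := by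
      rw [Jet.K3, fA]
      simp
    have hit : ∀ n : ℕ, J.DM^[n] (X ^ 3) = X ^ (3 + n) := by
      intro n
      induction n with
      | zero => simp
      | succ n ih => rw [Function.iterate_succ_apply', ih, J.DM_X_pow]; ring
    refine ⟨J.u k k, 2 * J.u k (k + 2) - J.u (k + 1) (k + 1), ?_, fun N hN => ?_⟩
    · rw [hf, J.evo_u, hit, J.ip_X_pow, J.ip_X_pow, map_sub, der_mul, der_ofNat, J.D_u, J.D_u,
        J.u_symm (3 + k) k, J.u_symm (k + 1 + 1) (k + 1)]
      have e1 : 3 + k = k + 2 + 1 := by omega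
      have e2 : k + 1 + 1 = k + 2 := by omega
      rw [e1, e2]
      ring
    · refine natDegree_del hN (Wt.u k k) ?_
      rw [alt_u]
      have e : ((-1 : F) ^ k + (-1) ^ k) = 2 * (-1) ^ k := by ring
      rw [e]
      exact mul_ne_zero two_ne_zero (pow_ne_zero _ (neg_ne_zero.2 one_ne_zero))
  · have h1 := (geoA hc).rho_cons (m + 2)
    refine ⟨W6_s hc (m + 2), (geoA hc).M (geoA hc).T (PowerSeries.coeff (m + 2 + 2) (geoA hc).b)
      + (geoA hc).M (geoA hc).a2 (PowerSeries.coeff (m + 2) (geoA hc).b), ?_, fun N hN => ?_⟩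
    · rw [W6_MT] at h1
      exact h1
    · have h2 := (W6_main hc (m + 2)).2.2.2.2
      have h3 := alt_s_A hc (n := m + 2) (by
        obtain ⟨k, rfl⟩ := hm
        exact ⟨k + 1, by omega⟩) (by omega)
      rw [Nat.add_sub_cancel] at h2 h3
      refine natDegree_del hN h2 ?_
      have h4 : alt J m (W6_s hc (m + 2)) = -c := h3
      rw [h4]
      exact neg_ne_zero.2 h0

end Pool.Agent.Lib.MP_4d1bc1_mp.Kv.Hier
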