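import Pool.Agent.Lib.MP_4d1bc1_mp.Kv.Main
import Pool.Agent.Lib.MP_4d1bc1_mp.Kv.Hier.RowW5
import Pool.Agent.Lib.MP_4d1bc1_mp.Kv.Hier.RowW6

set_option autoImplicit false

/-! Conservation laws of every even order at least four for the equations of the list. -/

namespace Pool.Agent.Lib.MP_4d1bc1_mp.Kv.Hier

open Polynomial

universe u

variable {F : Type u} [Field F] [Algebra ℝ F] {J : Jet F}

private theorem shf_iter_add (G H : F[X]) (i : ℕ) : J.DM^[i] (G + H) = J.DM^[i] G + J.DM^[i] H := by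
  induction i with
  | zero => rfl
  | succ i ih =>
    rw [Function.iterate_succ_apply', Function.iterate_succ_apply', Function.iterate_succ_apply', ih, map_add]

private theorem shf_iter_C {c : F} (hc : J.IsC c) (G : F[X]) (i : ℕ) :
    J.DM^[i] (C c * G) = C c * J.DM^[i] G := by
  induction i with
  | zero => rfl
  | succ i ih =>
    rw [Function.iterate_succ_apply', Function.iterate_succ_apply', ih, J.DM_C_mul, hc.D, C_0, zero_mul, zero_add]

private theorem shf_iter_X (i : ℕ) : J.DM^[i] (X : F[X]) = X ^ (i + 1) := by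
  induction i with
  | zero => rw [Function.iterate_zero, id_eq, zero_add, pow_one]
  | succ i ih => rw [Function.iterate_succ_apply', ih, J.DM_X_pow]

/-- the flow of `u_t = u_xxx + (f + c) u_x` -/
theorem evo_shift {f c : F} (hc : J.IsC c) (g : F) :
    J.evo (Jet.K3 (f + c)) g = J.evo (Jet.K3 f) g + c * J.D g := by
  have e : Jet.K3 (f + c) = Jet.K3 f + C c * X := by
    unfold Jet.K3
    rw [C_add]
    ring
  have hev : ∀ G : F[X], J.T.IsVF (J.evo G) := fun G => J.isVF_fld _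
  rw [e]
  refine J.vf_ext (δ := J.evo (Jet.K3 f + C c * X)) (ε := fun g => J.evo (Jet.K3 f) g + c * J.D g)
    (hev _) ((hev _).add ((J.isVF_fld _).mul c)) (fun i j => ?_) g
  simp only [J.evo_u, shf_iter_add, shf_iter_C hc, shf_iter_X, J.ip_add_left, J.ip_add_right, J.ip_C_mul_left,
    J.ip_C_mul_right, J.ip_X_pow, J.D_u]
  ring

theorem cons_list {f : F} (h : InList J f) {m : ℕ} (hm : Even m) (h4 : 4 ≤ m) : ∃ ρ σ : F,
    J.evo (Jet.K3 f) ρ = J.D σ ∧ ∀ N, J.Bd ρ N → (J.del 1 ρ N).natDegree = m := by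
  have := J.charZero
  have key : ∀ {f c : F}, J.IsC c → (∃ ρ σ : F, J.evo (Jet.K3 f) ρ = J.D σ ∧
      ∀ N, J.Bd ρ N → (J.del 1 ρ N).natDegree = m) → ∃ ρ σ : F,
      J.evo (Jet.K3 (f + c)) ρ = J.D σ ∧ ∀ N, J.Bd ρ N → (J.del 1 ρ N).natDegree = m := by
    rintro f c hc ⟨ρ, σ, h1, h2⟩
    refine ⟨ρ, σ + c * ρ, ?_, h2⟩
    rw [evo_shift hc, h1, map_add, hc.D_mul]
  rcases h with ⟨c1, c0, h1, h0, rfl⟩ | ⟨a, κ, w, c0, R, hc, rfl⟩
  · have hc : J.IsC (2 / 3 * c1) := ((Jet.isC_ofNat 2).div (Jet.isC_ofNat 3)).mul h1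
    have e : fA J (2 / 3 * c1) = c1 * J.u 0 0 := by rw [fA]; ring
    have h2 := cons_A hc hm
    rw [e] at h2
    exact key h0 h2
  · exact key hc (cons_BC R hm h4)

end Pool.Agent.Lib.MP_4d1bc1_mp.Kv.Hier
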