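import Pool.Agent.Lib.MP_4d1bc1_mp.Kv.Hier.Abs0
import Pool.Agent.Lib.MP_4d1bc1_mp.Kv.RedDef
import Pool.Agent.Lib.MP_4d1bc1_mp.Kv.Rows.RowRedD

set_option autoImplicit false
set_option linter.unusedSimpArgs false
set_option linter.unusedSectionVars false

/-! The structure for the families (B), (C): definitions. The polynomial `∑ g_i X^i` stands for
`∑ g_i T_i`, `T_i = D^i T`, `T = γ_x`; its projection to the space of `u` is `∑ g_i u_(i+1)`,
that is `X * G`. -/

namespace Pool.Agent.Lib.MP_4d1bc1_mp.Kv.Hier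

open Finset Polynomial

universe u

variable {F : Type u} [Field F] [Algebra ℝ F] (J : Jet F)

/-- the flow `γ_τ = G` on the module spanned by the `T_i`: `T_i ↦ D^(i+1) G` -/
noncomputable def tB (G : F[X]) : F[X] →+ F[X] where
  toFun W := cm (J.evo (X * G)) W + W.sum fun i c => C c * J.DM^[i] (J.DM G)
  map_zero' := by simp
  map_add' U V := by
    rw [map_add, Polynomial.sum_add_index _ _ _ (by simp) (by intro a b c; rw [C_add, add_mul])]
    ring

variable (a w : F)

/-- `τ = a u_[0,1]/Z` -/
noncomputable def tau : F := a * J.u 0 1 * (rZ J a)⁻¹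

/-- the connection in the coordinates `(e1, e0)` -/
noncomputable def nab (e : F × F) : F × F :=
  (J.D e.1 - a * J.u 1 2 * (rZ J a)⁻¹ * e.1 - w * rb J a 2 * e.2,
   J.D e.2 + a * rb J a 2 * (rZ J a)⁻¹ * e.1 + tau J a * w * rb J a 2 * e.2)

/-- the coordinates of `T_n` -/
noncomputable def eps : ℕ → F × F
  | 0 => (rZ J a, 0)
  | n + 1 => nab J a w (eps n)

/-- the coordinate `e1` of a vector -/
noncomputable def e1 : F[X] →ₗ[F] F :=
  Polynomial.lsum fun i => LinearMap.toSpanSingleton F F (eps J a w i).1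

/-- the coordinate `e0` of a vector -/
noncomputable def e0 : F[X] →ₗ[F] F :=
  Polynomial.lsum fun i => LinearMap.toSpanSingleton F F (eps J a w i).2

/-- the scalar product of the `T_i` -/
noncomputable def MB : F[X] →ₗ[F] F[X] →ₗ[F] F :=
  LinearMap.mk₂ F (fun v v' => (rZ J a)⁻¹ * e1 J a w v * e1 J a w v'
      + w / a * e0 J a w v * e0 J a w v' - a * J.ip (X * v) (X * v'))
    (by intro v v' v''; simp only [map_add, mul_add, J.ip_add_left]; ring)
    (by
      intro c v v'
      rw [smul_eq_C_mul, mul_left_comm, J.ip_C_mul_left, ← smul_eq_C_mul, map_smul, map_smul]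
      simp only [smul_eq_mul]; ring)
    (by intro v v' v''; simp only [map_add, mul_add, J.ip_add_right]; ring)
    (by
      intro c v v'
      rw [smul_eq_C_mul, mul_left_comm, J.ip_C_mul_right, ← smul_eq_C_mul, map_smul, map_smul]
      simp only [smul_eq_mul]; ring)

theorem MB_apply (v v' : F[X]) : MB J a w v v' = (rZ J a)⁻¹ * e1 J a w v * e1 J a w v'
      + w / a * e0 J a w v * e0 J a w v' - a * J.ip (X * v) (X * v') := rfl

theorem MB_symm (v v' : F[X]) : MB J a w v v' = MB J a w v' v := by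
  rw [MB_apply, MB_apply, J.ip_symm]; ring

/-- the product with `γ` -/
noncomputable def yB : F[X] →ₗ[F] F where
  toFun v := e0 J a w v + tau J a * e1 J a w v - a * J.ip 1 (X * v)
  map_add' v v' := by simp only [map_add, mul_add, J.ip_add_right]; ring
  map_smul' c v := by
    simp only [smul_eq_C_mul, mul_left_comm X, J.ip_C_mul_right]
    simp only [← smul_eq_C_mul, map_smul, smul_eq_mul, RingHom.id_apply]
    ring

theorem yB_apply (v : F[X]) : yB J a w v
    = e0 J a w v + tau J a * e1 J a w v - a * J.ip 1 (X * v) := rfl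

/-- `γ_τ = G` preserves the length of `T` and, infinitesimally, the sphere -/
def Tan (J : Jet F) (a w : F) (G : F[X]) : Prop :=
  MB J a w 1 (J.DM G) = 0 ∧ yB J a w G = 0

/-- the flow in the coordinates `(e1, e0)` -/
noncomputable def nabT (J : Jet F) (a w : F) (G : F[X]) (e : F × F) : F × F :=
  (J.evo (X * G) e.1 - (rZ J a)⁻¹ * e1 J a w (J.DM G) * e.1
      - w / a * e0 J a w (J.DM G) * e.2,
   J.evo (X * G) e.2 + (rZ J a)⁻¹ * e0 J a w (J.DM G) * e.1
      - w / a * (e0 J a w G - tau J a * e0 J a w (J.DM G)) * e.2)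

end Pool.Agent.Lib.MP_4d1bc1_mp.Kv.Hier
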