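import Pool.Agent.Lib.MP_4d1bc1_mp.Kv.Base

set_option autoImplicit false
set_option linter.unusedSimpArgs false
set_option linter.unusedSectionVars false

/-! Power series with coefficients in a module with connections and a scalar product. -/

namespace Pool.Agent.Lib.MP_4d1bc1_mp.Kv.Hier

open Finset PowerSeries

universe u

section basic

variable {A B C' E : Type u} [CommRing A] [CommRing B] [CommRing C'] [CommRing E]

/-- an additive map acting on the coefficients of a power series -/
noncomputable def cw (φ : A →+ B) : A⟦X⟧ →+ B⟦X⟧ where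
  toFun f := PowerSeries.mk fun n => φ (coeff n f)
  map_zero' := by ext n; simp
  map_add' f g := by ext n; simp

@[simp] theorem coeff_cw (φ : A →+ B) (f : A⟦X⟧) (n : ℕ) : coeff n (cw φ f) = φ (coeff n f) := by
  simp [cw]

theorem cw_X_mul (φ : A →+ B) (f : A⟦X⟧) : cw φ (X * f) = X * cw φ f := by
  ext n
  cases n with
  | zero => simp
  | succ n => simp [coeff_succ_X_mul]

theorem cw_X_pow_mul (φ : A →+ B) (f : A⟦X⟧) (k : ℕ) : cw φ (X ^ k * f) = X ^ k * cw φ f := by
  induction k with
  | zero => simp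
  | succ k ih => rw [pow_succ', mul_assoc, cw_X_mul, ih, pow_succ', mul_assoc]

theorem cw_C (φ : A →+ B) (v : A) : cw φ (C v) = C (φ v) := by
  ext n
  rw [coeff_cw, coeff_C, coeff_C]
  split_ifs <;> simp

theorem cw_cw (φ : A →+ B) (ψ : B →+ E) (φ' : A →+ C') (ψ' : C' →+ E)
    (h : ∀ v, ψ (φ v) = ψ' (φ' v)) (f : A⟦X⟧) : cw ψ (cw φ f) = cw ψ' (cw φ' f) := by
  ext n; simp [h]

end basic

variable {F : Type u} [Field F] [Algebra ℝ F] {A : Type u} [CommRing A] [Algebra F A]

/-- a derivation as an additive map -/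
noncomputable def ad (δ : Derivation ℝ F F) : F →+ F where
  toFun := δ
  map_zero' := map_zero _
  map_add' := map_add _

@[simp] theorem ad_apply (δ : Derivation ℝ F F) (f : F) : ad δ f = δ f := rfl

/-- scalar series as vector series -/
noncomputable def io (A : Type u) [CommRing A] [Algebra F A] : F⟦X⟧ →+* A⟦X⟧ :=
  PowerSeries.map (algebraMap F A)

@[simp] theorem coeff_io (s : F⟦X⟧) (n : ℕ) : coeff n (io A s) = algebraMap F A (coeff n s) := by
  simp [io]

theorem io_X : io A (X : F⟦X⟧) = X := by simp [io]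

theorem io_C (c : F) : io A (C c) = C (algebraMap F A c) := by simp [io]

/-- a bilinear form extended to power series -/
noncomputable def bi (M : A →ₗ[F] A →ₗ[F] F) (f g : A⟦X⟧) : F⟦X⟧ :=
  PowerSeries.mk fun n => ∑ p ∈ antidiagonal n, M (coeff p.1 f) (coeff p.2 g)

variable (M : A →ₗ[F] A →ₗ[F] F)

theorem coeff_bi (f g : A⟦X⟧) (n : ℕ) :
    coeff n (bi M f g) = ∑ p ∈ antidiagonal n, M (coeff p.1 f) (coeff p.2 g) := by
  simp [bi]


end Pool.Agent.Lib.MP_4d1bc1_mp.Kv.Hier
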