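import Pool.Agent.Lib.MP_4d1bc1_mp.Kv.Hier.AA0

set_option autoImplicit false
set_option linter.unusedSimpArgs false
set_option linter.unusedSectionVars false

/-! Row hi-A1: the structure of the family (A), compatibility. -/

namespace Pool.Agent.Lib.MP_4d1bc1_mp.Kv.Hier

open Finset Polynomial

universe u

variable {F : Type u} [Field F] [Algebra ℝ F] {J : Jet F} {c : F}

theorem A1_DM_one (J : Jet F) : J.DM (1 : F[X]) = X := by
  have := J.DM_X_pow 0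
  simpa using this

theorem A1_D_ip_one (J : Jet F) (Y : F[X]) : J.D (J.ip 1 Y) = J.ip X Y + J.ip 1 (J.DM Y) := by
  rw [J.D_ip, A1_DM_one]

theorem A1_D_ip_X (J : Jet F) (Y : F[X]) :
    J.D (J.ip X Y) = J.ip (X ^ 2) Y + J.ip X (J.DM Y) := by
  rw [J.D_ip, J.DM_X]

theorem A1_ip_eta (J : Jet F) (c : F) (Y : F[X]) :
    J.ip (eta J c) Y = J.ip (X ^ 2) Y + c / 2 * J.u 0 0 * J.ip 1 Y := by
  rw [eta, J.ip_add_left, J.ip_C_left]

theorem A1_DM_eta (hc : J.IsC c) :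
    J.DM (eta J c) = X ^ 3 + C (c * J.u 0 1) + C (c / 2 * J.u 0 0) * X := by
  have h2 : J.IsC (c / 2) := hc.div (J.isC_ofNat 2)
  have := J.charZero
  rw [eta, map_add, J.DM_X_pow, J.DM_C, h2.D_mul, J.D_u, J.u_symm 1 0]
  have e : c / 2 * (J.u 0 1 + J.u 0 1) = c * J.u 0 1 := by ring
  rw [e]
  ring

theorem A1_K3 (J : Jet F) (c : F) : Jet.K3 (fA J c) = X ^ 3 + C (3 / 2 * c * J.u 0 0) * X := rfl

theorem DA_tA (hc : J.IsC c) (v : F[X] × F) : DA J c (tA J c v) = tA J c (DA J c v) := by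
  obtain ⟨Y, s⟩ := v
  have := J.charZero
  apply Prod.ext
  · change J.DM (J.evoV (Jet.K3 (fA J c)) Y + C (c * J.ip X Y) - C (c * J.ip 1 Y) * X
      + C s * eta J c) + C (J.evo (Jet.K3 (fA J c)) s - c * J.ip (eta J c) Y)
      = J.evoV (Jet.K3 (fA J c)) (J.DM Y + C s) + C (c * J.ip X (J.DM Y + C s))
        - C (c * J.ip 1 (J.DM Y + C s)) * X + C (J.D s - c * J.ip 1 Y) * eta J c
    rw [map_add, map_sub, map_add, map_add, J.DM_C_mul, J.DM_C_mul, J.DM_C, J.DM_X, A1_DM_eta hc,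
      J.evoV_DM, J.evoV_C, hc.D_mul, hc.D_mul, A1_D_ip_one, A1_D_ip_X, J.ip_add_right,
      J.ip_add_right, J.ip_C_right, J.ip_C_right, J.ip_X_1, J.ip_1_1, A1_ip_eta, A1_K3, eta,
      J.u_symm 1 0]
    generalize J.evo (X ^ 3 + C (3 / 2 * c * J.u 0 0) * X) s = es
    generalize J.DM (J.evoV (X ^ 3 + C (3 / 2 * c * J.u 0 0) * X) Y) = eY
    simp only [C_mul, C_add, C_sub]
    have e2 : (C (3 / 2 : F)) = 3 * C (1 / 2 : F) := by
      rw [show (3 / 2 : F) = 3 * (1 / 2) by ring, C_mul, map_ofNat C]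
    have e1 : C (c / 2 : F) = C c * C (1 / 2 : F) := by
      rw [← C_mul]; congr 1; ring
    have e3 : (2 : F[X]) * C (1 / 2 : F) = 1 := by
      rw [← map_ofNat C 2, ← C_mul, ← C_1]; congr 1; norm_num
    rw [e1, e2]
    linear_combination (C s * C c * C (J.u 0 0) * X) * (-e3)
  · change J.D (J.evo (Jet.K3 (fA J c)) s - c * J.ip (eta J c) Y)
        - c * J.ip 1 (J.evoV (Jet.K3 (fA J c)) Y + C (c * J.ip X Y) - C (c * J.ip 1 Y) * X
          + C s * eta J c)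
      = J.evo (Jet.K3 (fA J c)) (J.D s - c * J.ip 1 Y) - c * J.ip (eta J c) (J.DM Y + C s)
    rw [map_sub, map_sub, hc.D_mul, hc.evo_mul, J.evo_D, J.D_ip, A1_DM_eta hc, J.evo_ip,
      J.evoV_one, A1_K3]
    generalize J.D (J.evo (X ^ 3 + C (3 / 2 * c * J.u 0 0) * X) s) = es
    generalize J.evoV (X ^ 3 + C (3 / 2 * c * J.u 0 0) * X) Y = eY
    generalize J.DM Y = dY
    simp only [J.ip_add_left, J.ip_add_right, J.ip_sub_right, J.ip_C_mul_left, J.ip_C_mul_right,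
      J.ip_C_left, J.ip_C_right, eta, J.ip_1_1, J.ip_1_X, J.ip_X_1, J.ip_powX_1, J.ip_1_powX,
      J.u_symm 2 0]
    ring

theorem D_MA (hc : J.IsC c) (v w : F[X] × F) :
    J.D (MA J c v w) = MA J c (DA J c v) w + MA J c v (DA J c w) := by
  obtain ⟨Y, s⟩ := v
  obtain ⟨Z, r⟩ := w
  rw [MA_apply, MA_apply, MA_apply]
  change J.D (c * J.ip Y Z + s * r) = c * J.ip (J.DM Y + C s) Z + (J.D s - c * J.ip 1 Y) * r
    + (c * J.ip Y (J.DM Z + C r) + s * (J.D r - c * J.ip 1 Z))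
  rw [map_add, hc.D_mul, J.D_ip, der_mul, J.ip_add_left, J.ip_add_right, J.ip_C_left,
    J.ip_C_right, J.ip_symm Y 1]
  ring

theorem t_MA (hc : J.IsC c) (v w : F[X] × F) : J.evo (Jet.K3 (fA J c)) (MA J c v w)
    = MA J c (tA J c v) w + MA J c v (tA J c w) := by
  obtain ⟨Y, s⟩ := v
  obtain ⟨Z, r⟩ := w
  rw [MA_apply, MA_apply, MA_apply]
  change J.evo (Jet.K3 (fA J c)) (c * J.ip Y Z + s * r)
    = c * J.ip (J.evoV (Jet.K3 (fA J c)) Y + C (c * J.ip X Y) - C (c * J.ip 1 Y) * X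
        + C s * eta J c) Z + (J.evo (Jet.K3 (fA J c)) s - c * J.ip (eta J c) Y) * r
      + (c * J.ip Y (J.evoV (Jet.K3 (fA J c)) Z + C (c * J.ip X Z) - C (c * J.ip 1 Z) * X
        + C r * eta J c) + s * (J.evo (Jet.K3 (fA J c)) r - c * J.ip (eta J c) Z))
  rw [map_add, hc.evo_mul, J.evo_ip, der_mul]
  simp only [J.ip_add_left, J.ip_add_right, J.ip_sub_left, J.ip_sub_right, J.ip_C_mul_left,
    J.ip_C_mul_right, J.ip_C_left, J.ip_C_right, J.ip_symm Y 1, J.ip_symm Y X,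
    J.ip_symm Y (eta J c)]
  ring

end Pool.Agent.Lib.MP_4d1bc1_mp.Kv.Hier
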