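import Pool.Agent.Lib.MP_4d1bc1_mp.Kv.Hier.Abs0

set_option autoImplicit false
set_option linter.unusedSimpArgs false
set_option linter.unusedSectionVars false

/-! Row hi-B1: the Riccati equation. -/

namespace Pool.Agent.Lib.MP_4d1bc1_mp.Kv.Hier

open Finset PowerSeries

universe u

variable {F : Type u} [Field F] [Algebra ℝ F] {A : Type u} [CommRing A] [Algebra F A]
  (DA : A →+ A) (M : A →ₗ[F] A →ₗ[F] F) (T : A)

theorem RowB1_coeff (n : ℕ) : coeff n (bS DA M T) = bs DA M T n := by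
  unfold bS
  rw [coeff_mk]

theorem RowB1_s (n : ℕ) : coeff n (bi M (C T) (bS DA M T)) = M T (bs DA M T n) := by
  rw [coeff_bi, Finset.sum_eq_single (0, n)]
  · rw [RowB1_coeff, coeff_C, if_pos rfl]
  · intro p hp hp0
    have h : p.1 ≠ 0 := by
      intro h0
      apply hp0
      rw [HasAntidiagonal.mem_antidiagonal] at hp
      ext
      · exact h0
      · show p.2 = n
        omega
    rw [coeff_C, if_neg h, map_zero, LinearMap.zero_apply]
  · intro h
    exact absurd (by rw [HasAntidiagonal.mem_antidiagonal, zero_add]) h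

theorem RowB1_sum (k : ℕ) : ∑ p ∈ antidiagonal (k + 1), M T (bs DA M T p.1) • bs DA M T p.2 =
    ∑ i : Fin k, M T (bs DA M T (i.1 + 1)) • bs DA M T (k - i.1) + M T T • bs DA M T (k + 1) +
      M T (bs DA M T (k + 1)) • T := by
  rw [Finset.Nat.sum_antidiagonal_eq_sum_range_succ_mk, Finset.sum_range_succ, Finset.sum_range_succ',
    Finset.sum_range]
  have h0 : bs DA M T 0 = T := by rw [bs]
  simp only [Nat.sub_zero, Nat.sub_self, Nat.add_sub_add_right, h0]

theorem RowB1_M (hT : M T T = 1) (h2 : (2 : F) ≠ 0) (k : ℕ) : M T (bs DA M T (k + 1)) =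
    -(1 / 2 * (M T (DA (bs DA M T k)) + ∑ i : Fin k, M T (bs DA M T (i.1 + 1)) * M T (bs DA M T (k - i.1)))) := by
  have h : bs DA M T (k + 1) = -DA (bs DA M T k)
      + (1 / 2 * (M T (DA (bs DA M T k)) + ∑ i : Fin k, M T (bs DA M T (i.1 + 1)) * M T (bs DA M T (k - i.1)))) • T
      - ∑ i : Fin k, M T (bs DA M T (i.1 + 1)) • bs DA M T (k - i.1) := by
    rw [bs]
  rw [h, map_sub, map_add, map_neg, map_smul, hT, map_sum, smul_eq_mul, mul_one]
  simp only [map_smul, smul_eq_mul]
  field_simp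
  ring

/-- the Riccati equation -/
theorem bS_eq (hT : M T T = 1) (h2 : (2 : F) ≠ 0) :
    X * cw DA (bS DA M T) = C T - io A (bi M (C T) (bS DA M T)) * bS DA M T := by
  ext n
  rcases n with _ | k
  · rw [map_sub, coeff_zero_X_mul, coeff_C, if_pos rfl, coeff_mul, HasAntidiagonal.antidiagonal_zero, sum_singleton, coeff_io,
      RowB1_s, RowB1_coeff]
    have h0 : bs DA M T 0 = T := by rw [bs]
    rw [h0, hT, map_one, one_mul, sub_self]
  · rw [map_sub, coeff_succ_X_mul, coeff_cw, coeff_C, if_neg (Nat.succ_ne_zero k), coeff_mul, RowB1_coeff]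
    have h1 : ∑ p ∈ antidiagonal (k + 1), coeff p.1 (io A (bi M (C T) (bS DA M T))) * coeff p.2 (bS DA M T) =
        ∑ p ∈ antidiagonal (k + 1), M T (bs DA M T p.1) • bs DA M T p.2 :=
      sum_congr rfl fun p _ => by rw [coeff_io, RowB1_s, RowB1_coeff, Algebra.smul_def]
    rw [h1, RowB1_sum, RowB1_M DA M T hT h2, hT, one_smul]
    have h : bs DA M T (k + 1) = -DA (bs DA M T k)
      + (1 / 2 * (M T (DA (bs DA M T k)) + ∑ i : Fin k, M T (bs DA M T (i.1 + 1)) * M T (bs DA M T (k - i.1)))) • T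
      - ∑ i : Fin k, M T (bs DA M T (i.1 + 1)) • bs DA M T (k - i.1) := by
      rw [bs]
    rw [h, neg_smul]
    abel

end Pool.Agent.Lib.MP_4d1bc1_mp.Kv.Hier
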