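import Pool.Agent.Lib.MP_4d1bc1_mp.Kv.Hier.Abs0

set_option autoImplicit false
set_option linter.unusedSimpArgs false
set_option linter.unusedSectionVars false

/-! Row hi-B2: the leading terms of `b`. -/

namespace Pool.Agent.Lib.MP_4d1bc1_mp.Kv.Hier

open Finset PowerSeries

universe u

variable {F : Type u} [Field F] [Algebra ℝ F] {A : Type u} [CommRing A] [Algebra F A]
  (DA : A →+ A) (M : A →ₗ[F] A →ₗ[F] F) (T : A)

theorem RowB2_sign (n : ℕ) (v : A) : DA (((-1 : F) ^ n) • v) = ((-1 : F) ^ n) • DA v := by
  rcases Nat.even_or_odd n with h | h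
  · rw [h.neg_one_pow, one_smul, one_smul]
  · rw [h.neg_one_pow, neg_one_smul, neg_one_smul, map_neg]

/-- the leading terms of `b` -/
theorem bs_lead (hT : M T T = 1) (h2 : (2 : F) ≠ 0) (V : ℕ → Submodule F A) (hV : Monotone V)
    (h0 : T ∈ V 0) (h1 : ∀ n v, v ∈ V n → DA v ∈ V (n + 1)) (n : ℕ) :
    bs DA M T n ∈ V n ∧
      ∀ k, n = k + 1 → bs DA M T n - ((-1 : F) ^ n) • DA^[n] T ∈ V k := by
  induction n using Nat.strong_induction_on with
  | _ n ih =>
    rcases n with _ | k
    · refine ⟨?_, fun k hk => by omega⟩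
      rw [bs]; exact h0
    · have hTV : ∀ m, T ∈ V m := fun m => hV (Nat.zero_le m) h0
      have hsum : ∑ i : Fin k, M T (bs DA M T (i.1 + 1)) • bs DA M T (k - i.1) ∈ V k := by
        refine Submodule.sum_mem _ fun i _ => Submodule.smul_mem _ _ ?_
        exact hV (Nat.sub_le k i.1) (ih (k - i.1) (by omega)).1
      have key : bs DA M T (k + 1) - ((-1 : F) ^ (k + 1)) • DA^[k + 1] T ∈ V k := by
        have hr : DA (bs DA M T k - ((-1 : F) ^ k) • DA^[k] T) ∈ V k := by
          rcases k with _ | j
          · have : bs DA M T 0 - ((-1 : F) ^ 0) • DA^[0] T = 0 := by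
              rw [bs]; simp
            rw [this, map_zero]; exact Submodule.zero_mem _
          · exact h1 j _ ((ih (j + 1) (by omega)).2 j rfl)
        rw [map_sub, RowB2_sign, ← Function.iterate_succ_apply' (f := DA)] at hr
        rw [bs]
        have e : ∀ c : F, ∀ S : A, (-DA (bs DA M T k) + c • T - S) - ((-1 : F) ^ (k + 1)) • DA^[k + 1] T
            = -(DA (bs DA M T k) - ((-1 : F) ^ k) • DA^[k + 1] T) + c • T - S := by
          intro c S
          rw [pow_succ, mul_neg_one, neg_smul]
          abel
        rw [e]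
        exact Submodule.sub_mem _ (Submodule.add_mem _ (Submodule.neg_mem _ hr)
          (Submodule.smul_mem _ _ (hTV k))) hsum
      refine ⟨?_, ?_⟩
      · have hit : ∀ m, DA^[m] T ∈ V m := by
          intro m
          induction m with
          | zero => exact h0
          | succ m ihm => rw [Function.iterate_succ_apply']; exact h1 m _ ihm
        have := Submodule.add_mem _ (hV (Nat.le_succ k) key)
          (Submodule.smul_mem _ ((-1 : F) ^ (k + 1)) (hit (k + 1)))
        rwa [sub_add_cancel] at this
      · intro j hj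
        obtain rfl : k = j := by omega
        exact key

end Pool.Agent.Lib.MP_4d1bc1_mp.Kv.Hier
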