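import Pool.Agent.Lib.MP_4d1bc1_mp.Kv.Hier.BC0

set_option autoImplicit false
set_option linter.unusedSimpArgs false
set_option linter.unusedSectionVars false

/-! Row hi-C1: flows on the module. -/

namespace Pool.Agent.Lib.MP_4d1bc1_mp.Kv.Hier

open Finset Polynomial

universe u

variable {F : Type u} [Field F] [Algebra ℝ F] (J : Jet F)

theorem DM_X_mul (v : F[X]) : J.DM (X * v) = X * J.DM v := by
  rw [J.DM_apply, J.DM_apply, cm_mul, cm_X]
  ring

theorem RowC1_apply (G W : F[X]) : tB J G W
    = cm (J.evo (X * G)) W + W.sum fun i c => C c * J.DM^[i] (J.DM G) := rfl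

theorem tB_C_mul (G : F[X]) (c : F) (v : F[X]) :
    tB J G (C c * v) = C (J.evo (X * G) c) * v + C c * tB J G v := by
  rw [RowC1_apply, RowC1_apply, cm_mul, cm_C]
  have : ((C c * v).sum fun b c => C c * J.DM^[b] (J.DM G))
      = C c * (v.sum fun b c => C c * J.DM^[b] (J.DM G)) := by
    rw [← smul_eq_C_mul, Polynomial.sum_smul_index _ _ _ (by simp), Polynomial.sum_def,
      Polynomial.sum_def, mul_sum]
    exact sum_congr rfl fun i _ => by rw [C_mul]; ring
  rw [this]
  ring

theorem tB_X_pow (G : F[X]) (n : ℕ) : tB J G (X ^ n) = J.DM^[n] (J.DM G) := by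
  rw [RowC1_apply, cm_X_pow, ← monomial_one_right_eq_X_pow,
    Polynomial.sum_monomial_index _ _ (by simp)]
  simp

theorem tB_DM (G v : F[X]) : tB J G (J.DM v) = J.DM (tB J G v) := by
  induction v using Polynomial.induction_on' with
  | add U V hU hV => rw [map_add, map_add, hU, hV, map_add, map_add]
  | monomial n a =>
    rw [← C_mul_X_pow_eq_monomial, J.DM_C_mul, J.DM_X_pow, map_add, tB_C_mul, tB_C_mul,
      tB_C_mul, tB_X_pow, tB_X_pow, map_add, J.DM_C_mul, J.DM_X_pow, J.DM_C_mul, J.evo_D,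
      Function.iterate_succ_apply']
    ring

theorem RowC1_iter (G : F[X]) (n : ℕ) : X * J.DM^[n] G = J.DM^[n] (X * G) := by
  induction n with
  | zero => rfl
  | succ n ih =>
    rw [Function.iterate_succ_apply', Function.iterate_succ_apply', ← ih, DM_X_mul]

theorem X_mul_tB (G v : F[X]) : X * tB J G v = J.evoV (X * G) (X * v) := by
  induction v using Polynomial.induction_on' with
  | add U V hU hV => rw [map_add, mul_add, mul_add, map_add, hU, hV]
  | monomial n a =>
    rw [← C_mul_X_pow_eq_monomial, tB_C_mul, tB_X_pow]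
    have h1 : (X : F[X]) * (C a * X ^ n) = C a * X ^ (n + 1) := by ring
    rw [h1, J.evoV_C_mul, J.evoV_X_pow, mul_add, Function.iterate_succ_apply]
    have h2 : (X : F[X]) * (C a * J.DM^[n] (J.DM G)) = C a * (X * J.DM^[n] (J.DM G)) := by ring
    rw [h2, RowC1_iter, ← DM_X_mul]
    ring

end Pool.Agent.Lib.MP_4d1bc1_mp.Kv.Hier
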