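import Pool.Agent.Lib.MP_4d1bc1_mp.Kv.Hier.BC0

set_option autoImplicit false
set_option linter.unusedSimpArgs false
set_option linter.unusedSectionVars false

/-! Row hi-C2: the coordinates. -/

namespace Pool.Agent.Lib.MP_4d1bc1_mp.Kv.Hier

open Finset Polynomial

universe u

variable {F : Type u} [Field F] [Algebra ℝ F] (J : Jet F) (a w : F)

theorem RowC2_e1_mon (c : F) (n : ℕ) :
    e1 J a w (C c * X ^ n) = c * (eps J a w n).1 := by
  rw [C_mul_X_pow_eq_monomial, e1, Polynomial.lsum_apply, Polynomial.sum_monomial_index]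
  · simp
  · simp

theorem RowC2_e0_mon (c : F) (n : ℕ) :
    e0 J a w (C c * X ^ n) = c * (eps J a w n).2 := by
  rw [C_mul_X_pow_eq_monomial, e0, Polynomial.lsum_apply, Polynomial.sum_monomial_index]
  · simp
  · simp

theorem e1_one : e1 J a w 1 = rZ J a := by
  have h := RowC2_e1_mon J a w 1 0
  simpa [eps] using h

theorem e0_one : e0 J a w 1 = 0 := by
  have h := RowC2_e0_mon J a w 1 0
  simpa [eps] using h

theorem e1_DM (v : F[X]) : e1 J a w (J.DM v) = J.D (e1 J a w v)
    - a * J.u 1 2 * (rZ J a)⁻¹ * e1 J a w v - w * rb J a 2 * e0 J a w v := by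
  induction v using Polynomial.induction_on' with
  | add p q hp hq => simp only [map_add, hp, hq, mul_add]; ring
  | monomial n c =>
    rw [← C_mul_X_pow_eq_monomial, J.DM_C_mul, J.DM_X_pow, map_add, RowC2_e1_mon, RowC2_e1_mon,
      RowC2_e1_mon, RowC2_e0_mon, der_mul, eps, nab]
    ring

theorem e0_DM (v : F[X]) : e0 J a w (J.DM v) = J.D (e0 J a w v)
    + a * rb J a 2 * (rZ J a)⁻¹ * e1 J a w v + tau J a * w * rb J a 2 * e0 J a w v := by
  induction v using Polynomial.induction_on' with
  | add p q hp hq => simp only [map_add, hp, hq, mul_add]; ring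
  | monomial n c =>
    rw [← C_mul_X_pow_eq_monomial, J.DM_C_mul, J.DM_X_pow, map_add, RowC2_e0_mon, RowC2_e0_mon,
      RowC2_e0_mon, RowC2_e1_mon, der_mul, eps, nab]
    ring

end Pool.Agent.Lib.MP_4d1bc1_mp.Kv.Hier
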