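import Pool.Agent.Lib.MP_4d1bc1_mp.Kv.Hier.RowC1
import Pool.Agent.Lib.MP_4d1bc1_mp.Kv.Hier.RowC2

set_option autoImplicit false
set_option linter.unusedSimpArgs false
set_option linter.unusedSectionVars false

/-! Row hi-C3: the scalar product and the total derivative. -/

namespace Pool.Agent.Lib.MP_4d1bc1_mp.Kv.Hier

open Finset Polynomial

universe u

variable {F : Type u} [Field F] [Algebra ℝ F] {J : Jet F} {a w κ : F} {G : F[X]}

private theorem C3_Z (R : Red J a κ w) : J.D (rZ J a) = 2 * a * J.u 1 2 := by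
  have e1 : J.D (1 : F) = 0 := Derivation.map_one_eq_zero _
  have e2 : J.D (J.u 1 1) = J.u 2 1 + J.u 1 2 := J.D_u 1 1
  rw [rZ, map_add, e1, der_mul, R.ca.D, e2, J.u_symm 2 1]
  ring

private theorem C3_z (R : Red J a κ w) :
    J.D (rZ J a)⁻¹ = -(2 * a * J.u 1 2 * ((rZ J a)⁻¹ * (rZ J a)⁻¹)) := by
  have h0 := rZ_ne J R.ca R.a0
  have h1 : J.D (rZ J a * (rZ J a)⁻¹) = 0 := by
    rw [mul_inv_cancel₀ h0]
    exact Derivation.map_one_eq_zero _
  rw [der_mul, C3_Z R] at h1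
  have h2 : rZ J a * (rZ J a)⁻¹ = 1 := mul_inv_cancel₀ h0
  linear_combination (rZ J a)⁻¹ * h1 - J.D (rZ J a)⁻¹ * h2

private theorem C3_DM_one : J.DM 1 = X := by
  have h := J.DM_X_pow 0
  rwa [pow_zero, zero_add, pow_one] at h

private theorem C3_ip11 : J.ip X X = J.u 1 1 := by
  have h := J.ip_X_pow 1 1
  rwa [pow_one] at h

private theorem C3_ip01 : J.ip 1 X = J.u 0 1 := by
  have h := J.ip_X_pow 0 1
  rwa [pow_zero, pow_one] at h

private theorem C3_ip22 : J.ip (X * X) (X * X) = J.u 2 2 := by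
  have h := J.ip_X_pow 2 2
  rwa [pow_two] at h

theorem D_MB (R : Red J a κ w) (v v' : F[X]) : J.D (MB J a w v v')
    = MB J a w (J.DM v) v' + MB J a w v (J.DM v') := by
  have ha : a * a⁻¹ = 1 := mul_inv_cancel₀ R.a0
  have h1 := e1_DM J a w v
  have h2 := e0_DM J a w v
  have h3 := e1_DM J a w v'
  have h4 := e0_DM J a w v'
  have hw := R.D_w
  simp only [rM, rp] at hw
  simp only [MB_apply, div_eq_mul_inv, map_add, map_sub, der_mul, R.ca.D, R.ca.inv.D, C3_z R,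
    J.D_ip, DM_X_mul, h1, h2, h3, h4, hw, tau]
  linear_combination -(w * rb J a 2 * (rZ J a)⁻¹ * (e1 J a w v * e0 J a w v'
    + e0 J a w v * e1 J a w v')) * ha

theorem MB_one_left (R : Red J a κ w) (v : F[X]) :
    MB J a w 1 v = e1 J a w v - a * J.ip X (X * v) := by
  have h2 : rZ J a * (rZ J a)⁻¹ = 1 := mul_inv_cancel₀ (rZ_ne J R.ca R.a0)
  rw [MB_apply, e1_one, e0_one, mul_one]
  linear_combination e1 J a w v * h2

theorem MB_one_one (R : Red J a κ w) : MB J a w 1 1 = 1 := by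
  rw [MB_one_left R, mul_one, e1_one, C3_ip11, rZ]
  ring

theorem MB_X_X (R : Red J a κ w) : MB J a w X X = -a * rh J a w 2 2 := by
  have h2 : rZ J a * (rZ J a)⁻¹ = 1 := mul_inv_cancel₀ (rZ_ne J R.ca R.a0)
  have ha : a * a⁻¹ = 1 := mul_inv_cancel₀ R.a0
  have h3 : e1 J a w X = a * J.u 1 2 := by
    rw [← C3_DM_one (J := J), e1_DM, e1_one, e0_one, C3_Z R]
    linear_combination -(a * J.u 1 2) * h2
  have h4 : e0 J a w X = a * rb J a 2 := by
    rw [← C3_DM_one (J := J), e0_DM, e1_one, e0_one, map_zero]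
    linear_combination (a * rb J a 2) * h2
  rw [MB_apply, h3, h4, C3_ip22, rh, div_eq_mul_inv]
  linear_combination (w * a * rb J a 2 * rb J a 2) * ha

theorem D_yB (R : Red J a κ w) (v : F[X]) : J.D (yB J a w v)
    = MB J a w 1 v + yB J a w (J.DM v) := by
  have h2 : (1 + a * J.u 1 1) * (rZ J a)⁻¹ = 1 := mul_inv_cancel₀ (rZ_ne J R.ca R.a0)
  have ha : a * a⁻¹ = 1 := mul_inv_cancel₀ R.a0
  have h3 := e1_DM J a w v
  have h4 := e0_DM J a w v
  have h5 : J.D (J.u 0 1) = J.u 1 1 + J.u 0 2 := J.D_u 0 1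
  rw [MB_one_left R]
  simp only [yB_apply, tau, map_add, map_sub, der_mul, R.ca.D, C3_z R, J.D_ip, C3_DM_one,
    DM_X_mul, h3, h4, h5]
  have hb : rb J a 2 = J.u 0 2 - a⁻¹ - a * J.u 0 1 * J.u 1 2 * (rZ J a)⁻¹ := by
    rw [rb, if_pos rfl]
  rw [hb]
  linear_combination e1 J a w v * h2 + (rZ J a)⁻¹ * e1 J a w v * ha

theorem yB_one (R : Red J a κ w) : yB J a w 1 = 0 := by
  have h2 : rZ J a * (rZ J a)⁻¹ = 1 := mul_inv_cancel₀ (rZ_ne J R.ca R.a0)
  rw [yB_apply, e1_one, e0_one, mul_one, C3_ip01, tau]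
  linear_combination (a * J.u 0 1) * h2

end Pool.Agent.Lib.MP_4d1bc1_mp.Kv.Hier
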