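import Pool.Agent.Lib.MP_4d1bc1_mp.Kv.Hier.RowC3

set_option autoImplicit false
set_option linter.unusedSimpArgs false
set_option linter.unusedSectionVars false

/-! Row hi-C4: derivatives along a tangent flow. -/

namespace Pool.Agent.Lib.MP_4d1bc1_mp.Kv.Hier

open Finset Polynomial

universe u

variable {F : Type u} [Field F] [Algebra ℝ F] {J : Jet F} {a w κ : F} {G : F[X]}

theorem rowC4_u11 (J : Jet F) (G : F[X]) :
    J.evo (X * G) (J.u 1 1) = 2 * J.ip X (X * J.DM G) := by
  rw [J.evo_u, Function.iterate_one, DM_X_mul, pow_one, J.ip_symm (X * J.DM G) X]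
  ring

theorem rowC4_u01 (J : Jet F) (G : F[X]) :
    J.evo (X * G) (J.u 0 1) = J.ip X (X * G) + J.ip 1 (X * J.DM G) := by
  rw [J.evo_u, Function.iterate_one, Function.iterate_zero, id_eq, DM_X_mul, pow_one, pow_zero,
    J.ip_symm (X * G) X]

theorem rowC4_u00 (J : Jet F) (G : F[X]) :
    J.evo (X * G) (J.u 0 0) = 2 * J.ip 1 (X * G) := by
  rw [J.evo_u, Function.iterate_zero, id_eq, pow_zero, J.ip_symm (X * G) 1]
  ring

/-- the first condition -/
theorem rowC4_cond1 (hG : Tan J a w G) (R : Red J a κ w) :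
    a * J.ip X (X * J.DM G) = e1 J a w (J.DM G) := by
  have h1 := hG.1
  rw [MB_one_left R] at h1
  linear_combination -h1

/-- the second condition -/
theorem rowC4_cond2 (hG : Tan J a w G) :
    a * J.ip 1 (X * G) = e0 J a w G + tau J a * e1 J a w G := by
  have h1 := hG.2
  rw [yB_apply] at h1
  linear_combination -h1

/-- the derivative of the second condition -/
theorem rowC4_cond3 (hG : Tan J a w G) (R : Red J a κ w) :
    a * (J.ip X (X * G) + J.ip 1 (X * J.DM G))
      = e1 J a w G + e0 J a w (J.DM G) + tau J a * e1 J a w (J.DM G) := by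
  have h1 := D_yB R G
  rw [hG.2, map_zero, MB_one_left R, yB_apply] at h1
  linear_combination h1

theorem Tan.evo_Z (hG : Tan J a w G) (R : Red J a κ w) :
    J.evo (X * G) (rZ J a) = 2 * e1 J a w (J.DM G) := by
  have e0' : J.evo (X * G) (1 : F) = 0 := Derivation.map_one_eq_zero _
  have h := rowC4_cond1 hG R
  rw [rZ, map_add, e0', der_mul, R.ca.evo, rowC4_u11]
  linear_combination 2 * h

theorem rowC4_tauZ (R : Red J a κ w) : tau J a * rZ J a = a * J.u 0 1 := by
  have h0 := rZ_ne J R.ca R.a0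
  rw [tau, mul_assoc, inv_mul_cancel₀ h0, mul_one]

theorem Tan.evo_tau (hG : Tan J a w G) (R : Red J a κ w) :
    J.evo (X * G) (tau J a) * rZ J a
      = e1 J a w G + e0 J a w (J.DM G) - tau J a * e1 J a w (J.DM G) := by
  have h1 := congrArg (J.evo (X * G)) (rowC4_tauZ R)
  rw [der_mul, hG.evo_Z R, der_mul, R.ca.evo, rowC4_u01] at h1
  have h := rowC4_cond3 hG R
  linear_combination h1 + h

theorem Tan.evo_w (hG : Tan J a w G) (R : Red J a κ w) : J.evo (X * G) w
    = -(2 * w ^ 2 / a) * (e0 J a w G - tau J a * e0 J a w (J.DM G)) := by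
  rcases R.hw with hw | hw
  · have h1 : J.evo (X * G) w = 0 := by rw [hw, map_zero]
    have h2 : (2 * w ^ 2 / a) = 0 := by rw [hw]; simp
    rw [h1, h2]; ring
  · have h0 := rZ_ne J R.ca R.a0
    have ha := R.a0
    have hq : J.u 0 0 + κ - a * J.u 0 1 ^ 2 * (rZ J a)⁻¹
        = J.u 0 0 + κ - tau J a * J.u 0 1 := by
      rw [tau]; ring
    rw [hq] at hw
    have h1 := congrArg (J.evo (X * G)) hw
    have e1' : J.evo (X * G) (1 : F) = 0 := Derivation.map_one_eq_zero _
    rw [e1', der_mul, map_sub, map_add, R.cκ.evo, der_mul, rowC4_u00, rowC4_u01] at h1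
    have h2 := hG.evo_tau R
    have h3 := rowC4_cond2 hG
    have h4 := rowC4_cond3 hG R
    have h5 := rowC4_tauZ R
    -- multiply by `w` and by `a`
    have h6 : a * J.evo (X * G) w = -w ^ 2 * (2 * (a * J.ip 1 (X * G))
        - J.evo (X * G) (tau J a) * (a * J.u 0 1)
        - tau J a * (a * (J.ip X (X * G) + J.ip 1 (X * J.DM G)))) := by
      linear_combination w * a * h1 - a * J.evo (X * G) w * hw
    rw [← h5, h3, h4] at h6
    have h7 : a * J.evo (X * G) w
        = -(2 * w ^ 2) * (e0 J a w G - tau J a * e0 J a w (J.DM G)) := by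
      linear_combination h6 + w ^ 2 * tau J a * h2
    have h8 : J.evo (X * G) w = a⁻¹ * (a * J.evo (X * G) w) := by
      rw [← mul_assoc, inv_mul_cancel₀ ha, one_mul]
    rw [h8, h7]
    ring

end Pool.Agent.Lib.MP_4d1bc1_mp.Kv.Hier
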