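import Pool.Agent.Lib.MP_4d1bc1_mp.Kv.Hier.RowC4

set_option autoImplicit false
set_option linter.unusedSimpArgs false
set_option linter.unusedSectionVars false

/-! Row hi-C5: flatness. -/

namespace Pool.Agent.Lib.MP_4d1bc1_mp.Kv.Hier

open Finset Polynomial

universe u

variable {F : Type u} [Field F] [Algebra ℝ F] {J : Jet F} {a w κ : F} {G : F[X]}

private theorem RowC5_DZ (R : Red J a κ w) : J.D (rZ J a) = 2 * (a * J.u 1 2) := by
  have e1 : J.D (1 : F) = 0 := Derivation.map_one_eq_zero _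
  have e2 : J.D (J.u 1 1) = J.u 2 1 + J.u 1 2 := J.D_u 1 1
  rw [rZ, map_add, e1, der_mul, R.ca.D, e2, J.u_symm 2 1]
  ring

private theorem RowC5_inv (δ : Derivation ℝ F F) {Z d : F} (h0 : Z ≠ 0) (h : δ Z = d) :
    δ Z⁻¹ = -(d * (Z⁻¹ * Z⁻¹)) := by
  have h1 : δ (Z * Z⁻¹) = 0 := by
    rw [mul_inv_cancel₀ h0]
    exact Derivation.map_one_eq_zero _
  rw [der_mul, h] at h1
  have h2 : Z * Z⁻¹ = 1 := mul_inv_cancel₀ h0
  linear_combination Z⁻¹ * h1 - δ Z⁻¹ * h2

private theorem RowC5_b (J : Jet F) (a : F) :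
    rb J a 2 = J.u 0 2 - a⁻¹ - tau J a * J.u 1 2 := by
  rw [rb, if_pos rfl, tau]; ring

/-- `D τ` -/
private theorem RowC5_Dtau (R : Red J a κ w) : J.D (tau J a)
    = (a * rb J a 2 + rZ J a - tau J a * (a * J.u 1 2)) * (rZ J a)⁻¹ := by
  have h0 := rZ_ne J R.ca R.a0
  have hz : rZ J a * (rZ J a)⁻¹ = 1 := mul_inv_cancel₀ h0
  have hA : a * a⁻¹ = 1 := mul_inv_cancel₀ R.a0
  have hu : J.D (J.u 0 1) = J.u 1 1 + J.u 0 2 := J.D_u 0 1
  have hZ : rZ J a = 1 + a * J.u 1 1 := rfl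
  have e : J.D (tau J a) = a * (J.u 1 1 + J.u 0 2) * (rZ J a)⁻¹
      - a * J.u 0 1 * (2 * (a * J.u 1 2) * ((rZ J a)⁻¹ * (rZ J a)⁻¹)) := by
    rw [tau, der_mul, der_mul, R.ca.D, hu, RowC5_inv J.D h0 (RowC5_DZ R)]
    ring
  rw [e, RowC5_b]
  have ht : tau J a = a * J.u 0 1 * (rZ J a)⁻¹ := rfl
  rw [ht]
  linear_combination (-(rZ J a)⁻¹) * hZ + (rZ J a)⁻¹ * hA

private theorem RowC5_Dw (R : Red J a κ w) : J.D w = 2 * w ^ 2 * tau J a * rb J a 2 := by
  rw [R.D_w, rM, rp, tau]; ring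

private theorem RowC5_evo_p (hG : Tan J a w G) (R : Red J a κ w) :
    J.evo (X * G) (a * J.u 1 2) = J.D (e1 J a w (J.DM G)) := by
  have h1 : J.evo (X * G) (J.D (rZ J a)) = J.D (J.evo (X * G) (rZ J a)) := J.evo_D _ _
  rw [RowC5_DZ R, hG.evo_Z R, der_const_mul _ (der_ofNat _ 2), der_const_mul _ (der_ofNat _ 2)] at h1
  have h2 : (2 : F) ≠ 0 := by
    have h3 : algebraMap ℝ F 2 ≠ 0 := by
      rw [Ne, map_eq_zero]; norm_num
    rwa [map_ofNat] at h3
  exact mul_left_cancel₀ h2 h1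

private theorem RowC5_evo_tau (hG : Tan J a w G) (R : Red J a κ w) :
    J.evo (X * G) (tau J a) = (rZ J a)⁻¹ *
      (e1 J a w G + e0 J a w (J.DM G) - tau J a * e1 J a w (J.DM G)) := by
  have h0 := rZ_ne J R.ca R.a0
  have hz : rZ J a * (rZ J a)⁻¹ = 1 := mul_inv_cancel₀ h0
  have h1 := hG.evo_tau R
  linear_combination (rZ J a)⁻¹ * h1 - J.evo (X * G) (tau J a) * hz

theorem Tan.evo_b (hG : Tan J a w G) (R : Red J a κ w) : J.evo (X * G) (rb J a 2)
    = a⁻¹ * (J.D (e0 J a w (J.DM G))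
      + (a * rb J a 2 * e1 J a w (J.DM G) - a * J.u 1 2 * e0 J a w (J.DM G)) * (rZ J a)⁻¹
      + w * rb J a 2 * e0 J a w G) := by
  have h0 := rZ_ne J R.ca R.a0
  have hz : rZ J a * (rZ J a)⁻¹ = 1 := mul_inv_cancel₀ h0
  have hA : a * a⁻¹ = 1 := mul_inv_cancel₀ R.a0
  have hD := RowC5_Dtau R
  have hDG := e1_DM J a w G
  have hp := RowC5_evo_p hG R
  have ht := RowC5_evo_tau hG R
  have hZ := hG.evo_Z R
  -- a β = Z Dτ + τ p - Z
  have hq : a * rb J a 2 = rZ J a * J.D (tau J a) + tau J a * (a * J.u 1 2) - rZ J a := by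
    rw [hD]
    linear_combination (-(a * rb J a 2 + rZ J a - tau J a * (a * J.u 1 2))) * hz
  have h1 : a * J.evo (X * G) (rb J a 2) = J.evo (X * G) (a * rb J a 2) :=
    (der_const_mul _ (R.ca.evo _) _).symm
  have h2 : J.D (J.evo (X * G) (tau J a)) =
      -(2 * (a * J.u 1 2) * ((rZ J a)⁻¹ * (rZ J a)⁻¹)) *
        (e1 J a w G + e0 J a w (J.DM G) - tau J a * e1 J a w (J.DM G))
      + (rZ J a)⁻¹ * (J.D (e1 J a w G) + J.D (e0 J a w (J.DM G))
        - (J.D (tau J a) * e1 J a w (J.DM G) + tau J a * J.D (e1 J a w (J.DM G)))) := by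
    rw [ht, der_mul, RowC5_inv J.D h0 (RowC5_DZ R), map_sub, map_add, der_mul]
  rw [hq, map_sub, map_add, der_mul, der_mul (J.evo (X * G)) (tau J a), J.evo_D, h2, hp, hZ, ht,
    hD] at h1
  have h3 : J.evo (X * G) (rb J a 2) = a⁻¹ * (a * J.evo (X * G) (rb J a 2)) := by
    linear_combination (-J.evo (X * G) (rb J a 2)) * hA
  rw [h3, h1]
  clear h1 h2 h3 hq hp ht hZ hD
  generalize J.D (e1 J a w G) = DG1 at *
  generalize J.D (e0 J a w (J.DM G)) = DE0 at *
  generalize J.D (e1 J a w (J.DM G)) = DE1 at *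
  generalize e1 J a w (J.DM G) = E1 at *
  generalize e0 J a w (J.DM G) = E0 at *
  generalize e1 J a w G = G1 at *
  generalize e0 J a w G = G0 at *
  generalize tau J a = τ at *
  generalize rb J a 2 = β at *
  generalize J.u 1 2 = p at *
  generalize (rZ J a)⁻¹ = z at *
  generalize rZ J a = Z at *
  generalize a⁻¹ = b at *
  clear hG R h0 hA
  grind

/-- flatness -/
theorem Tan.flat (hG : Tan J a w G) (R : Red J a κ w) (e : F × F) :
    nabT J a w G (nab J a w e) = nab J a w (nabT J a w G e) := by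
  have h0 := rZ_ne J R.ca R.a0
  have hz : rZ J a * (rZ J a)⁻¹ = 1 := mul_inv_cancel₀ h0
  have hA : a * a⁻¹ = 1 := mul_inv_cancel₀ R.a0
  have hAc : J.D a⁻¹ = 0 := R.ca.inv.D
  have hDt := RowC5_Dtau R
  have hDw := RowC5_Dw R
  have hDz := RowC5_inv J.D h0 (RowC5_DZ R)
  have hEz := RowC5_inv (J.evo (X * G)) h0 (hG.evo_Z R)
  have hEp := RowC5_evo_p hG R
  have hEt := RowC5_evo_tau hG R
  have hEb := hG.evo_b R
  have hEw := hG.evo_w R
  have hEa : J.evo (X * G) a = 0 := R.ca.evo _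
  have hDG1 := e1_DM J a w G
  have hDG0 := e0_DM J a w G
  have hDa : J.D a = 0 := R.ca.D
  have hEA : J.evo (X * G) a⁻¹ = 0 := R.ca.inv.evo _
  obtain ⟨x, y⟩ := e
  have hx := J.evo_D (X * G) x
  have hy := J.evo_D (X * G) y
  simp only [nab, nabT, div_eq_mul_inv] at *
  clear hG R h0
  generalize e1 J a w (J.DM G) = E1 at *
  generalize e0 J a w (J.DM G) = E0 at *
  generalize e1 J a w G = G1 at *
  generalize e0 J a w G = G0 at *
  generalize tau J a = τ at *
  generalize rb J a 2 = β at *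
  generalize a * J.u 1 2 = p at *
  generalize (rZ J a)⁻¹ = z at *
  generalize rZ J a = Z at *
  generalize a⁻¹ = b at *
  apply Prod.ext
  · simp only [map_sub, map_add, der_mul, hx, hDa, hAc, hEa, hEA, hEz, hEb, hEw, hEp, hDz, hDw]
    clear hx hy hDa hAc hEa hEA hEz hEb hEw hEp hDz hDw hEt hDt hDG0 hDG1
    generalize J.D (J.evo (X * G) x) = Dex at *
    generalize J.D (J.evo (X * G) y) = Dey at *
    generalize J.evo (X * G) x = ex at *
    generalize J.evo (X * G) y = ey at *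
    generalize J.D x = Dx at *
    generalize J.D y = Dy at *
    generalize J.D E0 = DE0 at *
    generalize J.D E1 = DE1 at *
    generalize J.D G0 = DG0 at *
    generalize J.D G1 = DG1 at *
    clear hz
    grind
  · simp only [map_sub, map_add, der_mul, hy, hDa, hAc, hEa, hEA, hEz, hEb, hEw, hEt, hDz, hDw, hDt]
    clear hx hy hDa hAc hEa hEA hEz hEb hEw hEp hDz hDw hEt hDt hDG1
    generalize J.D (J.evo (X * G) x) = Dex at *
    generalize J.D (J.evo (X * G) y) = Dey at *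
    generalize J.evo (X * G) x = ex at *
    generalize J.evo (X * G) y = ey at *
    generalize J.D x = Dx at *
    generalize J.D y = Dy at *
    generalize J.D E0 = DE0 at *
    generalize J.D E1 = DE1 at *
    generalize J.D G0 = DG0 at *
    generalize J.D G1 = DG1 at *
    grind

end Pool.Agent.Lib.MP_4d1bc1_mp.Kv.Hier
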