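import Pool.Agent.Lib.MP_4d1bc1_mp.Kv.Hier.RowC5

set_option autoImplicit false
set_option linter.unusedSimpArgs false
set_option linter.unusedSectionVars false

/-! Row hi-C6: the scalar product along a tangent flow. -/

namespace Pool.Agent.Lib.MP_4d1bc1_mp.Kv.Hier

open Finset Polynomial

universe u

variable {F : Type u} [Field F] [Algebra ℝ F] {J : Jet F} {a w κ : F} {G : F[X]}

theorem RowC6_nabT_fst (e : F × F) : (nabT J a w G e).1 =
    J.evo (X * G) e.1 - (rZ J a)⁻¹ * e1 J a w (J.DM G) * e.1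
      - w / a * e0 J a w (J.DM G) * e.2 := rfl

theorem RowC6_nabT_snd (e : F × F) : (nabT J a w G e).2 =
    J.evo (X * G) e.2 + (rZ J a)⁻¹ * e0 J a w (J.DM G) * e.1
      - w / a * (e0 J a w G - tau J a * e0 J a w (J.DM G)) * e.2 := rfl

theorem RowC6_e1_mono (c : F) (n : ℕ) :
    e1 J a w (C c * X ^ n) = c * (eps J a w n).1 := by
  rw [C_mul_X_pow_eq_monomial, e1, Polynomial.lsum_apply,
    Polynomial.sum_monomial_index _ _ (by simp), LinearMap.toSpanSingleton_apply, smul_eq_mul]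

theorem RowC6_e0_mono (c : F) (n : ℕ) :
    e0 J a w (C c * X ^ n) = c * (eps J a w n).2 := by
  rw [C_mul_X_pow_eq_monomial, e0, Polynomial.lsum_apply,
    Polynomial.sum_monomial_index _ _ (by simp), LinearMap.toSpanSingleton_apply, smul_eq_mul]

theorem Tan.eps (hG : Tan J a w G) (R : Red J a κ w) (n : ℕ) :
    nabT J a w G (eps J a w n)
      = (e1 J a w (J.DM^[n] (J.DM G)), e0 J a w (J.DM^[n] (J.DM G))) := by
  induction n with
  | zero =>
    have hz := rZ_ne J R.ca R.a0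
    have hz1 : (rZ J a)⁻¹ * rZ J a = 1 := inv_mul_cancel₀ hz
    have h0 : Hier.eps J a w 0 = (rZ J a, 0) := rfl
    have hZ := hG.evo_Z R
    rw [h0]
    refine Prod.ext ?_ ?_
    · rw [RowC6_nabT_fst]
      change J.evo (X * G) (rZ J a) - (rZ J a)⁻¹ * e1 J a w (J.DM G) * rZ J a
        - w / a * e0 J a w (J.DM G) * 0 = e1 J a w (J.DM G)
      linear_combination hZ - e1 J a w (J.DM G) * hz1
    · rw [RowC6_nabT_snd]
      change J.evo (X * G) 0 + (rZ J a)⁻¹ * e0 J a w (J.DM G) * rZ J a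
        - w / a * (e0 J a w G - tau J a * e0 J a w (J.DM G)) * 0 = e0 J a w (J.DM G)
      rw [map_zero]
      linear_combination e0 J a w (J.DM G) * hz1
  | succ n ih =>
    have h0 : Hier.eps J a w (n + 1) = nab J a w (Hier.eps J a w n) := rfl
    rw [h0, hG.flat R, ih, Function.iterate_succ_apply']
    refine Prod.ext ?_ ?_
    · rw [e1_DM]; rfl
    · rw [e0_DM]; rfl

theorem Tan.RowC6_e (hG : Tan J a w G) (R : Red J a κ w) (v : F[X]) :
    e1 J a w (tB J G v) = (nabT J a w G (e1 J a w v, e0 J a w v)).1 ∧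
    e0 J a w (tB J G v) = (nabT J a w G (e1 J a w v, e0 J a w v)).2 := by
  induction v using Polynomial.induction_on' with
  | add p q hp hq =>
    obtain ⟨hp1, hp2⟩ := hp
    obtain ⟨hq1, hq2⟩ := hq
    rw [RowC6_nabT_fst] at hp1 hq1
    rw [RowC6_nabT_snd] at hp2 hq2
    rw [RowC6_nabT_fst, RowC6_nabT_snd]
    simp only [map_add] at hp1 hp2 hq1 hq2 ⊢
    constructor
    · linear_combination hp1 + hq1
    · linear_combination hp2 + hq2
  | monomial n c =>
    have h := hG.eps R n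
    have h1 := congrArg Prod.fst h
    have h2 := congrArg Prod.snd h
    rw [RowC6_nabT_fst] at h1
    rw [RowC6_nabT_snd] at h2
    simp only at h1 h2
    have e : e1 J a w (C (J.evo (X * G) c) * X ^ n + C c * J.DM^[n] (J.DM G))
        = J.evo (X * G) c * (Hier.eps J a w n).1 + c * e1 J a w (J.DM^[n] (J.DM G)) := by
      rw [map_add, RowC6_e1_mono, ← smul_eq_C_mul, map_smul, smul_eq_mul]
    have e' : e0 J a w (C (J.evo (X * G) c) * X ^ n + C c * J.DM^[n] (J.DM G))
        = J.evo (X * G) c * (Hier.eps J a w n).2 + c * e0 J a w (J.DM^[n] (J.DM G)) := by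
      rw [map_add, RowC6_e0_mono, ← smul_eq_C_mul, map_smul, smul_eq_mul]
    rw [← C_mul_X_pow_eq_monomial, RowC6_nabT_fst, RowC6_nabT_snd, tB_C_mul, tB_X_pow, e, e']
    simp only [RowC6_e1_mono, RowC6_e0_mono, der_mul]
    constructor
    · linear_combination -c * h1
    · linear_combination -c * h2

theorem Tan.e1_tB (hG : Tan J a w G) (R : Red J a κ w) (v : F[X]) :
    e1 J a w (tB J G v) = (nabT J a w G (e1 J a w v, e0 J a w v)).1 :=
  (hG.RowC6_e R v).1

theorem Tan.e0_tB (hG : Tan J a w G) (R : Red J a κ w) (v : F[X]) :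
    e0 J a w (tB J G v) = (nabT J a w G (e1 J a w v, e0 J a w v)).2 :=
  (hG.RowC6_e R v).2

theorem Tan.RowC6_evo_z (hG : Tan J a w G) (R : Red J a κ w) :
    J.evo (X * G) (rZ J a)⁻¹ = -(2 * e1 J a w (J.DM G) * ((rZ J a)⁻¹ * (rZ J a)⁻¹)) := by
  have hz := rZ_ne J R.ca R.a0
  have h1 : J.evo (X * G) (rZ J a * (rZ J a)⁻¹) = 0 := by
    rw [mul_inv_cancel₀ hz]
    exact Derivation.map_one_eq_zero _
  rw [der_mul, hG.evo_Z R] at h1
  have h2 : rZ J a * (rZ J a)⁻¹ = 1 := mul_inv_cancel₀ hz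
  linear_combination (rZ J a)⁻¹ * h1 - J.evo (X * G) (rZ J a)⁻¹ * h2

theorem Tan.evo_MB (hG : Tan J a w G) (R : Red J a κ w) (v v' : F[X]) :
    J.evo (X * G) (MB J a w v v') = MB J a w (tB J G v) v' + MB J a w v (tB J G v') := by
  have hz := hG.RowC6_evo_z R
  have hw := hG.evo_w R
  have ha : J.evo (X * G) a = 0 := R.ca.evo _
  have hai : J.evo (X * G) a⁻¹ = 0 := der_inv_zero _ ha
  have h1 := hG.e1_tB R v
  have h2 := hG.e0_tB R v
  have h3 := hG.e1_tB R v'
  have h4 := hG.e0_tB R v'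
  rw [RowC6_nabT_fst] at h1 h3
  rw [RowC6_nabT_snd] at h2 h4
  simp only at h1 h2 h3 h4
  rw [MB_apply, MB_apply, MB_apply, X_mul_tB, X_mul_tB, h1, h2, h3, h4, map_sub, map_add]
  simp only [der_mul, J.evo_ip, ha, hai, hz, hw, div_eq_mul_inv]
  ring

/-- the derivative of `f = rf` along a flow -/
theorem Tan.evo_rf (hG : Tan J a w G) (R : Red J a κ w) :
    J.evo (X * G) (rf J a w) = 3 * MB J a w X (J.DM (J.DM G)) := by
  have h2 : J.evo (X * G) (3 / 2 : F) = 0 :=
    der_div_zero _ (der_ofNat _ 3) (der_ofNat _ 2)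
  have h1 : rf J a w = 3 / 2 * MB J a w X X := by
    rw [MB_X_X R, rf]; ring
  have h3 : tB J G X = J.DM (J.DM G) := by
    have := tB_X_pow J G 1
    rwa [pow_one] at this
  have := J.charZero
  rw [h1, der_const_mul _ h2, hG.evo_MB R, h3, MB_symm J a w (J.DM (J.DM G)) X]
  ring

end Pool.Agent.Lib.MP_4d1bc1_mp.Kv.Hier
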