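import Pool.Agent.Lib.MP_4d1bc1_mp.Kv.Hier.PS0

set_option autoImplicit false
set_option linter.unusedSimpArgs false
set_option linter.unusedSectionVars false

/-! Row hi-P1: Leibniz rules for power series. -/

namespace Pool.Agent.Lib.MP_4d1bc1_mp.Kv.Hier

open Finset PowerSeries

universe u

variable {F : Type u} [Field F] [Algebra ℝ F] {A : Type u} [CommRing A] [Algebra F A]

/-- Leibniz rule -/
theorem cw_mul (δ : Derivation ℝ F F) (φ : A →+ A)
    (h : ∀ (c : F) (v : A), φ (c • v) = δ c • v + c • φ v) (s : F⟦X⟧) (f : A⟦X⟧) :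
    cw φ (io A s * f) = io A (cw (ad δ) s) * f + io A s * cw φ f := by
  ext n
  rw [coeff_cw, coeff_mul, map_add, coeff_mul, coeff_mul, map_sum, ← Finset.sum_add_distrib]
  refine Finset.sum_congr rfl fun p _ => ?_
  rw [coeff_io, coeff_io, coeff_cw, coeff_cw, ad_apply, ← Algebra.smul_def, h, Algebra.smul_def,
    Algebra.smul_def]

theorem cw_mul_F (δ : Derivation ℝ F F) (s t : F⟦X⟧) :
    cw (ad δ) (s * t) = cw (ad δ) s * t + s * cw (ad δ) t := by
  ext n
  rw [coeff_cw, coeff_mul, map_add, coeff_mul, coeff_mul, map_sum, ← Finset.sum_add_distrib]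
  refine Finset.sum_congr rfl fun p _ => ?_
  rw [coeff_cw, coeff_cw, ad_apply, ad_apply, ad_apply, Derivation.leibniz, smul_eq_mul, smul_eq_mul]
  ring

/-- a linear functional acting on the coefficients -/
theorem cw_lin (y : A →ₗ[F] F) (s : F⟦X⟧) (f : A⟦X⟧) :
    cw (y : A →+ F) (io A s * f) = s * cw (y : A →+ F) f := by
  ext n
  rw [coeff_cw, coeff_mul, coeff_mul, map_sum]
  refine Finset.sum_congr rfl fun p _ => ?_
  rw [coeff_io, coeff_cw, ← Algebra.smul_def]
  exact y.map_smul _ _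

end Pool.Agent.Lib.MP_4d1bc1_mp.Kv.Hier
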