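import Pool.Agent.Lib.MP_4d1bc1_mp.Kv.Hier.RowB1

set_option autoImplicit false
set_option linter.unusedSimpArgs false
set_option linter.unusedSectionVars false

/-! Row hi-T1: the time part. -/

namespace Pool.Agent.Lib.MP_4d1bc1_mp.Kv.Hier

open Finset PowerSeries

universe u

variable {F : Type u} [Field F] [Algebra ℝ F] {A : Type u} [CommRing A] [Algebra F A]

namespace Geo

variable (G : Geo F A)

theorem b_eq : X * cw G.DA G.b = C G.T - io A (G.pr G.T G.b) * G.b :=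
  bS_eq _ _ _ G.M_T G.char2

theorem T1_M1 : G.M (G.DA G.T) G.T = 0 := by
  have h := G.D_M G.T G.T
  rw [G.M_T, Derivation.map_one_eq_zero, G.M_symm G.T (G.DA G.T), ← two_mul] at h
  exact (mul_eq_zero.mp h.symm).resolve_left G.char2

theorem T1_M2 : G.M (G.DA (G.DA G.T)) G.T = -G.M (G.DA G.T) (G.DA G.T) := by
  have h := G.D_M (G.DA G.T) G.T
  rw [T1_M1, map_zero] at h
  linear_combination -h

theorem T1_a2 (f : A⟦X⟧) : G.pr G.a2 f = G.pr (G.DA (G.DA G.T)) f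
    + C (3 / 2 * G.M (G.DA G.T) (G.DA G.T)) * G.pr G.T f := by
  have h : (C G.a2 : A⟦X⟧) = C (G.DA (G.DA G.T))
      + io A (C (3 / 2 * G.M (G.DA G.T) (G.DA G.T))) * C G.T := by
    rw [a2, map_add, Algebra.smul_def, map_mul, io_C]
  rw [pr, pr, pr, h, bi_add_left, bi_io_left]

/-- derivative of a pairing, times `X` -/
theorem T1_pr (z : A) : X * cw (ad G.D) (G.pr z G.b)
    = X * G.pr (G.DA z) G.b + C (G.M z G.T) - G.pr G.T G.b * G.pr z G.b := by
  have h1 : cw (ad G.D) (G.pr z G.b)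
      = G.pr (G.DA z) G.b + bi G.M (C z) (cw G.DA G.b) := by
    rw [pr, cw_bi G.M G.D G.DA G.D_M, cw_C]
    rfl
  have h2 : X * bi G.M (C z) (cw G.DA G.b)
      = C (G.M z G.T) - G.pr G.T G.b * G.pr z G.b := by
    rw [← bi_X_right, b_eq, bi_sub_right, bi_io_right, bi_C_C]
    rfl
  rw [h1, mul_add, h2]
  ring

/-- step (i) -/
theorem T1_left : X * cw G.DA (X ^ 3 * cw G.tA G.b)
    = X ^ 3 * (C (G.DA G.a2) - io A (G.pr (G.DA G.a2) G.b) * G.b)
      - (io A (bi G.M (C G.T) (X ^ 3 * cw G.tA G.b)) * G.b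
        + io A (G.pr G.T G.b) * (X ^ 3 * cw G.tA G.b)) := by
  have hT : G.tA G.T = G.DA G.a2 := G.t_T
  have h1 : cw (ad G.t) (G.pr G.T G.b)
      = G.pr (G.DA G.a2) G.b + bi G.M (C G.T) (cw G.tA G.b) := by
    rw [pr, cw_bi G.M G.t G.tA G.t_M, cw_C, hT]
    rfl
  have h2 : X * cw G.DA (cw G.tA G.b) = cw G.tA (X * cw G.DA G.b) := by
    rw [cw_X_mul]
    exact congrArg (fun f => X * f) (cw_cw G.tA G.DA G.DA G.tA G.DA_tA G.b)
  have h3 : bi G.M (C G.T) (X ^ 3 * cw G.tA G.b)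
      = X ^ 3 * bi G.M (C G.T) (cw G.tA G.b) := by
    have : (X ^ 3 * cw G.tA G.b : A⟦X⟧) = io A ((X : F⟦X⟧) ^ 3) * cw G.tA G.b := by
      rw [map_pow, io_X]
    rw [this, bi_io_right]
  rw [cw_X_pow_mul, h3, map_mul, map_pow, io_X,
    mul_left_comm,
    h2, b_eq, map_sub, cw_C, hT, cw_mul G.t G.tA G.tA_smul, h1, map_add]
  ring

/-- the right-hand side -/
noncomputable def T1Q : A⟦X⟧ := (C G.T - io A (G.pr G.T G.b) * G.b)
      + X * (io A (G.pr (G.DA G.T) G.b) * C G.T - io A (G.pr G.T G.b) * C (G.DA G.T))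
      + X ^ 2 * (C G.a2 - io A (G.pr G.a2 G.b) * G.b)

/-- step (ii) -/
theorem T1_right : X * cw G.DA G.T1Q
    = X ^ 3 * (C (G.DA G.a2) - io A (G.pr (G.DA G.a2) G.b) * G.b)
      - (io A (bi G.M (C G.T) G.T1Q) * G.b + io A (G.pr G.T G.b) * G.T1Q) := by
  have hs : X * io A (cw (ad G.D) (G.pr G.T G.b))
      = X * io A (G.pr (G.DA G.T) G.b) + 1 - io A (G.pr G.T G.b) * io A (G.pr G.T G.b) := by
    have h := congrArg (io A) (G.T1_pr G.T)
    rw [G.M_T, map_one] at h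
    simpa only [map_mul, map_sub, map_add, map_one, io_X] using h
  have hs1 : X * io A (cw (ad G.D) (G.pr (G.DA G.T) G.b))
      = X * io A (G.pr (G.DA (G.DA G.T)) G.b)
        - io A (G.pr G.T G.b) * io A (G.pr (G.DA G.T) G.b) := by
    have h := congrArg (io A) (G.T1_pr (G.DA G.T))
    rw [G.T1_M1, map_zero, add_zero] at h
    simpa only [map_mul, map_sub, map_add, map_one, io_X] using h
  have hv : X * io A (cw (ad G.D) (G.pr G.a2 G.b))
      = X * io A (G.pr (G.DA G.a2) G.b) + io A (C (G.M G.a2 G.T))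
        - io A (G.pr G.T G.b) * io A (G.pr G.a2 G.b) := by
    have h := congrArg (io A) (G.T1_pr G.a2)
    simpa only [map_mul, map_sub, map_add, map_one, io_X] using h
  have hb := G.b_eq
  have hT : bi G.M (C G.T) G.T1Q = 1 - G.pr G.T G.b * G.pr G.T G.b
      + X * G.pr (G.DA G.T) G.b
      + X ^ 2 * (C (G.M G.a2 G.T) - G.pr G.a2 G.b * G.pr G.T G.b) := by
    have hx : ∀ f : A⟦X⟧, bi G.M (C G.T) (X ^ 2 * f) = X ^ 2 * bi G.M (C G.T) f := by
      intro f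
      rw [pow_two, mul_assoc, bi_X_right, bi_X_right]
      ring
    rw [T1Q, bi_add_right, bi_add_right, hx, bi_X_right, bi_sub_right, bi_sub_right,
      bi_sub_right, bi_io_right, bi_io_right, bi_io_right, bi_io_right, bi_C_C, bi_C_C, bi_C_C,
      G.M_T, G.M_symm G.T (G.DA G.T), G.T1_M1, G.M_symm G.T G.a2, map_zero, map_one]
    simp only [pr]
    ring
  have hQ : cw G.DA G.T1Q = (C (G.DA G.T)
        - (io A (cw (ad G.D) (G.pr G.T G.b)) * G.b + io A (G.pr G.T G.b) * cw G.DA G.b))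
      + X * ((io A (cw (ad G.D) (G.pr (G.DA G.T) G.b)) * C G.T
          + io A (G.pr (G.DA G.T) G.b) * C (G.DA G.T))
        - (io A (cw (ad G.D) (G.pr G.T G.b)) * C (G.DA G.T)
          + io A (G.pr G.T G.b) * C (G.DA (G.DA G.T))))
      + X ^ 2 * (C (G.DA G.a2)
        - (io A (cw (ad G.D) (G.pr G.a2 G.b)) * G.b + io A (G.pr G.a2 G.b) * cw G.DA G.b)) := by
    rw [T1Q, map_add, map_add, cw_X_pow_mul, cw_X_mul, map_sub, map_sub, map_sub, cw_C, cw_C,
      cw_mul G.D G.DA G.DA_smul, cw_mul G.D G.DA G.DA_smul, cw_mul G.D G.DA G.DA_smul,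
      cw_mul G.D G.DA G.DA_smul, cw_C, cw_C]
  have ha : (C G.a2 : A⟦X⟧) = C (G.DA (G.DA G.T))
      + io A (C (3 / 2 * G.M (G.DA G.T) (G.DA G.T))) * C G.T := by
    rw [a2, map_add, Algebra.smul_def, map_mul, io_C]
  have hva : io A (G.pr G.a2 G.b) = io A (G.pr (G.DA (G.DA G.T)) G.b)
      + io A (C (3 / 2 * G.M (G.DA G.T) (G.DA G.T))) * io A (G.pr G.T G.b) := by
    rw [T1_a2, map_add, map_mul]
  have hT' := congrArg (io A) hT
  simp only [map_mul, map_sub, map_add, map_one, map_pow, io_X] at hT'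
  rw [hQ, hT', T1Q]
  generalize io A (cw (ad G.D) (G.pr G.T G.b)) = Ds at *
  generalize io A (cw (ad G.D) (G.pr (G.DA G.T) G.b)) = Ds1 at *
  generalize io A (cw (ad G.D) (G.pr G.a2 G.b)) = Dv at *
  generalize io A (G.pr (G.DA G.a2) G.b) = V1 at *
  generalize io A (G.pr (G.DA G.T) G.b) = s1 at *
  generalize io A (G.pr (G.DA (G.DA G.T)) G.b) = s2 at *
  generalize io A (G.pr G.T G.b) = s at *
  generalize io A (G.pr G.a2 G.b) = v at *
  generalize io A (C (3 / 2 * G.M (G.DA G.T) (G.DA G.T))) = k at *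
  generalize io A (C (G.M G.a2 G.T)) = m at *
  generalize cw G.DA G.b = b1 at *
  generalize (C (G.DA G.a2) : A⟦X⟧) = a3 at *
  generalize (C (G.DA (G.DA G.T)) : A⟦X⟧) = T2 at *
  generalize (C (G.DA G.T) : A⟦X⟧) = T1 at *
  generalize (C G.a2 : A⟦X⟧) = a2 at *
  generalize (C G.T : A⟦X⟧) = T at *
  linear_combination (-G.b - X * T1) * hs + (X * T) * hs1 + (-X ^ 2 * G.b) * hv
    + (-s - X ^ 2 * v) * hb + (-X ^ 2 * T) * hva + (X ^ 2 * s) * ha

/-- the time part: `μ³ b_t = R(T) + μ (⟨T_x,b⟩ T - ⟨T,b⟩ T_x) + μ² R(a₂)`,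
`R(z) = z - ⟨z,b⟩ b` -/
theorem b_t : X ^ 3 * cw G.tA G.b
    = (C G.T - io A (G.pr G.T G.b) * G.b)
      + X * (io A (G.pr (G.DA G.T) G.b) * C G.T - io A (G.pr G.T G.b) * C (G.DA G.T))
      + X ^ 2 * (C G.a2 - io A (G.pr G.a2 G.b) * G.b) := by
  have hb : coeff 0 G.b = G.T := bS_zero _ _ _
  have hs : coeff 0 (G.pr G.T G.b) = 1 := by
    rw [pr, coeff_bi, Finset.Nat.antidiagonal_zero, Finset.sum_singleton, coeff_zero_C, hb, G.M_T]
  have h : X * cw G.DA (X ^ 3 * cw G.tA G.b - G.T1Q)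
      = -(io A (bi G.M (C G.T) (X ^ 3 * cw G.tA G.b - G.T1Q)) * G.b
        + io A (G.pr G.T G.b) * (X ^ 3 * cw G.tA G.b - G.T1Q)) := by
    rw [map_sub, mul_sub, T1_left, T1_right, bi_sub_right, map_sub]
    ring
  exact sub_eq_zero.mp (uniq_vector G.M G.DA G.M_T hs hb G.char2 h)

end Geo

end Pool.Agent.Lib.MP_4d1bc1_mp.Kv.Hier
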