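import Pool.Agent.Lib.MP_4d1bc1_mp.Kv.Hier.RowT1

set_option autoImplicit false
set_option linter.unusedSimpArgs false
set_option linter.unusedSectionVars false

/-! Row hi-T2: the series `a` and its derivative. -/

namespace Pool.Agent.Lib.MP_4d1bc1_mp.Kv.Hier

open Finset PowerSeries

universe u

variable {F : Type u} [Field F] [Algebra ℝ F] {A : Type u} [CommRing A] [Algebra F A]

namespace Geo

variable (G : Geo F A)

theorem T2_cw_neg {B E : Type u} [CommRing B] [CommRing E] (φ : B →+ E) (f : B⟦X⟧) :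
    cw (-φ) f = -cw φ f := by
  ext n
  rw [coeff_cw, map_neg, coeff_cw, AddMonoidHom.neg_apply]

theorem T2_s_zero : coeff 0 (G.pr G.T G.b) = 1 := by
  unfold Geo.pr
  rw [bi_C_left, coeff_cw]
  unfold Geo.b
  rw [bS_zero]
  exact G.M_T

theorem T2_P_zero : constantCoeff (1 + bi G.M G.b G.neg.b : F⟦X⟧) = 2 := by
  have h1 : constantCoeff (bi G.M G.b G.neg.b : F⟦X⟧) = G.M G.T G.T := by
    rw [← coeff_zero_eq_constantCoeff_apply, coeff_bi, Finset.Nat.antidiagonal_zero,
      Finset.sum_singleton]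
    unfold Geo.b
    rw [bS_zero, bS_zero]
    rfl
  rw [map_add, h1, G.M_T, map_one]
  norm_num

theorem T2_P_ne : (1 + bi G.M G.b G.neg.b : F⟦X⟧) ≠ 0 := by
  intro h
  have h1 := G.T2_P_zero
  rw [h, map_zero] at h1
  exact G.char2 h1.symm

theorem a_eq : io A (1 + bi G.M G.b G.neg.b) * G.a = G.b + G.neg.b := by
  have h1 : G.a = io A (1 + bi G.M G.b G.neg.b)⁻¹ * (G.b + G.neg.b) := rfl
  rw [h1, ← mul_assoc, ← map_mul, PowerSeries.mul_inv_cancel, map_one, one_mul]
  rw [G.T2_P_zero]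
  exact G.char2

theorem T2_bb : X * cw G.DA G.neg.b = -(C G.T - io A (G.pr G.T G.neg.b) * G.neg.b) := by
  have h := G.neg.b_eq
  have h1 : cw G.neg.DA G.neg.b = -cw G.DA G.neg.b := T2_cw_neg _ _
  rw [h1, mul_neg] at h
  rw [eq_neg_iff_add_eq_zero, add_comm, ← sub_neg_eq_add, sub_eq_zero]
  exact h.symm

/-- `P' = (s̄ - s) P` -/
theorem T2_P : X * cw (ad G.D) (1 + bi G.M G.b G.neg.b)
    = (G.pr G.T G.neg.b - G.pr G.T G.b) * (1 + bi G.M G.b G.neg.b) := by
  have h0 : cw (ad G.D) (1 : F⟦X⟧) = 0 := by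
    have : (1 : F⟦X⟧) = C 1 := by simp
    rw [this, cw_C, ad_apply, Derivation.map_one_eq_zero, map_zero]
  have h1 : X * cw (ad G.D) (bi G.M G.b G.neg.b)
      = bi G.M (X * cw G.DA G.b) G.neg.b + bi G.M G.b (X * cw G.DA G.neg.b) := by
    rw [cw_bi G.M G.D G.DA G.D_M, mul_add, bi_X_left, bi_X_right]
  have h2 : bi G.M G.b (C G.T) = G.pr G.T G.b := bi_symm G.M G.M_symm _ _
  have h3 : bi G.M (C G.T) G.neg.b = G.pr G.T G.neg.b := rfl
  rw [map_add, h0, zero_add, h1, G.b_eq, G.T2_bb, bi_neg_right, bi_sub_left, bi_sub_right,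
    bi_io_left, bi_io_right, h2, h3]
  ring

/-- the three derivatives of `a` -/
theorem a_x : X * (io A (1 + bi G.M G.b G.neg.b) * cw G.DA G.a)
    = io A (G.pr G.T G.b) * G.neg.b - io A (G.pr G.T G.neg.b) * G.b := by
  have h1 : X * cw G.DA (io A (1 + bi G.M G.b G.neg.b) * G.a) = X * cw G.DA (G.b + G.neg.b) := by
    rw [G.a_eq]
  rw [cw_mul G.D G.DA G.DA_smul, map_add (cw G.DA), mul_add, mul_add, G.b_eq, G.T2_bb,
    ← mul_assoc X, ← io_X (F := F) (A := A), ← map_mul, G.T2_P, map_mul, mul_assoc, G.a_eq,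
    map_sub] at h1
  rw [← io_X (F := F) (A := A)]
  linear_combination h1

/-- the flows preserve the length of `T` -/
theorem a_orth (n : ℕ) : G.M G.T (G.DA (coeff n G.a)) = 0 := by
  have h1 := congrArg (bi G.M (C G.T)) G.a_x
  have h2 : bi G.M (C G.T) G.neg.b = G.pr G.T G.neg.b := rfl
  have h3 : bi G.M (C G.T) G.b = G.pr G.T G.b := rfl
  rw [bi_X_right, bi_io_right, bi_sub_right, bi_io_right, bi_io_right, h2, h3,
    mul_comm (G.pr G.T G.b), sub_self, mul_eq_zero, mul_eq_zero] at h1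
  have h4 : bi G.M (C G.T) (cw G.DA G.a) = 0 := by
    rcases h1 with h1 | h1 | h1
    · exact absurd h1 X_ne_zero
    · exact absurd h1 G.T2_P_ne
    · exact h1
  rw [bi_C_left] at h4
  have h5 := congrArg (coeff n) h4
  rw [coeff_cw, coeff_cw, map_zero] at h5
  exact h5

theorem T2_y (y : A →ₗ[F] F) (hy : ∀ v, G.D (y v) = G.M G.T v + y (G.DA v))
    (h0 : y G.T = 0) : cw (y : A →+ F) G.b = X := by
  have h1 : cw (ad G.D) (cw (y : A →+ F) G.b)
      = G.pr G.T G.b + cw (y : A →+ F) (cw G.DA G.b) := by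
    unfold Geo.pr
    rw [bi_C_left]
    ext n
    rw [map_add, coeff_cw, coeff_cw, coeff_cw, coeff_cw, coeff_cw, ad_apply]
    exact hy _
  have h2 : X * cw (ad G.D) (cw (y : A →+ F) G.b)
      = X * G.pr G.T G.b - G.pr G.T G.b * cw (y : A →+ F) G.b := by
    rw [h1, mul_add, ← cw_X_mul, G.b_eq, map_sub, cw_C, cw_lin]
    have h3 : (y : A →+ F) G.T = 0 := h0
    rw [h3, map_zero]
    ring
  have h4 : cw (ad G.D) (X : F⟦X⟧) = 0 := by
    ext n
    rw [coeff_cw, coeff_X, map_zero]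
    split_ifs
    · rw [ad_apply, Derivation.map_one_eq_zero]
    · rw [map_zero]
  have h5 : cw (y : A →+ F) G.b - X = 0 := by
    apply uniq_scalar G.D (s := G.pr G.T G.b)
    · rw [G.T2_s_zero]
      exact one_ne_zero
    · rw [map_sub, h4, sub_zero, h2]
      ring
  exact sub_eq_zero.mp h5

/-- the flows preserve the sphere -/
theorem a_sphere (y : A →ₗ[F] F) (hy : ∀ v, G.D (y v) = G.M G.T v + y (G.DA v))
    (h0 : y G.T = 0) (n : ℕ) : y (coeff n G.a) = 0 := by
  have h1 := G.T2_y y hy h0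
  have h2 : cw (((-y : A →ₗ[F] F)) : A →+ F) G.neg.b = X := by
    apply G.neg.T2_y (-y)
    · intro v
      have h3 := hy v
      have h4 : G.neg.D ((-y) v) = G.D (y v) := by
        change (-G.D) ((-y) v) = _
        rw [Derivation.neg_apply, LinearMap.neg_apply, map_neg, neg_neg]
      have h5 : (-y) (G.neg.DA v) = y (G.DA v) := by
        change (-y) ((-G.DA) v) = _
        rw [AddMonoidHom.neg_apply, LinearMap.neg_apply, map_neg, neg_neg]
      rw [h4, h5]
      exact h3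
    · change (-y) G.T = 0
      rw [LinearMap.neg_apply, h0, neg_zero]
  have h6 : cw (((-y : A →ₗ[F] F)) : A →+ F) G.neg.b = -cw (y : A →+ F) G.neg.b := by
    ext n
    rw [coeff_cw, map_neg, coeff_cw]
    rfl
  rw [h6] at h2
  have h7 := congrArg (cw (y : A →+ F)) G.a_eq
  rw [cw_lin, map_add, h1, ← h2, neg_add_cancel, mul_eq_zero] at h7
  have h8 := h7.resolve_left G.T2_P_ne
  have h9 := congrArg (coeff n) h8
  rw [coeff_cw, map_zero] at h9
  exact h9

end Geo

end Pool.Agent.Lib.MP_4d1bc1_mp.Kv.Hier
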