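import Pool.Agent.Lib.MP_4d1bc1_mp.Kv.Hier.W0

set_option autoImplicit false
set_option linter.unusedSimpArgs false
set_option linter.unusedSectionVars false

/-! Row hw-1: the degree of the variational derivative. -/

namespace Pool.Agent.Lib.MP_4d1bc1_mp.Kv.Hier

open Finset Polynomial

universe u

variable {F : Type u} [Field F] [Algebra ℝ F] {J : Jet F}

private theorem W1_term {g : F} {M : ℕ} (hW : Wt J g M) (k : ℕ) :
    Jet.Dg (J.DM^[k] (J.grad k g)) M ∧
      (J.DM^[k] (J.grad k g)).coeff M = if k ≤ M then J.Gu (M - k) k g else 0 := by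
  by_cases hk : k ≤ M
  · have h1 : Jet.Dg (J.grad k g) (M - k) := by
      intro i hi
      rw [Jet.coeff_grad]
      exact hW i k (by omega)
    have h2 := J.dg_iter h1 k
    rw [show M - k + k = M by omega, Jet.coeff_grad] at h2
    rw [if_pos hk]
    exact h2
  · have h1 : J.grad k g = 0 := by
      refine Polynomial.ext fun j => ?_
      rw [Jet.coeff_grad, coeff_zero]
      exact hW j k (by omega)
    rw [h1, Jet.iter_zero', if_neg hk]
    exact ⟨fun i _ => coeff_zero i, coeff_zero M⟩

private theorem W1_coeff (g : F) (N i : ℕ) : (J.del 1 g N).coeff i =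
    ∑ k ∈ range N, (-1 : F) ^ k * (J.DM^[k] (J.grad k g)).coeff i := by
  rw [Jet.del, finsetSum_coeff]
  refine sum_congr rfl fun k _ => ?_
  have h1 : ((-1 : F[X]) ^ k) = C ((-1) ^ k) := by simp
  rw [h1, coeff_C_mul, C_1, one_mul]

/-- `del 1 g N` is the variational derivative of `g`; if `g` has weight at most `M` its leading
coefficient (degree `M`) is `alt M g`. -/
theorem natDegree_del {g : F} {M N : ℕ} (hN : J.Bd g N) (hW : Wt J g M) (hA : alt J M g ≠ 0) :
    (J.del 1 g N).natDegree = M := by
  have h1 : (J.del 1 g N).coeff M = alt J M g := by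
    rw [W1_coeff, alt]
    have e1 : ∑ k ∈ range N, (-1 : F) ^ k * (J.DM^[k] (J.grad k g)).coeff M =
        ∑ k ∈ range N, (if k ≤ M then (-1 : F) ^ k * J.Gu (M - k) k g else 0) := by
      refine sum_congr rfl fun k _ => ?_
      rw [(W1_term hW k).2]
      split_ifs
      · rfl
      · rw [mul_zero]
    rw [e1, ← sum_filter]
    apply sum_subset
    · intro k hk
      rw [mem_filter] at hk
      rw [mem_range]
      omega
    · intro k hk hk'
      rw [mem_range] at hk
      rw [mem_filter, mem_range] at hk'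
      rw [J.Gu_eq_zero_of_bd hN (Or.inr (by omega)), mul_zero]
  refine natDegree_eq_of_le_of_coeff_ne_zero ?_ (by rw [h1]; exact hA)
  rw [natDegree_le_iff_coeff_eq_zero]
  intro i hi
  rw [W1_coeff]
  exact sum_eq_zero fun k _ => by rw [(W1_term hW k).1 i hi, mul_zero]

end Pool.Agent.Lib.MP_4d1bc1_mp.Kv.Hier
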