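import Pool.Agent.Lib.MP_4d1bc1_mp.Kv.Dens

set_option autoImplicit false
set_option linter.unusedSimpArgs false
set_option linter.unusedSectionVars false

/-! The weight filtration and the leading coefficient of variational derivatives: definitions. -/

namespace Pool.Agent.Lib.MP_4d1bc1_mp.Kv.Hier

open Finset Polynomial

universe u

variable {F : Type u} [Field F] [Algebra ℝ F]

/-- no dependence on `u_[p,q]` with `p + q > M` -/
def Wt (J : Jet F) (g : F) (M : ℕ) : Prop := ∀ p q, M < p + q → J.Gu p q g = 0

/-- the alternating sum of the partial derivatives of weight `M` -/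
noncomputable def alt (J : Jet F) (M : ℕ) (g : F) : F :=
  ∑ k ∈ range (M + 1), (-1) ^ k * J.Gu (M - k) k g

end Pool.Agent.Lib.MP_4d1bc1_mp.Kv.Hier
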